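import Mathlib

open Set Metric Complex Filter Topology
open scoped Real NNReal

namespace MP9788a7

/-- Polynomials are dense in the disc algebra. -/
theorem poly_approx (c : ℂ) (R : ℝ) (hR : 0 < R) {F : ℂ → ℂ}
    (hF : ContinuousOn F (closedBall c R)) (hd : DifferentiableOn ℂ F (ball c R))
    {ε : ℝ} (hε : 0 < ε) :
    ∃ P : Polynomial ℂ, ∀ z ∈ closedBall c R, ‖P.eval z - F z‖ ≤ ε := by
  have huc := (isCompact_closedBall c R).uniformContinuousOn_of_continuous hF
  rw [Metric.uniformContinuousOn_iff] at huc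
  obtain ⟨η, hη, hu⟩ := huc (ε / 2) (by positivity)
  set s : ℝ := 1 - min (1/2) (η / (2 * R)) with hs
  have hm0 : 0 < min (1/2) (η / (2 * R)) := lt_min (by norm_num) (by positivity)
  have hm1 : min (1/2) (η / (2 * R)) ≤ 1/2 := min_le_left _ _
  have hm2 : min (1/2) (η / (2 * R)) ≤ η / (2 * R) := min_le_right _ _
  have hs0 : 0 < s := by rw [hs]; linarith
  have hs1 : s < 1 := by rw [hs]; linarith
  have hsR : (1 - s) * R < η := by
    have h1 : (1 - s) * R ≤ η / (2 * R) * R := by
      rw [hs]; simp only [sub_sub_cancel]; gcongr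
    have h2 : η / (2 * R) * R = η / 2 := by field_simp
    linarith
  let G : ℂ → ℂ := fun z => F (c + s * (z - c))
  have hGF : ∀ z ∈ closedBall c R, ‖G z - F z‖ < ε / 2 := by
    intro z hz
    rw [mem_closedBall_iff_norm] at hz
    rw [← dist_eq_norm]
    refine hu _ ?_ _ ?_ ?_
    · rw [mem_closedBall_iff_norm, add_sub_cancel_left, norm_mul, norm_real, Real.norm_eq_abs,
        abs_of_pos hs0]
      nlinarith [norm_nonneg (z - c)]
    · rw [mem_closedBall_iff_norm]; exact hz
    · rw [dist_eq_norm]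
      have : c + s * (z - c) - z = ((-(1 - s) : ℝ) : ℂ) * (z - c) := by push_cast; ring
      rw [this, norm_mul, norm_real, Real.norm_eq_abs, abs_neg, abs_of_pos (by linarith)]
      refine lt_of_le_of_lt ?_ hsR
      gcongr
  -- radii
  have hRs : R < R / s := by rw [lt_div_iff₀ hs0]; nlinarith
  set R1 : ℝ := (R + R / s) / 2 with hR1
  have hR1a : R < R1 := by rw [hR1]; linarith
  have hR1b : R1 < R / s := by rw [hR1]; linarith
  have hR10 : 0 < R1 := by linarith
  set R2 : ℝ := (R + R1) / 2 with hR2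
  have hR2a : R < R2 := by rw [hR2]; linarith
  have hR2b : R2 < R1 := by rw [hR2]; linarith
  have hR20 : 0 < R2 := by linarith
  have hGd : DifferentiableOn ℂ G (closedBall c R1) := by
    intro z hz
    rw [mem_closedBall_iff_norm] at hz
    have h1 : c + s * (z - c) ∈ ball c R := by
      rw [mem_ball_iff_norm, add_sub_cancel_left, norm_mul, norm_real, Real.norm_eq_abs,
        abs_of_pos hs0]
      have : s * ‖z - c‖ < s * (R / s) := by
        refine mul_lt_mul_of_pos_left ?_ hs0
        linarith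
      rwa [mul_div_cancel₀ _ hs0.ne'] at this
    have h2 : DifferentiableAt ℂ F (c + s * (z - c)) :=
      hd.differentiableAt (isOpen_ball.mem_nhds h1)
    have h3 : DifferentiableAt ℂ (fun z : ℂ => c + s * (z - c)) z := by fun_prop
    exact (h2.comp z h3).differentiableWithinAt
  have hps := DifferentiableOn.hasFPowerSeriesOnBall (R := ⟨R1, hR10.le⟩) (c := c) (f := G) hGd
    (by exact_mod_cast hR10)
  have hun := hps.tendstoUniformlyOn (r' := ⟨R2, hR20.le⟩) (by
    rw [ENNReal.coe_lt_coe]; exact hR2b)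
  rw [Metric.tendstoUniformlyOn_iff] at hun
  obtain ⟨n, hn⟩ := (hun (ε / 2) (by positivity)).exists
  set ps := cauchyPowerSeries G c R1 with hps'
  refine ⟨∑ k ∈ Finset.range n, Polynomial.C (ps.coeff k) * (Polynomial.X - Polynomial.C c) ^ k,
    fun z hz => ?_⟩
  have h1 : (∑ k ∈ Finset.range n, Polynomial.C (ps.coeff k) *
      (Polynomial.X - Polynomial.C c) ^ k).eval z = ps.partialSum n (z - c) := by
    rw [Polynomial.eval_finsetSum, FormalMultilinearSeries.partialSum]
    refine Finset.sum_congr rfl fun k _ => ?_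
    rw [FormalMultilinearSeries.apply_eq_pow_smul_coeff]
    simp [mul_comm]
  have h2 : z - c ∈ ball (0 : ℂ) R2 := by
    rw [mem_ball_zero_iff]
    rw [mem_closedBall_iff_norm] at hz
    linarith
  have h3 := hn (z - c) h2
  rw [dist_eq_norm, add_sub_cancel, norm_sub_rev] at h3
  rw [h1]
  calc ‖ps.partialSum n (z - c) - F z‖ = ‖(ps.partialSum n (z - c) - G z) + (G z - F z)‖ := by
        congr 1; ring
    _ ≤ ‖ps.partialSum n (z - c) - G z‖ + ‖G z - F z‖ := norm_add_le _ _
    _ ≤ ε := by
      have := hGF z hz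
      have h4 : ‖ps.partialSum n (z - c) - G z‖ < ε / 2 := h3
      linarith

end MP9788a7
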