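import Pool.Agent.Lib_MP_9788a7_an.Geo
import Pool.Agent.Lib_MP_9788a7_an.Poly

open Set Metric Complex Filter Topology
open scoped Real NNReal

namespace MP9788a7

/-- exponent three quarters -/
noncomputable def e34 : ℂ := ((3/4 : ℝ) : ℂ)

lemma re_pow34_ge {x : ℂ} (h : 0 ≤ x.re) :
    Real.cos (3 * π / 8) * ‖x‖ ^ (3/4 : ℝ) ≤ (x ^ e34).re := by
  have h1 : |arg x| ≤ π / 2 := abs_arg_le_pi_div_two_iff.mpr h
  rw [e34, cpow_re, mul_comm]
  refine mul_le_mul_of_nonneg_left ?_ (by positivity)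
  have := abs_nonneg (arg x)
  refine Real.cos_le_cos_of_nonneg_of_le_pi (by positivity) (by linarith [Real.pi_pos])
    (by linarith)

lemma cos_pos' : 0 < Real.cos (3 * π / 8) :=
  Real.cos_pos_of_mem_Ioo ⟨by linarith [Real.pi_pos], by linarith [Real.pi_pos]⟩

lemma norm_pow34 (x : ℂ) : ‖x ^ e34‖ = ‖x‖ ^ (3/4 : ℝ) := by
  rw [e34, norm_cpow_real]

lemma norm_pow23 (x : ℂ) : ‖x ^ e23‖ = ‖x‖ ^ (2/3 : ℝ) := by
  rw [e23, norm_cpow_real]

/-- The damped inverse of `theta`. -/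
noncomputable def Fd (κ : ℂ) (δ : ℝ) (z : ℂ) : ℂ :=
  if z = 1 then 0 else cexp ((W z) ^ e23 - δ * (κ * W z) ^ e34)

lemma tendsto_norm_W : Tendsto (fun z => ‖W z‖) (𝓝[≠] 1) atTop := by
  have h1 : Tendsto (fun z : ℂ => ‖1 + z‖) (𝓝[≠] 1) (𝓝 2) := by
    have : Tendsto (fun z : ℂ => ‖1 + z‖) (𝓝 1) (𝓝 ‖(1 : ℂ) + 1‖) :=
      (by fun_prop : Continuous fun z : ℂ => ‖1 + z‖).tendsto 1
    rw [show ‖(1 : ℂ) + 1‖ = 2 by norm_num] at this
    exact this.mono_left nhdsWithin_le_nhds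
  have h2 : Tendsto (fun z : ℂ => ‖1 - z‖⁻¹) (𝓝[≠] 1) atTop := by
    refine tendsto_inv_nhdsGT_zero.comp ?_
    rw [tendsto_nhdsWithin_iff]
    refine ⟨?_, ?_⟩
    · have : Tendsto (fun z : ℂ => ‖1 - z‖) (𝓝 1) (𝓝 ‖(1 : ℂ) - 1‖) :=
        (by fun_prop : Continuous fun z : ℂ => ‖1 - z‖).tendsto 1
      rw [sub_self, norm_zero] at this
      exact this.mono_left nhdsWithin_le_nhds
    · filter_upwards [self_mem_nhdsWithin] with z hz
      exact norm_pos_one_sub hz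
  have h3 := h1.pos_mul_atTop two_pos h2
  refine h3.congr fun z => ?_
  rw [W, norm_div, div_eq_mul_inv]

lemma tendsto_pow_diff {c : ℝ} (hc : 0 < c) :
    Tendsto (fun x : ℝ => x ^ (2/3 : ℝ) - c * x ^ (3/4 : ℝ)) atTop atBot := by
  have h1 : Tendsto (fun x : ℝ => x ^ (2/3 : ℝ)) atTop atTop := tendsto_rpow_atTop (by norm_num)
  have h2 : Tendsto (fun x : ℝ => x ^ (1/12 : ℝ)) atTop atTop := tendsto_rpow_atTop (by norm_num)
  have h3 : Tendsto (fun x : ℝ => c * x ^ (1/12 : ℝ) - 1) atTop atTop :=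
    tendsto_atTop_add_const_right _ (-1) (h2.const_mul_atTop hc)
  have h4 := tendsto_neg_atTop_atBot.comp (h1.atTop_mul_atTop₀ h3)
  refine h4.congr' ?_
  filter_upwards [eventually_gt_atTop 0] with x hx
  have : x ^ (3/4 : ℝ) = x ^ (2/3 : ℝ) * x ^ (1/12 : ℝ) := by
    rw [← Real.rpow_add hx]; norm_num
  simp only [Function.comp]
  rw [this]; ring

lemma norm_Fd_le {κ : ℂ} (hκ : 1 ≤ ‖κ‖) {δ : ℝ} (hδ : 0 ≤ δ) {z : ℂ} (hz : z ≠ 1)
    (h : 0 ≤ (κ * W z).re) :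
    ‖Fd κ δ z‖ ≤ Real.exp (‖W z‖ ^ (2/3 : ℝ) - (δ * Real.cos (3 * π / 8)) * ‖W z‖ ^ (3/4 : ℝ)) := by
  rw [Fd, if_neg hz, norm_exp]
  refine Real.exp_le_exp.mpr ?_
  rw [sub_re, re_ofReal_mul]
  have h1 : ((W z) ^ e23).re ≤ ‖W z‖ ^ (2/3 : ℝ) := by
    rw [← norm_pow23]; exact re_le_norm _
  have h2 := re_pow34_ge h
  have h3 : ‖W z‖ ^ (3/4 : ℝ) ≤ ‖κ * W z‖ ^ (3/4 : ℝ) := by
    refine Real.rpow_le_rpow (norm_nonneg _) ?_ (by norm_num)
    rw [norm_mul]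
    nlinarith [norm_nonneg (W z)]
  have h4 := cos_pos'
  have h5 : (δ * Real.cos (3 * π / 8)) * ‖W z‖ ^ (3/4 : ℝ) ≤ δ * ((κ * W z) ^ e34).re := by
    rw [mul_assoc]
    refine mul_le_mul_of_nonneg_left ?_ hδ
    exact (mul_le_mul_of_nonneg_left h3 h4.le).trans h2
  linarith

lemma continuousWithinAt_Fd_one {κ : ℂ} (hκ : 1 ≤ ‖κ‖) {δ : ℝ} (hδ : 0 < δ) {D : Set ℂ}
    (hD : ∀ z ∈ D, z ≠ 1 → 0 ≤ (κ * W z).re) : ContinuousWithinAt (Fd κ δ) D 1 := by
  rw [ContinuousWithinAt]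
  have h0 : Fd κ δ 1 = 0 := by rw [Fd, if_pos rfl]
  rw [h0]
  have hc : 0 < δ * Real.cos (3 * π / 8) := mul_pos hδ cos_pos'
  have h1 : Tendsto (fun z => Real.exp (‖W z‖ ^ (2/3 : ℝ) -
      (δ * Real.cos (3 * π / 8)) * ‖W z‖ ^ (3/4 : ℝ))) (𝓝[≠] 1) (𝓝 0) :=
    Real.tendsto_exp_atBot.comp ((tendsto_pow_diff hc).comp tendsto_norm_W)
  have h2 : Tendsto (Fd κ δ) (𝓝[D \ {1}] 1) (𝓝 0) := by
    rw [tendsto_zero_iff_norm_tendsto_zero]
    refine squeeze_zero' (Eventually.of_forall fun _ => norm_nonneg _) ?_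
      (h1.mono_left (nhdsWithin_mono _ (fun z hz => hz.2)))
    filter_upwards [self_mem_nhdsWithin] with z hz
    exact norm_Fd_le hκ hδ.le hz.2 (hD z hz.1 hz.2)
  have h3 : D ⊆ insert 1 (D \ {1}) := by
    intro z hz
    by_cases h : z = 1
    · exact Or.inl h
    · exact Or.inr ⟨hz, h⟩
  refine Tendsto.mono_left ?_ (nhdsWithin_mono _ h3)
  rw [nhdsWithin_insert, tendsto_sup]
  refine ⟨?_, h2⟩
  rw [← h0]
  exact tendsto_pure_nhds _ _

lemma e23_re : 0 < e23.re := by rw [e23, ofReal_re]; norm_num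
lemma e34_re : 0 < e34.re := by rw [e34, ofReal_re]; norm_num

lemma continuousAt_Fd {κ : ℂ} {δ : ℝ} {z : ℂ} (hz : z ≠ 1)
    (h1 : 0 ≤ (W z).re ∨ (W z).im ≠ 0) (h2 : 0 ≤ (κ * W z).re) : ContinuousAt (Fd κ δ) z := by
  have h0 : Fd κ δ =ᶠ[𝓝 z] fun z => cexp ((W z) ^ e23 - δ * (κ * W z) ^ e34) := by
    filter_upwards [isOpen_ne.mem_nhds hz] with x hx
    rw [Fd, if_neg hx]
  refine ContinuousAt.congr ?_ h0.symm
  have hW : ContinuousAt W z := (differentiableAt_W hz).continuousAt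
  have c1 : ContinuousAt (fun z => (W z) ^ e23) z :=
    ContinuousAt.comp (f := W) (g := fun x => x ^ e23)
      (continuousAt_cpow_const_of_re_pos h1 e23_re) hW
  have c2 : ContinuousAt (fun z => (κ * W z) ^ e34) z :=
    ContinuousAt.comp (f := fun z => κ * W z) (g := fun x => x ^ e34)
      (continuousAt_cpow_const_of_re_pos (Or.inl h2) e34_re) (continuousAt_const.mul hW)
  exact (c1.sub (continuousAt_const.mul c2)).cexp

lemma differentiableAt_Fd {κ : ℂ} {δ : ℝ} {z : ℂ} (hz : z ≠ 1)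
    (h1 : (W z) ∈ slitPlane) (h2 : 0 < (κ * W z).re) : DifferentiableAt ℂ (Fd κ δ) z := by
  have h0 : Fd κ δ =ᶠ[𝓝 z] fun z => cexp ((W z) ^ e23 - δ * (κ * W z) ^ e34) := by
    filter_upwards [isOpen_ne.mem_nhds hz] with x hx
    rw [Fd, if_neg hx]
  refine DifferentiableAt.congr_of_eventuallyEq ?_ h0
  have hW := differentiableAt_W hz
  have c1 : DifferentiableAt ℂ (fun z => (W z) ^ e23) z :=
    hW.cpow (differentiableAt_const _) h1
  have c2 : DifferentiableAt ℂ (fun z => (κ * W z) ^ e34) z :=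
    ((differentiableAt_const _).mul hW).cpow (differentiableAt_const _) (Or.inl h2)
  exact (c1.sub ((differentiableAt_const _).mul c2)).cexp

lemma theta_mul_Fd {κ : ℂ} {δ : ℝ} {z : ℂ} (hz : z ≠ 1) :
    theta z * Fd κ δ z = cexp (-(δ * (κ * W z) ^ e34)) := by
  rw [theta, Fd, if_neg hz, ← Complex.exp_add]
  congr 1; ring

/-- The error bound. -/
noncomputable def beta (n : ℕ) (x : ℝ) : ℝ :=
  1 / (n + 1) + 2 * min 1 ((1 + 2 * x) / (n + 1))

lemma exp_bound {x : ℂ} (h : 0 ≤ x.re) : ‖cexp (-x) - 1‖ ≤ 2 * min 1 ‖x‖ := by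
  rw [mul_min_of_nonneg _ _ (by norm_num)]
  refine le_min ?_ ?_
  · refine (norm_sub_le _ _).trans ?_
    rw [norm_exp, norm_one, neg_re]
    have : Real.exp (-x.re) ≤ 1 := Real.exp_le_one_iff.mpr (by linarith)
    linarith
  · by_cases hx : ‖x‖ ≤ 1
    · have := norm_exp_sub_one_le (x := -x) (by rwa [norm_neg])
      rwa [norm_neg] at this
    · rw [not_le] at hx
      refine (norm_sub_le _ _).trans ?_
      rw [norm_exp, norm_one, neg_re]
      have : Real.exp (-x.re) ≤ 1 := Real.exp_le_one_iff.mpr (by linarith)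
      linarith

lemma rpow_le_one_add {x : ℝ} (hx : 0 ≤ x) : x ^ (3/4 : ℝ) ≤ 1 + x := by
  rcases le_total x 1 with h | h
  · have := Real.rpow_le_one hx h (by norm_num : (0:ℝ) ≤ 3/4)
    linarith
  · have := Real.rpow_le_rpow_of_exponent_le h (by norm_num : (3/4 : ℝ) ≤ 1)
    rw [Real.rpow_one] at this
    linarith

lemma approx_gen {κ c : ℂ} (hκ : 1 ≤ ‖κ‖) (hκ2 : ‖κ‖ ≤ 2)
    (hcl : ∀ z ∈ closedBall c (√2), z ≠ 1 → 0 ≤ (κ * W z).re)
    (hcl2 : ∀ z ∈ closedBall c (√2), z ≠ 1 → 0 ≤ (W z).re ∨ (W z).im ≠ 0)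
    (hop : ∀ z ∈ ball c (√2), 0 < (κ * W z).re)
    (hop2 : ∀ z ∈ ball c (√2), z ≠ 1 ∧ 0 < (W z).re + |(W z).im|) (n : ℕ) :
    ∃ P : Polynomial ℂ, ∀ z ∈ ball c (√2), ‖theta z * P.eval z - 1‖ ≤ beta n ‖W z‖ := by
  set δ : ℝ := 1 / (n + 1) with hδ
  have hδ0 : 0 < δ := by positivity
  have hF : ContinuousOn (Fd κ δ) (closedBall c (√2)) := by
    intro z hz
    by_cases h : z = 1
    · subst h
      exact continuousWithinAt_Fd_one hκ hδ0 hcl
    · exact (continuousAt_Fd h (hcl2 z hz h) (hcl z hz h)).continuousWithinAt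
  have hd : DifferentiableOn ℂ (Fd κ δ) (ball c (√2)) := by
    intro z hz
    exact (differentiableAt_Fd (hop2 z hz).1 (mem_slit (hop2 z hz).2)
      (hop z hz)).differentiableWithinAt
  obtain ⟨P, hP⟩ := poly_approx c (√2) (by positivity) hF hd hδ0
  refine ⟨P, fun z hz => ?_⟩
  have h1 := hP z (ball_subset_closedBall hz)
  have hz1 := (hop2 z hz).1
  have h2 : theta z * P.eval z - 1 =
      theta z * (P.eval z - Fd κ δ z) + (cexp (-(δ * (κ * W z) ^ e34)) - 1) := by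
    rw [← theta_mul_Fd hz1]; ring
  rw [h2, beta]
  refine (norm_add_le _ _).trans (add_le_add ?_ ?_)
  · rw [norm_mul]
    have h3 := norm_theta_le (hop2 z hz).2.le
    calc ‖theta z‖ * ‖P.eval z - Fd κ δ z‖ ≤ 1 * δ :=
          mul_le_mul h3 h1 (norm_nonneg _) zero_le_one
      _ = _ := one_mul _
  · have h4 : 0 ≤ ((δ : ℂ) * (κ * W z) ^ e34).re := by
      rw [re_ofReal_mul]
      refine mul_nonneg hδ0.le (le_trans ?_ (re_pow34_ge (hop z hz).le))
      have := cos_pos'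
      positivity
    refine (exp_bound h4).trans ?_
    refine mul_le_mul_of_nonneg_left (min_le_min le_rfl ?_) (by norm_num)
    rw [norm_mul, norm_real, Real.norm_eq_abs, abs_of_pos hδ0, norm_pow34, hδ,
      div_mul_eq_mul_div, one_mul]
    gcongr
    refine (rpow_le_one_add (norm_nonneg _)).trans ?_
    rw [norm_mul]
    have := norm_nonneg (W z)
    nlinarith

lemma closedBall_A {z : ℂ} (hz : z ∈ closedBall I (√2)) (h1 : z ≠ 1) :
    0 ≤ (W z).re + (W z).im := by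
  have h2 := sumA h1
  rw [mem_closedBall_iff_norm] at hz
  have h3 : ‖z - I‖ ^ 2 ≤ 2 := by
    have := pow_le_pow_left₀ (norm_nonneg _) hz 2
    rwa [Real.sq_sqrt (by norm_num)] at this
  have h4 : 0 < ‖1 - z‖ ^ 2 := by have := norm_pos_one_sub h1; positivity
  by_contra hc
  rw [not_le] at hc
  have := mul_neg_of_neg_of_pos hc h4
  linarith

lemma closedBall_B {z : ℂ} (hz : z ∈ closedBall (-I) (√2)) (h1 : z ≠ 1) :
    0 ≤ (W z).re - (W z).im := by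
  have h2 := diffB h1
  rw [mem_closedBall_iff_norm] at hz
  have h3 : ‖z - (-I)‖ ^ 2 ≤ 2 := by
    have := pow_le_pow_left₀ (norm_nonneg _) hz 2
    rwa [Real.sq_sqrt (by norm_num)] at this
  have h4 : 0 < ‖1 - z‖ ^ 2 := by have := norm_pos_one_sub h1; positivity
  by_contra hc
  rw [not_le] at hc
  have := mul_neg_of_neg_of_pos hc h4
  linarith

lemma re_kA (w : ℂ) : ((1 - I) * w).re = w.re + w.im := by simp [mul_re]
lemma re_kB (w : ℂ) : ((1 + I) * w).re = w.re - w.im := by simp [mul_re]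

lemma norm_kA : ‖(1 - I : ℂ)‖ = √2 := by rw [norm_def, normSq_apply]; norm_num
lemma norm_kB : ‖(1 + I : ℂ)‖ = √2 := by rw [norm_def, normSq_apply]; norm_num

lemma sqrt_two_bounds : 1 ≤ √2 ∧ √2 ≤ 2 := by
  constructor
  · rw [Real.one_le_sqrt]; norm_num
  · rw [Real.sqrt_le_left (by norm_num)]; norm_num

lemma re_or_im {x y : ℝ} (h : 0 ≤ x + y) : 0 ≤ x ∨ y ≠ 0 := by
  by_cases h0 : y = 0
  · left; rw [h0, add_zero] at h; exact h
  · exact Or.inr h0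

theorem approxA (n : ℕ) : ∃ P : Polynomial ℂ, ∀ z ∈ ball I (√2),
    ‖theta z * P.eval z - 1‖ ≤ beta n ‖W z‖ := by
  refine approx_gen (κ := 1 - I) (by rw [norm_kA]; exact sqrt_two_bounds.1)
    (by rw [norm_kA]; exact sqrt_two_bounds.2) ?_ ?_ ?_ ?_ n
  · intro z hz h1; rw [re_kA]; exact closedBall_A hz h1
  · intro z hz h1; exact re_or_im (closedBall_A hz h1)
  · intro z hz; rw [re_kA]; exact (mem_A_iff (ne_one_A hz)).mp hz
  · intro z hz; exact ⟨ne_one_A hz, sum_pos_A hz⟩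

theorem approxB (n : ℕ) : ∃ P : Polynomial ℂ, ∀ z ∈ ball (-I) (√2),
    ‖theta z * P.eval z - 1‖ ≤ beta n ‖W z‖ := by
  refine approx_gen (κ := 1 + I) (by rw [norm_kB]; exact sqrt_two_bounds.1)
    (by rw [norm_kB]; exact sqrt_two_bounds.2) ?_ ?_ ?_ ?_ n
  · intro z hz h1; rw [re_kB]; exact closedBall_B hz h1
  · intro z hz h1
    have := re_or_im (x := (W z).re) (y := -(W z).im) (by
      have := closedBall_B hz h1; linarith)
    simpa using this
  · intro z hz; rw [re_kB]; exact (mem_B_iff (ne_one_B hz)).mp hz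
  · intro z hz; exact ⟨ne_one_B hz, sum_pos_B hz⟩

end MP9788a7
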