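import Mathlib

open Set Metric Complex
open scoped Real

namespace MP9788a7

/-- the sector coordinate -/
noncomputable def W (z : ℂ) : ℂ := (1 + z) / (1 - z)

lemma one_sub_ne {z : ℂ} (hz : z ≠ 1) : 1 - z ≠ 0 := sub_ne_zero.mpr hz.symm

lemma W_re {z : ℂ} : (W z).re = (1 - normSq z) / normSq (1 - z) := by
  rw [W, div_re]
  simp only [add_re, one_re, sub_re, add_im, one_im, zero_add, sub_im, zero_sub, normSq_apply]
  ring

lemma W_im {z : ℂ} : (W z).im = 2 * z.im / normSq (1 - z) := by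
  rw [W, div_im]
  simp only [add_re, one_re, sub_re, add_im, one_im, zero_add, sub_im, zero_sub, normSq_apply]
  ring

lemma W_add_one {z : ℂ} (hz : z ≠ 1) : W z + 1 = 2 / (1 - z) := by
  have := one_sub_ne hz
  rw [W]; field_simp; ring

lemma W_sub_one {z : ℂ} (hz : z ≠ 1) : W z - 1 = 2 * z / (1 - z) := by
  have := one_sub_ne hz
  rw [W]; field_simp; ring

lemma z_eq {z : ℂ} (hz : z ≠ 1) : z = (W z - 1) / (W z + 1) := by
  have := one_sub_ne hz
  rw [W_add_one hz, W_sub_one hz]; field_simp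

lemma W_ne_neg_one {z : ℂ} (hz : z ≠ 1) : W z + 1 ≠ 0 := by
  rw [W_add_one hz]; exact div_ne_zero two_ne_zero (one_sub_ne hz)

lemma W_inv {w : ℂ} (hw : w + 1 ≠ 0) : W ((w - 1) / (w + 1)) = w := by
  rw [W]
  have h1 : 1 + (w - 1) / (w + 1) = 2 * w / (w + 1) := by field_simp; ring
  have h2 : 1 - (w - 1) / (w + 1) = 2 / (w + 1) := by field_simp; ring
  rw [h1, h2]; field_simp

lemma inv_ne_one {w : ℂ} (hw : w + 1 ≠ 0) : (w - 1) / (w + 1) ≠ 1 := by
  intro h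
  rw [div_eq_one_iff_eq hw] at h
  have : (2 : ℂ) = 0 := by linear_combination -h
  exact two_ne_zero this

lemma one_sub_inv {w : ℂ} (hw : w + 1 ≠ 0) : 1 - (w - 1) / (w + 1) = 2 / (w + 1) := by
  field_simp; ring

/-- the quantity defining the disc `A` -/
lemma sumA {z : ℂ} (hz : z ≠ 1) :
    ((W z).re + (W z).im) * ‖1 - z‖ ^ 2 = 2 - ‖z - I‖ ^ 2 := by
  have h : normSq (1 - z) ≠ 0 := by rw [Ne, normSq_eq_zero]; exact one_sub_ne hz
  rw [W_re, W_im, ← add_div, ← normSq_eq_norm_sq, ← normSq_eq_norm_sq, div_mul_cancel₀ _ h]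
  simp only [normSq_apply, sub_re, sub_im, I_re, I_im]
  ring

lemma diffB {z : ℂ} (hz : z ≠ 1) :
    ((W z).re - (W z).im) * ‖1 - z‖ ^ 2 = 2 - ‖z - (-I)‖ ^ 2 := by
  have h : normSq (1 - z) ≠ 0 := by rw [Ne, normSq_eq_zero]; exact one_sub_ne hz
  rw [W_re, W_im, ← sub_div, ← normSq_eq_norm_sq, ← normSq_eq_norm_sq, div_mul_cancel₀ _ h]
  simp only [normSq_apply, sub_re, sub_im, I_re, I_im, neg_re, neg_im]
  ring

lemma norm_pos_one_sub {z : ℂ} (hz : z ≠ 1) : 0 < ‖1 - z‖ := norm_pos_iff.mpr (one_sub_ne hz)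

lemma one_notMem_A : (1 : ℂ) ∉ ball I (√2) := by
  rw [mem_ball_iff_norm, not_lt]
  have : ‖(1 : ℂ) - I‖ = √2 := by
    rw [norm_def, normSq_apply]
    norm_num
  rw [this]

lemma one_notMem_B : (1 : ℂ) ∉ ball (-I) (√2) := by
  rw [mem_ball_iff_norm, not_lt]
  have : ‖(1 : ℂ) - -I‖ = √2 := by
    rw [norm_def, normSq_apply]
    norm_num
  rw [this]

lemma ne_one_A {z : ℂ} (h : z ∈ ball I (√2)) : z ≠ 1 := fun h' => one_notMem_A (h' ▸ h)
lemma ne_one_B {z : ℂ} (h : z ∈ ball (-I) (√2)) : z ≠ 1 := fun h' => one_notMem_B (h' ▸ h)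

lemma mem_A_iff {z : ℂ} (hz : z ≠ 1) : z ∈ ball I (√2) ↔ 0 < (W z).re + (W z).im := by
  have h1 := sumA hz
  have h2 : 0 < ‖1 - z‖ ^ 2 := by have := norm_pos_one_sub hz; positivity
  rw [mem_ball_iff_norm, ← sq_lt_sq₀ (norm_nonneg _) (Real.sqrt_nonneg _),
    Real.sq_sqrt (by norm_num)]
  constructor
  · intro h
    have h3 : 0 < ((W z).re + (W z).im) * ‖1 - z‖ ^ 2 := by rw [h1]; linarith
    exact (mul_pos_iff_of_pos_right h2).mp h3
  · intro h
    have h3 : 0 < ((W z).re + (W z).im) * ‖1 - z‖ ^ 2 := mul_pos h h2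
    rw [h1] at h3; linarith

lemma mem_B_iff {z : ℂ} (hz : z ≠ 1) : z ∈ ball (-I) (√2) ↔ 0 < (W z).re - (W z).im := by
  have h1 := diffB hz
  have h2 : 0 < ‖1 - z‖ ^ 2 := by have := norm_pos_one_sub hz; positivity
  rw [mem_ball_iff_norm, ← sq_lt_sq₀ (norm_nonneg _) (Real.sqrt_nonneg _),
    Real.sq_sqrt (by norm_num)]
  constructor
  · intro h
    have h3 : 0 < ((W z).re - (W z).im) * ‖1 - z‖ ^ 2 := by rw [h1]; linarith
    exact (mul_pos_iff_of_pos_right h2).mp h3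
  · intro h
    have h3 : 0 < ((W z).re - (W z).im) * ‖1 - z‖ ^ 2 := mul_pos h h2
    rw [h1] at h3; linarith

/-- distance to the boundary circle -/
lemma dist_A {z : ℂ} (hz : z ∈ ball I (√2)) :
    ((W z).re + (W z).im) * ‖1 - z‖ ^ 2 ≤ 3 * (√2 - ‖z - I‖) := by
  rw [sumA (ne_one_A hz)]
  rw [mem_ball_iff_norm] at hz
  have h0 := norm_nonneg (z - I)
  have h1 : √2 ^ 2 = 2 := Real.sq_sqrt (by norm_num)
  have h2 : √2 ≤ 3 / 2 := by
    rw [Real.sqrt_le_left (by norm_num)]; norm_num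
  nlinarith

lemma dist_B {z : ℂ} (hz : z ∈ ball (-I) (√2)) :
    ((W z).re - (W z).im) * ‖1 - z‖ ^ 2 ≤ 3 * (√2 - ‖z - (-I)‖) := by
  rw [diffB (ne_one_B hz)]
  rw [mem_ball_iff_norm] at hz
  have h0 := norm_nonneg (z - (-I))
  have h1 : √2 ^ 2 = 2 := Real.sq_sqrt (by norm_num)
  have h2 : √2 ≤ 3 / 2 := by
    rw [Real.sqrt_le_left (by norm_num)]; norm_num
  nlinarith

/-- argument bound -/
lemma abs_arg_le {w : ℂ} (hw : w ≠ 0) (h : 0 ≤ w.re + |w.im|) : |arg w| ≤ 3 * π / 4 := by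
  by_contra hc
  rw [not_le] at hc
  have h1 : |arg w| ≤ π := abs_arg_le_pi w
  have hn : 0 < ‖w‖ := norm_pos_iff.mpr hw
  have hre : w.re = ‖w‖ * Real.cos |arg w| := by rw [Real.cos_abs, norm_mul_cos_arg]
  have him : |w.im| = ‖w‖ * Real.sin |arg w| := by
    rw [← norm_mul_sin_arg w, abs_mul, abs_norm]
    congr 1
    rcases le_total 0 (arg w) with h0 | h0
    · rw [abs_of_nonneg h0, abs_of_nonneg (Real.sin_nonneg_of_nonneg_of_le_pi h0 (arg_le_pi w))]
    · rw [abs_of_nonpos h0, Real.sin_neg, abs_of_nonpos]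
      exact Real.sin_nonpos_of_nonpos_of_neg_pi_le h0 (neg_pi_lt_arg w).le
  have h2 : Real.cos |arg w| + Real.sin |arg w| = √2 * Real.cos (|arg w| - π / 4) := by
    rw [Real.cos_sub, Real.cos_pi_div_four, Real.sin_pi_div_four]
    have h1 : √2 * √2 = 2 := Real.mul_self_sqrt (by norm_num)
    linear_combination (-(1/2) * (Real.cos |arg w| + Real.sin |arg w|)) * h1
  have h3 : Real.cos (|arg w| - π / 4) < 0 := by
    refine Real.cos_neg_of_pi_div_two_lt_of_lt (by linarith) (by linarith [Real.pi_pos])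
  rw [hre, him, ← mul_add, h2] at h
  have : ‖w‖ * (√2 * Real.cos (|arg w| - π / 4)) < 0 :=
    mul_neg_of_pos_of_neg hn (mul_neg_of_pos_of_neg (by positivity) h3)
  linarith

lemma cpow_re (w : ℂ) (s : ℝ) : (w ^ (s : ℂ)).re = ‖w‖ ^ s * Real.cos (|arg w| * s) := by
  rw [cpow_ofReal_re]
  congr 1
  rcases le_total 0 (arg w) with h0 | h0
  · rw [abs_of_nonneg h0]
  · rw [abs_of_nonpos h0, neg_mul, Real.cos_neg]

/-- exponent two thirds -/
noncomputable def e23 : ℂ := ((2/3 : ℝ) : ℂ)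

lemma re_pow_nonneg {w : ℂ} (h : 0 ≤ w.re + |w.im|) : 0 ≤ (w ^ e23).re := by
  by_cases hw : w = 0
  · have : e23 ≠ 0 := by unfold e23; exact_mod_cast (by norm_num : (2/3 : ℝ) ≠ 0)
    rw [hw, zero_cpow this, zero_re]
  · have h1 := abs_arg_le hw h
    rw [e23, cpow_re]
    refine mul_nonneg (by positivity) (Real.cos_nonneg_of_neg_pi_div_two_le_of_le ?_ ?_)
    · have := abs_nonneg (arg w)
      nlinarith [Real.pi_pos]
    · linarith

lemma re_pow_le_two {w : ℂ} (h : w.re + |w.im| = 1) : (w ^ e23).re ≤ 2 := by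
  have hw : w ≠ 0 := by rintro rfl; simp at h
  have h1 := abs_arg_le hw (by rw [h]; norm_num)
  have hn : 0 < ‖w‖ := norm_pos_iff.mpr hw
  set ψ := |arg w| with hψ
  have hψ0 : 0 ≤ ψ := abs_nonneg _
  have hpi := Real.pi_pos
  have hre : w.re = ‖w‖ * Real.cos ψ := by rw [hψ, Real.cos_abs, norm_mul_cos_arg]
  have him : |w.im| = ‖w‖ * Real.sin ψ := by
    rw [← norm_mul_sin_arg w, abs_mul, abs_norm]
    congr 1
    rcases le_total 0 (arg w) with h0 | h0
    · rw [hψ, abs_of_nonneg h0,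
        abs_of_nonneg (Real.sin_nonneg_of_nonneg_of_le_pi h0 (arg_le_pi w))]
    · rw [hψ, abs_of_nonpos h0, Real.sin_neg, abs_of_nonpos]
      exact Real.sin_nonpos_of_nonpos_of_neg_pi_le h0 (neg_pi_lt_arg w).le
  have h2 : Real.cos ψ + Real.sin ψ = √2 * Real.sin (3 * π / 4 - ψ) := by
    have e1 : 3 * π / 4 - ψ = π / 2 - (ψ - π / 4) := by ring
    rw [e1, Real.sin_pi_div_two_sub, Real.cos_sub, Real.cos_pi_div_four, Real.sin_pi_div_four]
    have h1 : √2 * √2 = 2 := Real.mul_self_sqrt (by norm_num)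
    linear_combination (-(1/2) * (Real.cos ψ + Real.sin ψ)) * h1
  set χ := 3 * π / 4 - ψ with hχ
  have hχ0 : 0 ≤ χ := by rw [hχ]; linarith
  have hχ1 : χ ≤ 3 * π / 4 := by rw [hχ]; linarith
  have h3 : Real.cos (ψ * (2/3)) = Real.sin (2 * χ / 3) := by
    rw [← Real.sin_pi_div_two_sub]; congr 1; rw [hχ]; ring
  have h4 : ‖w‖ * (√2 * Real.sin χ) = 1 := by
    rw [← h2, mul_add, ← hre, ← him, h]
  have h5 : Real.sin (2 * χ / 3) ≤ √2 * Real.sin χ := by
    have hs2 : (1 : ℝ) ≤ √2 := by rw [Real.one_le_sqrt]; norm_num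
    rcases le_total χ (π / 2) with hc | hc
    · have h6 : Real.sin (2 * χ / 3) ≤ Real.sin χ :=
        Real.sin_le_sin_of_le_of_le_pi_div_two (by linarith) hc (by linarith)
      have h7 : 0 ≤ Real.sin χ := Real.sin_nonneg_of_nonneg_of_le_pi hχ0 (by linarith)
      nlinarith
    · have h6 : √2 / 2 ≤ Real.sin χ := by
        rw [← Real.sin_pi_div_four, ← Real.sin_pi_sub χ]
        exact Real.sin_le_sin_of_le_of_le_pi_div_two (by linarith) (by linarith) (by linarith)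
      have h7 := Real.sin_le_one (2 * χ / 3)
      have h8 : √2 * √2 = 2 := Real.mul_self_sqrt (by norm_num)
      nlinarith
  rw [e23, cpow_re, ← hψ, h3]
  have h9 : (1 / 8 : ℝ) ≤ ‖w‖ := by
    have hs2 : √2 ≤ 3 / 2 := by
      rw [Real.sqrt_le_left (by norm_num)]; norm_num
    have h10 : √2 * Real.sin χ ≤ 3 / 2 := by
      have := Real.sin_le_one χ
      have h11 : 0 ≤ √2 := Real.sqrt_nonneg _
      nlinarith
    nlinarith
  have h12 : ‖w‖ ^ (2/3 : ℝ) * Real.sin (2 * χ / 3) ≤ ‖w‖ ^ (2/3 : ℝ) * (√2 * Real.sin χ) :=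
    mul_le_mul_of_nonneg_left h5 (by positivity)
  have h13 : ‖w‖ ^ (2/3 : ℝ) * (√2 * Real.sin χ) = ‖w‖ ^ (-(1/3) : ℝ) := by
    have e1 : ‖w‖ ^ (2/3 : ℝ) = ‖w‖ ^ (-(1/3) : ℝ) * ‖w‖ := by
      nth_rewrite 3 [← Real.rpow_one ‖w‖]
      rw [← Real.rpow_add hn]; norm_num
    rw [e1, mul_assoc, h4, mul_one]
  have h14 : ‖w‖ ^ (-(1/3) : ℝ) ≤ (1/8 : ℝ) ^ (-(1/3) : ℝ) :=
    Real.rpow_le_rpow_of_nonpos (by norm_num) h9 (by norm_num)
  have h15 : (1/8 : ℝ) ^ (-(1/3) : ℝ) = 2 := by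
    rw [show (1/8 : ℝ) = (2 : ℝ) ^ (-3 : ℝ) by
      rw [show (-3 : ℝ) = ((-3 : ℤ) : ℝ) by norm_num, Real.rpow_intCast]; norm_num,
      ← Real.rpow_mul (by norm_num)]
    norm_num
  linarith

lemma re_pow_ge {w : ℂ} (h : |w.im| ≤ w.re) : ‖w‖ ^ (2/3 : ℝ) / 2 ≤ (w ^ e23).re := by
  by_cases hw : w = 0
  · have : e23 ≠ 0 := by unfold e23; exact_mod_cast (by norm_num : (2/3 : ℝ) ≠ 0)
    rw [hw, zero_cpow this, zero_re, norm_zero, Real.zero_rpow (by norm_num)]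
    norm_num
  · have hre : 0 ≤ w.re := (abs_nonneg _).trans h
    have h1 : |arg w| ≤ π / 2 := abs_arg_le_pi_div_two_iff.mpr hre
    rw [e23, cpow_re]
    have h2 : (1/2 : ℝ) ≤ Real.cos (|arg w| * (2/3)) := by
      rw [← Real.cos_pi_div_three]
      have := abs_nonneg (arg w)
      refine Real.cos_le_cos_of_nonneg_of_le_pi (by positivity) (by linarith [Real.pi_pos])
        (by linarith)
    have h3 : 0 ≤ ‖w‖ ^ (2/3 : ℝ) := by positivity
    nlinarith

lemma mem_slit {w : ℂ} (h : 0 < w.re + |w.im|) : w ∈ slitPlane := by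
  rw [mem_slitPlane_iff]
  by_cases h0 : w.im = 0
  · left; rw [h0, abs_zero, add_zero] at h; exact h
  · exact Or.inr h0

/-- the inner function of the union of the two discs -/
noncomputable def theta (z : ℂ) : ℂ := cexp (-(W z) ^ e23)

lemma norm_theta (z : ℂ) : ‖theta z‖ = Real.exp (-((W z) ^ e23).re) := by
  rw [theta, norm_exp, neg_re]

lemma theta_ne_zero (z : ℂ) : theta z ≠ 0 := exp_ne_zero _

lemma norm_theta_le {z : ℂ} (h : 0 ≤ (W z).re + |(W z).im|) : ‖theta z‖ ≤ 1 := by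
  rw [norm_theta]
  have := re_pow_nonneg h
  exact Real.exp_le_one_iff.mpr (by linarith)

lemma differentiableAt_W {z : ℂ} (hz : z ≠ 1) : DifferentiableAt ℂ W z := by
  unfold W
  exact ((differentiableAt_const _).add differentiableAt_id).div
    ((differentiableAt_const _).sub differentiableAt_id) (one_sub_ne hz)

lemma differentiableAt_theta {z : ℂ} (hz : z ≠ 1) (h : 0 < (W z).re + |(W z).im|) :
    DifferentiableAt ℂ theta z := by
  unfold theta
  exact ((differentiableAt_W hz).cpow (differentiableAt_const _) (mem_slit h)).neg.cexp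

lemma sum_pos_A {z : ℂ} (hz : z ∈ ball I (√2)) : 0 < (W z).re + |(W z).im| := by
  have := (mem_A_iff (ne_one_A hz)).mp hz
  linarith [le_abs_self (W z).im]

lemma sum_pos_B {z : ℂ} (hz : z ∈ ball (-I) (√2)) : 0 < (W z).re + |(W z).im| := by
  have := (mem_B_iff (ne_one_B hz)).mp hz
  linarith [neg_le_abs (W z).im]

end MP9788a7
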