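import Pool.Agent.Lib_MP_9788a7_an.Fad
import Pool.Agent.Lib_MP_9788a7_an.Geo

open MeasureTheory Set Metric Filter Topology Complex
open scoped Real

namespace MP9788a7

/-- real points of the disc -/
noncomputable def zz (y : ℝ) : ℂ := ((y : ℂ) - 1) / ((y : ℂ) + 1)

/-- inverse of the coordinate -/
noncomputable def zh (w : ℂ) : ℂ := (w - 1) / (w + 1)

lemma norm_zz_le {y : ℝ} (hy : 0 < y) : ‖zz y‖ ≤ 1 := by
  rw [zz, norm_div, ← ofReal_one, ← ofReal_sub, ← ofReal_add, norm_real, norm_real,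
    Real.norm_eq_abs, Real.norm_eq_abs, abs_of_pos (by linarith : 0 < y + 1),
    div_le_one (by linarith), abs_le]
  constructor <;> linarith

lemma poly_bdd (Q : Polynomial ℂ) : ∃ M : ℝ, 0 ≤ M ∧ ∀ z : ℂ, ‖z‖ ≤ 1 → ‖Q.eval z‖ ≤ M := by
  have h1 := (isCompact_closedBall (0 : ℂ) 1).exists_bound_of_continuousOn
    (f := fun z => Q.eval z) Q.continuous.continuousOn
  obtain ⟨M, hM⟩ := h1
  refine ⟨max M 0, le_max_right _ _, fun z hz => (hM z ?_).trans (le_max_left _ _)⟩
  rwa [mem_closedBall_zero_iff]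

/-- weighted Cauchy transform -/
noncomputable def Hq (Q : Polynomial ℂ) (w : ℂ) : ℂ :=
  (2 * π * I)⁻¹ * ∫ y in Ioi (0 : ℝ), Q.eval (zz y) * cexp (-(y : ℂ)^2) / ((y : ℂ) - w)

lemma norm_gauss (y : ℝ) : ‖cexp (-(y : ℂ)^2)‖ = Real.exp (-1 * y^2) := by
  rw [norm_exp]
  congr 1
  rw [← ofReal_pow, ← ofReal_neg, ofReal_re]; ring

lemma continuousOn_zz : ContinuousOn zz (Ioi 0) := by
  unfold zz
  refine ContinuousOn.div (by fun_prop) (by fun_prop) fun y hy => ?_
  have hy0 : (0 : ℝ) < y := hy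
  intro h
  have h1 := congrArg Complex.re h
  simp at h1
  linarith

lemma im_le_norm_sub (w : ℂ) (y : ℝ) : |w.im| ≤ ‖(y : ℂ) - w‖ := by
  have := abs_im_le_norm ((y : ℂ) - w)
  simpa only [sub_im, ofReal_im, zero_sub, abs_neg] using this

lemma aesm_Hq (Q : Polynomial ℂ) (g : ℝ → ℂ) (hg : ContinuousOn g (Ioi 0)) :
    AEStronglyMeasurable (fun y : ℝ => Q.eval (zz y) * cexp (-(y : ℂ)^2) * g y)
      (volume.restrict (Ioi 0)) := by
  refine ContinuousOn.aestronglyMeasurable ?_ measurableSet_Ioi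
  refine ((Q.continuous.comp_continuousOn continuousOn_zz).mul ?_).mul hg
  exact (by fun_prop : Continuous fun y : ℝ => cexp (-(y : ℂ)^2)).continuousOn

lemma integrable_Hq (Q : Polynomial ℂ) (g : ℝ → ℂ) (hg : ContinuousOn g (Ioi 0)) {K : ℝ}
    (hK : ∀ y : ℝ, 0 < y → ‖g y‖ ≤ K) :
    IntegrableOn (fun y : ℝ => Q.eval (zz y) * cexp (-(y : ℂ)^2) * g y) (Ioi 0) := by
  obtain ⟨M, hM0, hM⟩ := poly_bdd Q
  have h1 : IntegrableOn (fun y : ℝ => M * K * Real.exp (-1 * y^2)) (Ioi 0) :=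
    ((integrable_exp_neg_mul_sq one_pos).const_mul _).integrableOn
  refine Integrable.mono' h1 (aesm_Hq Q g hg) ?_
  refine (ae_restrict_iff' measurableSet_Ioi).mpr (Eventually.of_forall fun y hy => ?_)
  have hy0 : (0 : ℝ) < y := hy
  rw [norm_mul, norm_mul, norm_gauss]
  have e1 := hM _ (norm_zz_le hy0)
  have e2 := hK y hy0
  have e3 : 0 ≤ K := (norm_nonneg _).trans e2
  calc ‖Q.eval (zz y)‖ * Real.exp (-1 * y^2) * ‖g y‖ ≤ M * Real.exp (-1 * y^2) * K := by gcongr
    _ = _ := by ring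

lemma cont_inv {w : ℂ} (hw : w.im ≠ 0) : ContinuousOn (fun y : ℝ => ((y : ℂ) - w)⁻¹) (Ioi 0) := by
  refine ContinuousOn.inv₀ (by fun_prop) fun y _ h => hw ?_
  have := congrArg Complex.im h
  simpa using this

lemma inv_bound {w : ℂ} (hw : w.im ≠ 0) (y : ℝ) : ‖((y : ℂ) - w)⁻¹‖ ≤ |w.im|⁻¹ := by
  rw [norm_inv]
  exact inv_anti₀ (abs_pos.mpr hw) (im_le_norm_sub w y)

lemma cont_inv1 : ContinuousOn (fun y : ℝ => ((y : ℂ) + 1)⁻¹) (Ioi 0) := by
  refine ContinuousOn.inv₀ (by fun_prop) fun y hy h => ?_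
  have hy0 : (0 : ℝ) < y := hy
  have h1 := congrArg Complex.re h
  simp at h1
  linarith

lemma inv_bound1 {y : ℝ} (hy : 0 < y) : ‖((y : ℂ) + 1)⁻¹‖ ≤ 1 := by
  rw [norm_inv, ← ofReal_one, ← ofReal_add, norm_real, Real.norm_eq_abs,
    abs_of_pos (by linarith : 0 < y + 1)]
  exact inv_le_one_of_one_le₀ (by linarith)

lemma Hq_mul_X (Q : Polynomial ℂ) : ∃ c : ℂ, ∀ w : ℂ, w.im ≠ 0 →
    Hq (Q * Polynomial.X) w = zh w * Hq Q w + (1 - zh w) * c := by
  refine ⟨(2 * π * I)⁻¹ * ∫ y in Ioi (0 : ℝ), Q.eval (zz y) * cexp (-(y : ℂ)^2) * ((y : ℂ) + 1)⁻¹,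
    fun w hw => ?_⟩
  have hw1 : w + 1 ≠ 0 := by
    intro h; apply hw
    have := congrArg Complex.im h
    simpa using this
  rw [Hq, Hq]
  have h1 : ∫ y in Ioi (0 : ℝ), (Q * Polynomial.X).eval (zz y) * cexp (-(y : ℂ)^2) / ((y : ℂ) - w) =
      (zh w * ∫ y in Ioi (0 : ℝ), Q.eval (zz y) * cexp (-(y : ℂ)^2) / ((y : ℂ) - w)) +
      (1 - zh w) * ∫ y in Ioi (0 : ℝ), Q.eval (zz y) * cexp (-(y : ℂ)^2) * ((y : ℂ) + 1)⁻¹ := by
    rw [← integral_const_mul, ← integral_const_mul, ← integral_add]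
    · refine setIntegral_congr_fun measurableSet_Ioi fun y hy => ?_
      have hy0 : (0 : ℝ) < y := hy
      have hy1 : (y : ℂ) + 1 ≠ 0 := by
        intro h
        have h1 := congrArg Complex.re h
        simp at h1
        linarith
      have hyw : (y : ℂ) - w ≠ 0 := by
        intro h; apply hw
        have := congrArg Complex.im h
        simpa using this
      simp only [Polynomial.eval_mul, Polynomial.eval_X]
      have key : zz y / ((y : ℂ) - w) = zh w / ((y : ℂ) - w) + (1 - zh w) * ((y : ℂ) + 1)⁻¹ := by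
        rw [zz, zh]
        field_simp
        ring
      linear_combination (Q.eval (zz y) * cexp (-(y : ℂ)^2)) * key
    · have := (integrable_Hq Q _ (cont_inv hw) (fun y _ => inv_bound hw y)).const_mul (zh w)
      simpa only [div_eq_mul_inv] using this
    · exact (integrable_Hq Q _ cont_inv1 (fun y hy => inv_bound1 hy)).const_mul _
  rw [h1]
  ring

lemma Hq_add (Q Q' : Polynomial ℂ) {w : ℂ} (hw : w.im ≠ 0) : Hq (Q + Q') w = Hq Q w + Hq Q' w := by
  rw [Hq, Hq, Hq, ← mul_add, ← integral_add]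
  · congr 1
    congr 1
    funext y
    rw [Polynomial.eval_add]; ring
  · simp only [div_eq_mul_inv]
    exact integrable_Hq Q _ (cont_inv hw) (fun y _ => inv_bound hw y)
  · simp only [div_eq_mul_inv]
    exact integrable_Hq Q' _ (cont_inv hw) (fun y _ => inv_bound hw y)

lemma Hq_C (a : ℂ) (w : ℂ) : Hq (Polynomial.C a) w = a * U0 w := by
  rw [Hq, U0]
  simp only [Polynomial.eval_C, mul_div_assoc]
  rw [integral_const_mul]
  ring

/-- Divided difference identity. -/
theorem exists_R (Q : Polynomial ℂ) : ∃ R : Polynomial ℂ, ∀ w : ℂ, w.im ≠ 0 →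
    Q.eval (zh w) * U0 w = Hq Q w + R.eval (zh w) := by
  induction Q using Polynomial.induction_on with
  | C a => exact ⟨0, fun w _ => by rw [Polynomial.eval_C, Hq_C]; simp⟩
  | add p q hp hq =>
    obtain ⟨R1, h1⟩ := hp
    obtain ⟨R2, h2⟩ := hq
    refine ⟨R1 + R2, fun w hw => ?_⟩
    rw [Hq_add p q hw, Polynomial.eval_add, Polynomial.eval_add, add_mul, h1 w hw, h2 w hw]
    ring
  | monomial n a ih =>
    obtain ⟨R, hR⟩ := ih
    obtain ⟨c, hc⟩ := Hq_mul_X (Polynomial.C a * Polynomial.X ^ n)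
    refine ⟨R * Polynomial.X - Polynomial.C c * (1 - Polynomial.X), fun w hw => ?_⟩
    have e1 : Polynomial.C a * Polynomial.X ^ (n + 1) =
        (Polynomial.C a * Polynomial.X ^ n) * Polynomial.X := by rw [pow_succ, mul_assoc]
    rw [e1, hc w hw, Polynomial.eval_mul, Polynomial.eval_X]
    simp only [Polynomial.eval_sub, Polynomial.eval_mul (p := R), Polynomial.eval_X,
      Polynomial.eval_mul (p := Polynomial.C c), Polynomial.eval_C, Polynomial.eval_one]
    linear_combination (zh w) * hR w hw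

/-- lower bound for the denominator -/
lemma den_bound {w : ℂ} {y : ℝ} (hy : 0 < y) : (w.re + |w.im|) / 2 ≤ ‖(y : ℂ) + w‖ := by
  have h1 := abs_re_le_norm ((y : ℂ) + w)
  have h2 := abs_im_le_norm ((y : ℂ) + w)
  simp only [add_re, ofReal_re, add_im, ofReal_im, zero_add] at h1 h2
  have h3 := le_abs_self (y + w.re)
  linarith

lemma norm_NF_le {w : ℂ} (h : 1 ≤ w.re + |w.im|) : ‖NF w‖ ≤ 1 := by
  rw [NF, norm_neg, norm_mul]
  have h1 : ‖∫ y in Ioi (0 : ℝ), cexp (-(y : ℂ)^2) / ((y : ℂ) + w)‖ ≤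
      ∫ y in Ioi (0 : ℝ), 2 * Real.exp (-1 * y^2) := by
    refine norm_integral_le_of_norm_le
      ((integrable_exp_neg_mul_sq one_pos).const_mul _).integrableOn ?_
    refine (ae_restrict_iff' measurableSet_Ioi).mpr (Eventually.of_forall fun y hy => ?_)
    rw [norm_div, norm_gauss]
    have h2 := den_bound (w := w) hy
    have h3 : (1/2 : ℝ) ≤ ‖(y : ℂ) + w‖ := by linarith
    calc Real.exp (-1 * y^2) / ‖(y : ℂ) + w‖ ≤ Real.exp (-1 * y^2) / (1/2) := by gcongr
      _ = _ := by ring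
  rw [integral_const_mul, integral_gaussian_Ioi] at h1
  have hpi := Real.pi_gt_three
  have h4 : ‖(2 * (π : ℂ) * I)⁻¹‖ = (2 * π)⁻¹ := by
    rw [norm_inv, norm_mul, norm_mul, norm_I, mul_one, norm_real,
      Real.norm_eq_abs, abs_of_pos Real.pi_pos]
    simp
  rw [h4]
  have h5 : √(π / 1) ≤ π := by
    rw [div_one, Real.sqrt_le_left Real.pi_pos.le]; nlinarith
  calc (2 * π)⁻¹ * ‖∫ y in Ioi (0 : ℝ), cexp (-(y : ℂ)^2) / ((y : ℂ) + w)‖
      ≤ (2 * π)⁻¹ * (2 * (π / 2)) := by
        gcongr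
        exact h1.trans (by linarith)
    _ ≤ 1 := by
        have : 0 < π := Real.pi_pos
        field_simp
        norm_num

lemma differentiableAt_NF {w₀ : ℂ} (h : 0 < w₀.re + |w₀.im|) : DifferentiableAt ℂ NF w₀ := by
  set m := w₀.re + |w₀.im| with hm
  have hball : ∀ w ∈ ball w₀ (m / 4), m / 2 ≤ w.re + |w.im| := by
    intro w hw
    rw [mem_ball_iff_norm] at hw
    have h1 := abs_re_le_norm (w - w₀)
    have h2 := abs_im_le_norm (w - w₀)
    rw [sub_re] at h1
    rw [sub_im] at h2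
    have h3 := neg_abs_le (w.re - w₀.re)
    have h4 := abs_sub_abs_le_abs_sub w₀.im w.im
    rw [abs_sub_comm] at h4
    linarith
  have hcont : ∀ w, 0 < w.re + |w.im| →
      ContinuousOn (fun y : ℝ => cexp (-(y : ℂ)^2) / ((y : ℂ) + w)) (Ioi 0) := by
    intro w hw
    refine ContinuousOn.div (by fun_prop) (by fun_prop) fun y hy h0 => ?_
    have := den_bound (w := w) hy
    rw [h0, norm_zero] at this
    linarith
  refine DifferentiableAt.neg (DifferentiableAt.const_mul ?_ _)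
  have key := hasDerivAt_integral_of_dominated_loc_of_deriv_le (𝕜 := ℂ)
    (μ := volume.restrict (Ioi (0:ℝ))) (s := ball w₀ (m / 4))
    (F := fun w (y : ℝ) => cexp (-(y : ℂ)^2) / ((y : ℂ) + w))
    (F' := fun w (y : ℝ) => -(cexp (-(y : ℂ)^2) / ((y : ℂ) + w) ^ 2)) (x₀ := w₀)
    (bound := fun y => (16 / m^2) * Real.exp (-1 * y^2))
    (ball_mem_nhds w₀ (by positivity))
    (by
      filter_upwards [ball_mem_nhds w₀ (show 0 < m / 4 by positivity)] with w hw
      exact (hcont w (by have := hball w hw; linarith)).aestronglyMeasurable measurableSet_Ioi)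
    (by
      have h1 : IntegrableOn (fun y : ℝ => (2 / m) * Real.exp (-1 * y^2)) (Ioi 0) :=
        ((integrable_exp_neg_mul_sq one_pos).const_mul _).integrableOn
      refine Integrable.mono' h1 ((hcont w₀ h).aestronglyMeasurable measurableSet_Ioi) ?_
      refine (ae_restrict_iff' measurableSet_Ioi).mpr (Eventually.of_forall fun y hy => ?_)
      rw [norm_div, norm_gauss]
      have h2 := den_bound (w := w₀) hy
      rw [← hm] at h2
      calc Real.exp (-1 * y^2) / ‖(y : ℂ) + w₀‖ ≤ Real.exp (-1 * y^2) / (m/2) := by gcongr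
        _ = _ := by field_simp)
    (by
      refine ContinuousOn.aestronglyMeasurable ?_ measurableSet_Ioi
      refine (ContinuousOn.div (by fun_prop) (by fun_prop) fun y hy h0 => ?_).neg
      have := den_bound (w := w₀) hy
      have h0' : (y : ℂ) + w₀ = 0 := pow_eq_zero_iff (two_ne_zero) |>.mp h0
      rw [h0', norm_zero] at this
      linarith)
    (by
      refine (ae_restrict_iff' measurableSet_Ioi).mpr (Eventually.of_forall fun y hy w hw => ?_)
      rw [norm_neg, norm_div, norm_gauss, norm_pow]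
      have h2 := den_bound (w := w) hy
      have h3 := hball w hw
      have h4 : m / 4 ≤ ‖(y : ℂ) + w‖ := by linarith
      calc Real.exp (-1 * y^2) / ‖(y : ℂ) + w‖ ^ 2 ≤ Real.exp (-1 * y^2) / (m/4) ^ 2 := by gcongr
        _ = _ := by field_simp; norm_num)
    (((integrable_exp_neg_mul_sq one_pos).const_mul _).integrableOn)
    (by
      refine (ae_restrict_iff' measurableSet_Ioi).mpr (Eventually.of_forall fun y hy w hw => ?_)
      have h2 := den_bound (w := w) hy
      have h3 := hball w hw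
      have h4 : (y : ℂ) + w ≠ 0 := by
        intro h0; rw [h0, norm_zero] at h2; linarith
      have h5 : HasDerivAt (fun w : ℂ => (y : ℂ) + w) 1 w := by
        simpa using (hasDerivAt_id w).const_add (y : ℂ)
      refine ((hasDerivAt_const w (cexp (-(y : ℂ)^2))).fun_div h5 h4).congr_deriv ?_
      ring)
  exact key.2.differentiableAt

end MP9788a7
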