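import Pool.Agent.Lib_MP_9788a7_an.Cauchy
import Pool.Agent.Lib_MP_9788a7_an.Approx

open MeasureTheory Set Metric Filter Topology Complex
open scoped Real

namespace MP9788a7

lemma re_sq {z : ℂ} (hz : z ≠ 1) :
    ((W z) ^ 2).re * ‖1 - z‖ ^ 4 = (1 - ‖z‖ ^ 2) ^ 2 - 4 * z.im ^ 2 := by
  have h : normSq (1 - z) ≠ 0 := by rw [Ne, normSq_eq_zero]; exact one_sub_ne hz
  have h4 : ‖1 - z‖ ^ 4 = (normSq (1 - z)) ^ 2 := by rw [normSq_eq_norm_sq]; ring
  rw [h4, ← normSq_eq_norm_sq, sq (W z), mul_re, W_re, W_im]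
  field_simp
  ring

lemma sum_eq {z : ℂ} (hz : z ≠ 1) :
    ((W z).re + |(W z).im| - 1) * ‖1 - z‖ ^ 2 = 2 * (z.re + |z.im| - ‖z‖ ^ 2) := by
  have h : 0 < normSq (1 - z) := normSq_pos.mpr (one_sub_ne hz)
  have h1 : |(W z).im| = 2 * |z.im| / normSq (1 - z) := by
    rw [W_im, abs_div, abs_mul, abs_of_pos h]; norm_num
  rw [h1, W_re, ← normSq_eq_norm_sq, ← normSq_eq_norm_sq]
  field_simp
  simp only [normSq_apply, sub_re, sub_im, one_re, one_im]
  ring

/-- product of a continuous function vanishing at `1` with a bounded function -/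
lemma cwa_one {D : Set ℂ} {k b : ℂ → ℂ} (hk : ContinuousAt k 1) (hk1 : k 1 = 0)
    (hb : ∀ z ∈ D, z ≠ 1 → ‖b z‖ ≤ 1) : ContinuousWithinAt (fun z => k z * b z) D 1 := by
  rw [ContinuousWithinAt]
  have h0 : k 1 * b 1 = 0 := by rw [hk1, zero_mul]
  rw [h0, tendsto_zero_iff_norm_tendsto_zero]
  have h1 : Tendsto (fun z => ‖k z‖) (𝓝[D] 1) (𝓝 0) := by
    have := (hk.tendsto.norm).mono_left (nhdsWithin_le_nhds (s := D))
    rwa [hk1, norm_zero] at this
  refine squeeze_zero' (Eventually.of_forall fun _ => norm_nonneg _) ?_ h1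
  filter_upwards [self_mem_nhdsWithin] with z hz
  by_cases h : z = 1
  · rw [h, norm_mul, hk1, norm_zero, zero_mul]
  · rw [norm_mul]
    exact mul_le_of_le_one_right (norm_nonneg _) (hb z hz h)

/-- the first test region -/
def Om2 : Set ℂ := {z | ‖z‖ < 1 ∧ ‖1 - z‖ ^ 4 < (1 - ‖z‖ ^ 2) ^ 2 - 4 * z.im ^ 2}

lemma cont_a : Continuous fun z : ℂ => ‖1 - z‖ ^ 4 := by fun_prop

lemma cont_b : Continuous fun z : ℂ => (1 - ‖z‖ ^ 2) ^ 2 - 4 * z.im ^ 2 :=
  ((continuous_const.sub (continuous_norm.pow 2)).pow 2).sub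
    (continuous_const.mul (continuous_im.pow 2))

lemma isOpen_Om2 : IsOpen Om2 :=
  (isOpen_lt continuous_norm continuous_const).inter (isOpen_lt cont_a cont_b)

lemma closure_Om2 {z : ℂ} (hz : z ∈ closure Om2) :
    ‖z‖ ≤ 1 ∧ ‖1 - z‖ ^ 4 ≤ (1 - ‖z‖ ^ 2) ^ 2 - 4 * z.im ^ 2 := by
  have h1 : IsClosed {z : ℂ | ‖z‖ ≤ 1 ∧ ‖1 - z‖ ^ 4 ≤ (1 - ‖z‖ ^ 2) ^ 2 - 4 * z.im ^ 2} :=
    (isClosed_le continuous_norm continuous_const).inter (isClosed_le cont_a cont_b)
  have h2 : Om2 ⊆ {z : ℂ | ‖z‖ ≤ 1 ∧ ‖1 - z‖ ^ 4 ≤ (1 - ‖z‖ ^ 2) ^ 2 - 4 * z.im ^ 2} :=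
    fun z hz => ⟨hz.1.le, hz.2.le⟩
  exact closure_minimal h2 h1 hz

lemma closure_Om2' {z : ℂ} (hz : z ∈ closure Om2) (h1 : z ≠ 1) :
    0 < (W z).re ∧ 1 ≤ ((W z) ^ 2).re := by
  obtain ⟨h2, h3⟩ := closure_Om2 hz
  have hN : 0 < ‖1 - z‖ := norm_pos_one_sub h1
  have hN4 : 0 < ‖1 - z‖ ^ 4 := by positivity
  have h4 : ‖z‖ < 1 := by
    rcases eq_or_lt_of_le h2 with h | h
    · exfalso
      rw [h] at h3
      nlinarith [sq_nonneg z.im]
    · exact h
  refine ⟨?_, ?_⟩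
  · rw [W_re]
    refine div_pos ?_ (normSq_pos.mpr (one_sub_ne h1))
    rw [normSq_eq_norm_sq]
    nlinarith [norm_nonneg z]
  · have h5 := re_sq h1
    rw [← h5] at h3
    exact le_of_mul_le_mul_right (by linarith) hN4

lemma frontier_Om2 {z : ℂ} (hz : z ∈ frontier Om2) (h1 : z ≠ 1) :
    0 < (W z).re ∧ ((W z) ^ 2).re = 1 := by
  rw [isOpen_Om2.frontier_eq] at hz
  obtain ⟨h2, h3⟩ := closure_Om2' hz.1 h1
  refine ⟨h2, le_antisymm ?_ h3⟩
  by_contra hc
  rw [not_le] at hc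
  apply hz.2
  have hN : 0 < ‖1 - z‖ := norm_pos_one_sub h1
  have hN4 : 0 < ‖1 - z‖ ^ 4 := by positivity
  refine ⟨?_, ?_⟩
  · rw [W_re, div_pos_iff] at h2
    have h5 : 0 < normSq (1 - z) := normSq_pos.mpr (one_sub_ne h1)
    rcases h2 with h | h
    · rw [normSq_eq_norm_sq] at h
      nlinarith [norm_nonneg z, h.1]
    · linarith [h.2]
  · rw [← re_sq h1]
    nlinarith

lemma Om2_bdd : Bornology.IsBounded Om2 :=
  isBounded_ball.subset fun z (hz : z ∈ Om2) => mem_ball_zero_iff.mpr hz.1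

section

variable {p q : Polynomial ℂ} {η : ℝ}

lemma hA' (hA : ∀ z ∈ ball I (√2),
    ‖theta z * (p.eval z + q.eval z * uF (W z)) - 1‖ * (√2 - ‖z - I‖) ≤ η) {z : ℂ} (hz : z ≠ 1)
    (ha : 0 < (W z).re + (W z).im) :
    ‖theta z * (p.eval z + q.eval z * uF (W z)) - 1‖ *
      (((W z).re + (W z).im) * ‖1 - z‖ ^ 2) ≤ 3 * η := by
  have hm : z ∈ ball I (√2) := (mem_A_iff hz).mpr ha
  have h1 := hA z hm
  have h2 := dist_A hm
  have h3 := norm_nonneg (theta z * (p.eval z + q.eval z * uF (W z)) - 1)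
  calc _ ≤ ‖theta z * (p.eval z + q.eval z * uF (W z)) - 1‖ * (3 * (√2 - ‖z - I‖)) := by gcongr
    _ ≤ 3 * η := by linarith

lemma hB' (hB : ∀ z ∈ ball (-I) (√2),
    ‖theta z * (p.eval z + q.eval z * vF (W z)) - 1‖ * (√2 - ‖z - (-I)‖) ≤ η) {z : ℂ} (hz : z ≠ 1)
    (ha : 0 < (W z).re - (W z).im) :
    ‖theta z * (p.eval z + q.eval z * vF (W z)) - 1‖ *
      (((W z).re - (W z).im) * ‖1 - z‖ ^ 2) ≤ 3 * η := by
  have hm : z ∈ ball (-I) (√2) := (mem_B_iff hz).mpr ha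
  have h1 := hB z hm
  have h2 := dist_B hm
  have h3 := norm_nonneg (theta z * (p.eval z + q.eval z * vF (W z)) - 1)
  calc _ ≤ ‖theta z * (p.eval z + q.eval z * vF (W z)) - 1‖ * (3 * (√2 - ‖z - (-I)‖)) := by gcongr
    _ ≤ 3 * η := by linarith

lemma diff_bound (hA : ∀ z ∈ ball I (√2),
    ‖theta z * (p.eval z + q.eval z * uF (W z)) - 1‖ * (√2 - ‖z - I‖) ≤ η)
    (hB : ∀ z ∈ ball (-I) (√2),
    ‖theta z * (p.eval z + q.eval z * vF (W z)) - 1‖ * (√2 - ‖z - (-I)‖) ≤ η) {z : ℂ} (hz : z ≠ 1)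
    (ha : 0 < (W z).re + (W z).im) (hb : 0 < (W z).re - (W z).im) :
    ‖theta z * q.eval z‖ * ‖cexp (-(W z) ^ 2)‖ * ‖1 - z‖ ^ 2 * ((W z) ^ 2).re ≤
      6 * η * (W z).re := by
  have h1 := hA' hA hz ha
  have h2 := hB' hB hz hb
  set X := ‖theta z * (p.eval z + q.eval z * uF (W z)) - 1‖ with hX
  set Y := ‖theta z * (p.eval z + q.eval z * vF (W z)) - 1‖ with hY
  have h3 : ‖theta z * q.eval z‖ * ‖cexp (-(W z) ^ 2)‖ ≤ X + Y := by
    rw [← norm_mul, ← uF_add]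
    have : theta z * q.eval z * (uF (W z) - vF (W z)) =
        (theta z * (p.eval z + q.eval z * uF (W z)) - 1) -
        (theta z * (p.eval z + q.eval z * vF (W z)) - 1) := by ring
    rw [this]
    exact norm_sub_le _ _
  have h4 : ((W z) ^ 2).re = ((W z).re + (W z).im) * ((W z).re - (W z).im) := by
    rw [sq, mul_re]; ring
  set a := (W z).re + (W z).im with ha'
  set b := (W z).re - (W z).im with hb'
  have h5 : (W z).re = (a + b) / 2 := by rw [ha', hb']; ring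
  have hN : 0 ≤ ‖1 - z‖ ^ 2 := by positivity
  rw [h4, h5]
  calc ‖theta z * q.eval z‖ * ‖cexp (-(W z) ^ 2)‖ * ‖1 - z‖ ^ 2 * (a * b)
      ≤ (X + Y) * ‖1 - z‖ ^ 2 * (a * b) := by gcongr
    _ = (X * (a * ‖1 - z‖ ^ 2)) * b + (Y * (b * ‖1 - z‖ ^ 2)) * a := by ring
    _ ≤ (3 * η) * b + (3 * η) * a := by gcongr
    _ = 6 * η * ((a + b) / 2) := by ring

/-- Bound for `q theta` inside the lens. -/
lemma bound_Om2 (hη : 0 ≤ η) (hA : ∀ z ∈ ball I (√2),
    ‖theta z * (p.eval z + q.eval z * uF (W z)) - 1‖ * (√2 - ‖z - I‖) ≤ η)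
    (hB : ∀ z ∈ ball (-I) (√2),
    ‖theta z * (p.eval z + q.eval z * vF (W z)) - 1‖ * (√2 - ‖z - (-I)‖) ≤ η) {z : ℂ}
    (hz : z ∈ closure Om2) : ‖(q.eval z * ((1 - z) / 2) ^ 3) * theta z‖ ≤ 6 * η := by
  refine Complex.norm_le_of_forall_mem_frontier_norm_le
    (f := fun z => (q.eval z * ((1 - z) / 2) ^ 3) * theta z) Om2_bdd ?_ ?_ hz
  · have hcl : ∀ z ∈ closure Om2, z ≠ 1 → DifferentiableAt ℂ theta z := by
      intro z hz h1
      have := (closure_Om2' hz h1).1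
      exact differentiableAt_theta h1 (by linarith [abs_nonneg (W z).im])
    refine ⟨fun z hz => ?_, fun z hz => ?_⟩
    · have h1 : z ≠ 1 := by
        rintro rfl
        have := hz.1
        simp at this
      exact (DifferentiableAt.mul (by fun_prop) (hcl z (subset_closure hz) h1)).differentiableWithinAt
    · by_cases h1 : z = 1
      · subst h1
        refine cwa_one (Continuous.continuousAt (by fun_prop)) (by simp) fun z hz h1 => ?_
        have := (closure_Om2' hz h1).1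
        exact norm_theta_le (by linarith [abs_nonneg (W z).im])
      · exact (ContinuousAt.mul (Continuous.continuousAt (by fun_prop))
          (hcl z hz h1).continuousAt).continuousWithinAt
  · intro z hz
    by_cases h1 : z = 1
    · subst h1; simp; positivity
    · obtain ⟨h2, h3⟩ := frontier_Om2 hz h1
      have hN := norm_pos_one_sub h1
      have h4 : ((W z) ^ 2).re = ((W z).re + (W z).im) * ((W z).re - (W z).im) := by
        rw [sq, mul_re]; ring
      rw [h4] at h3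
      have hab : 0 < (W z).re + (W z).im ∧ 0 < (W z).re - (W z).im := by
        constructor <;> nlinarith
      have h5 := diff_bound hA hB h1 hab.1 hab.2
      rw [h4, h3, mul_one] at h5
      have h6 : ‖cexp (-(W z) ^ 2)‖ = Real.exp (-1) := by
        rw [norm_exp]; congr 1
        rw [neg_re, h4, h3]
      rw [h6] at h5
      have h7 : (W z).re * ‖1 - z‖ ≤ 2 := by
        have e1 : (W z).re ≤ ‖W z‖ := re_le_norm _
        have e2 : ‖W z‖ * ‖1 - z‖ = ‖1 + z‖ := by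
          rw [W, norm_div, div_mul_cancel₀ _ hN.ne']
        have e3 : ‖1 + z‖ ≤ 2 := by
          have := (closure_Om2 (frontier_subset_closure hz)).1
          refine (norm_add_le _ _).trans ?_
          rw [norm_one]; linarith
        calc (W z).re * ‖1 - z‖ ≤ ‖W z‖ * ‖1 - z‖ := by gcongr
          _ ≤ 2 := by rw [e2]; exact e3
      have h8 : ‖(q.eval z * ((1 - z) / 2) ^ 3) * theta z‖ =
          ‖theta z * q.eval z‖ * ‖1 - z‖ ^ 3 / 8 := by
        rw [norm_mul, norm_mul, norm_mul, norm_pow, norm_div, Complex.norm_ofNat]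
        ring
      rw [h8]
      have h9 : ‖theta z * q.eval z‖ * ‖1 - z‖ ^ 2 ≤ 6 * η * (W z).re * 3 := by
        have e1 : Real.exp (-1) * 3 ≥ 1 := by
          rw [Real.exp_neg, ge_iff_le, ← div_eq_inv_mul, le_div_iff₀ (Real.exp_pos 1), one_mul]
          exact (Real.exp_one_lt_d9.trans (by norm_num)).le
        have e2 : 0 ≤ ‖theta z * q.eval z‖ * ‖1 - z‖ ^ 2 := by positivity
        calc ‖theta z * q.eval z‖ * ‖1 - z‖ ^ 2
            ≤ ‖theta z * q.eval z‖ * ‖1 - z‖ ^ 2 * (Real.exp (-1) * 3) := by nlinarith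
          _ = (‖theta z * q.eval z‖ * Real.exp (-1) * ‖1 - z‖ ^ 2) * 3 := by ring
          _ ≤ _ := by gcongr
      calc ‖theta z * q.eval z‖ * ‖1 - z‖ ^ 3 / 8
          = (‖theta z * q.eval z‖ * ‖1 - z‖ ^ 2) * ‖1 - z‖ / 8 := by ring
        _ ≤ (6 * η * (W z).re * 3) * ‖1 - z‖ / 8 := by gcongr
        _ = (9/4) * η * ((W z).re * ‖1 - z‖) := by ring
        _ ≤ (9/4) * η * 2 := by gcongr
        _ ≤ 6 * η := by nlinarith

lemma zz_eq (y : ℝ) : zz y = zh (y : ℂ) := rfl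

lemma ycast_ne {y : ℝ} (hy : 0 < y) : (y : ℂ) + 1 ≠ 0 := by
  intro h
  have h1 := congrArg Complex.re h
  simp at h1
  linarith

lemma W_zz {y : ℝ} (hy : 0 < y) : W (zz y) = y := W_inv (ycast_ne hy)

lemma zz_ne_one {y : ℝ} (hy : 0 < y) : zz y ≠ 1 := inv_ne_one (ycast_ne hy)

lemma one_sub_zz {y : ℝ} (hy : 0 < y) : ‖1 - zz y‖ = 2 / (y + 1) := by
  have : 1 - zz y = 2 / ((y : ℂ) + 1) := one_sub_inv (ycast_ne hy)
  rw [this, norm_div, Complex.norm_ofNat, ← ofReal_one, ← ofReal_add, norm_real, Real.norm_eq_abs,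
    abs_of_pos (by linarith)]

lemma one_add_zz {y : ℝ} (hy : 0 < y) : ‖1 + zz y‖ = 2 * y / (y + 1) := by
  have h1 : ‖W (zz y)‖ * ‖1 - zz y‖ = ‖1 + zz y‖ := by
    rw [W, norm_div, div_mul_cancel₀ _ (norm_pos_one_sub (zz_ne_one hy)).ne']
  rw [← h1, W_zz hy, one_sub_zz hy, norm_real, Real.norm_eq_abs, abs_of_pos hy]
  ring

lemma pow_real {y : ℝ} (hy : 0 < y) : (((y : ℂ)) ^ e23).re ≤ 1 + y := by
  rw [e23, ← ofReal_cpow hy.le, ofReal_re]
  rcases le_total y 1 with h | h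
  · have := Real.rpow_le_one hy.le h (by norm_num : (0:ℝ) ≤ 2/3)
    linarith
  · have := Real.rpow_le_rpow_of_exponent_le h (by norm_num : (2/3 : ℝ) ≤ 1)
    rw [Real.rpow_one] at this
    linarith

/-- constant -/
noncomputable def C1 : ℝ := 72 * Real.exp 3

lemma J_bound (hη : 0 ≤ η) (hA : ∀ z ∈ ball I (√2),
    ‖theta z * (p.eval z + q.eval z * uF (W z)) - 1‖ * (√2 - ‖z - I‖) ≤ η)
    (hB : ∀ z ∈ ball (-I) (√2),
    ‖theta z * (p.eval z + q.eval z * vF (W z)) - 1‖ * (√2 - ‖z - (-I)‖) ≤ η) {y : ℝ}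
    (hy : 0 < y) :
    ‖((1 + Polynomial.X) * q).eval (zz y) * cexp (-(y : ℂ) ^ 2)‖ ≤
      η * C1 * Real.exp (-1 * (y - 1) ^ 2) := by
  have hz1 := zz_ne_one hy
  have hW := W_zz hy
  have hth : ‖theta (zz y)‖ = Real.exp (-(((y : ℂ)) ^ e23).re) := by rw [norm_theta, hW]
  have hq : ‖((1 + Polynomial.X) * q).eval (zz y) * cexp (-(y : ℂ) ^ 2)‖ =
      (2 * y / (y + 1)) * (‖theta (zz y) * q.eval (zz y)‖ * Real.exp (((y : ℂ) ^ e23).re)) *
        Real.exp (-1 * y ^ 2) := by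
    rw [norm_mul, norm_gauss, Polynomial.eval_mul, norm_mul, Polynomial.eval_add,
      Polynomial.eval_one, Polynomial.eval_X, one_add_zz hy, norm_mul, hth, Real.exp_neg]
    have := (Real.exp_pos ((y : ℂ) ^ e23).re).ne'
    field_simp
  rw [hq]
  have hpr := pow_real hy
  have hexp : Real.exp (((y : ℂ) ^ e23).re) ≤ Real.exp (1 + y) := Real.exp_le_exp.mpr hpr
  have hy1 : 0 < y + 1 := by linarith
  rcases le_or_gt y 1 with h | h
  · -- near the other vertex
    have h1 := diff_bound hA hB hz1 (by rw [hW]; simpa using hy) (by rw [hW]; simpa using hy)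
    rw [hW, one_sub_zz hy] at h1
    have h2 : (((y : ℂ)) ^ 2).re = y ^ 2 := by rw [← ofReal_pow, ofReal_re]
    rw [h2, ofReal_re, norm_gauss] at h1
    set T := ‖theta (zz y) * q.eval (zz y)‖ with hT
    have hT0 : 0 ≤ T := norm_nonneg _
    have h3 : T * Real.exp (-1 * y ^ 2) * (2 * y / (y + 1)) ≤ 6 * η := by
      have e1 : T * Real.exp (-1 * y ^ 2) * (2 / (y + 1)) ^ 2 * y ^ 2 =
          (T * Real.exp (-1 * y ^ 2) * (2 * y / (y + 1))) * (2 * y / (y + 1)) := by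
        field_simp
      rw [e1] at h1
      have e2 : y ≤ 2 * y / (y + 1) := by
        rw [le_div_iff₀ hy1]; nlinarith
      have e3 : 0 ≤ T * Real.exp (-1 * y ^ 2) * (2 * y / (y + 1)) := by positivity
      have e4 : (T * Real.exp (-1 * y ^ 2) * (2 * y / (y + 1))) * y ≤ 6 * η * y :=
        (mul_le_mul_of_nonneg_left e2 e3).trans h1
      exact le_of_mul_le_mul_right e4 hy
    calc (2 * y / (y + 1)) * (T * Real.exp (((y : ℂ) ^ e23).re)) * Real.exp (-1 * y ^ 2)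
        = (T * Real.exp (-1 * y ^ 2) * (2 * y / (y + 1))) * Real.exp (((y : ℂ) ^ e23).re) := by ring
      _ ≤ 6 * η * Real.exp (1 + y) := by gcongr
      _ ≤ 6 * η * Real.exp 2 := by gcongr; linarith
      _ ≤ η * (72 * Real.exp 3 * Real.exp (-1 * (y - 1) ^ 2)) := by
          have e1 : Real.exp 2 ≤ Real.exp 3 * Real.exp (-1 * (y - 1) ^ 2) := by
            rw [← Real.exp_add]
            refine Real.exp_le_exp.mpr ?_
            nlinarith
          have e2 : 0 < Real.exp 2 := Real.exp_pos 2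
          nlinarith
      _ = _ := by rw [C1]; ring
  · -- near the vertex 1
    have hmem : zz y ∈ Om2 := by
      refine ⟨?_, ?_⟩
      · rw [zz, norm_div, ← ofReal_one, ← ofReal_sub, ← ofReal_add, norm_real, norm_real,
          Real.norm_eq_abs, Real.norm_eq_abs, abs_of_pos hy1, abs_of_pos (by linarith),
          div_lt_one hy1]
        linarith
      · rw [← re_sq hz1, hW, ← ofReal_pow, ofReal_re]
        have hN : 0 < ‖1 - zz y‖ ^ 4 := by have := norm_pos_one_sub hz1; positivity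
        exact (lt_mul_iff_one_lt_left hN).mpr (by nlinarith)
    have h1 := bound_Om2 hη hA hB (subset_closure hmem)
    have h2 : ‖(q.eval (zz y) * ((1 - zz y) / 2) ^ 3) * theta (zz y)‖ =
        ‖theta (zz y) * q.eval (zz y)‖ * (1 / (y + 1)) ^ 3 := by
      rw [norm_mul, norm_mul, norm_mul, norm_pow, norm_div, Complex.norm_ofNat, one_sub_zz hy]
      field_simp
    rw [h2] at h1
    set T := ‖theta (zz y) * q.eval (zz y)‖ with hT
    have hT0 : 0 ≤ T := norm_nonneg _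
    have h3 : T ≤ 6 * η * (y + 1) ^ 3 := by
      rw [one_div, inv_pow, ← div_eq_mul_inv, div_le_iff₀ (by positivity)] at h1
      exact h1
    have h4 : (y + 1) ^ 3 ≤ 6 * Real.exp (y + 1) := by
      have := Real.pow_div_factorial_le_exp (y + 1) hy1.le 3
      have e : ((Nat.factorial 3 : ℕ) : ℝ) = 6 := by norm_num [Nat.factorial]
      rw [e, div_le_iff₀ (by norm_num)] at this
      linarith
    have h5 : 2 * y / (y + 1) ≤ 2 := by rw [div_le_iff₀ hy1]; linarith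
    calc (2 * y / (y + 1)) * (T * Real.exp (((y : ℂ) ^ e23).re)) * Real.exp (-1 * y ^ 2)
        ≤ 2 * ((6 * η * (6 * Real.exp (y + 1))) * Real.exp (1 + y)) * Real.exp (-1 * y ^ 2) := by
          gcongr
          exact h3.trans (by gcongr)
      _ = 72 * η * (Real.exp (y + 1) * Real.exp (1 + y) * Real.exp (-1 * y ^ 2)) := by ring
      _ = 72 * η * (Real.exp 3 * Real.exp (-1 * (y - 1) ^ 2)) := by
          rw [← Real.exp_add, ← Real.exp_add, ← Real.exp_add]
          congr 2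
          ring
      _ = _ := by rw [C1]; ring

lemma H_bound (hη : 0 ≤ η) (hA : ∀ z ∈ ball I (√2),
    ‖theta z * (p.eval z + q.eval z * uF (W z)) - 1‖ * (√2 - ‖z - I‖) ≤ η)
    (hB : ∀ z ∈ ball (-I) (√2),
    ‖theta z * (p.eval z + q.eval z * vF (W z)) - 1‖ * (√2 - ‖z - (-I)‖) ≤ η) {w : ℂ}
    (hw : w.im ≠ 0) :
    ‖Hq ((1 + Polynomial.X) * q) w‖ * |w.im| ≤ η * C1 := by
  have hpi := Real.pi_gt_three
  have h4 : ‖(2 * (π : ℂ) * I)⁻¹‖ = (2 * π)⁻¹ := by
    rw [norm_inv, norm_mul, norm_mul, norm_I, mul_one, norm_real,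
      Real.norm_eq_abs, abs_of_pos Real.pi_pos]
    simp
  have hi : Integrable (fun y : ℝ => Real.exp (-1 * (y - 1) ^ 2)) :=
    (integrable_exp_neg_mul_sq one_pos).comp_sub_right 1
  have hI : ∫ y : ℝ, Real.exp (-1 * (y - 1) ^ 2) = √π := by
    rw [integral_sub_right_eq_self (fun y : ℝ => Real.exp (-1 * y ^ 2)), integral_gaussian, div_one]
  have h1 : ‖∫ y in Ioi (0 : ℝ), ((1 + Polynomial.X) * q).eval (zz y) * cexp (-(y : ℂ)^2) /
      ((y : ℂ) - w)‖ ≤ ∫ y in Ioi (0 : ℝ), (η * C1 * |w.im|⁻¹) * Real.exp (-1 * (y - 1) ^ 2) := by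
    refine norm_integral_le_of_norm_le (hi.const_mul _).integrableOn ?_
    refine (ae_restrict_iff' measurableSet_Ioi).mpr (Eventually.of_forall fun y hy => ?_)
    rw [div_eq_mul_inv, norm_mul]
    calc _ ≤ (η * C1 * Real.exp (-1 * (y - 1) ^ 2)) * |w.im|⁻¹ :=
          mul_le_mul (J_bound hη hA hB hy) (inv_bound hw y) (norm_nonneg _)
            (by rw [C1]; positivity)
      _ = _ := by ring
  have h2 : ∫ y in Ioi (0 : ℝ), (η * C1 * |w.im|⁻¹) * Real.exp (-1 * (y - 1) ^ 2) ≤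
      (η * C1 * |w.im|⁻¹) * √π := by
    rw [integral_const_mul, ← hI]
    refine mul_le_mul_of_nonneg_left ?_ (by rw [C1]; positivity)
    exact setIntegral_le_integral hi (Eventually.of_forall fun y => (Real.exp_pos _).le)
  have h5 : √π ≤ π := by
    rw [Real.sqrt_le_left Real.pi_pos.le]; nlinarith
  have hw0 : 0 < |w.im| := abs_pos.mpr hw
  have hC : 0 ≤ η * C1 := by rw [C1]; positivity
  rw [Hq, norm_mul, h4]
  calc (2 * π)⁻¹ * _ * |w.im| ≤ (2 * π)⁻¹ * ((η * C1 * |w.im|⁻¹) * π) * |w.im| := by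
        gcongr
        refine (h1.trans h2).trans ?_
        gcongr
    _ = η * C1 / 2 := by
        have : 0 < π := Real.pi_pos
        field_simp
    _ ≤ η * C1 := by linarith

end

end MP9788a7
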