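import Pool.Agent.Lib_MP_9788a7_an.Core

open MeasureTheory Set Metric Filter Topology Complex
open scoped Real

namespace MP9788a7

/-- the second test region -/
def Om1 : Set ℂ := {z | ‖z‖ ^ 2 < z.re + |z.im|}

lemma cont_c : Continuous fun z : ℂ => z.re + |z.im| :=
  continuous_re.add continuous_im.abs

lemma isOpen_Om1 : IsOpen Om1 := isOpen_lt (continuous_norm.pow 2) cont_c

lemma closure_Om1 {z : ℂ} (hz : z ∈ closure Om1) : ‖z‖ ^ 2 ≤ z.re + |z.im| := by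
  have h1 : IsClosed {z : ℂ | ‖z‖ ^ 2 ≤ z.re + |z.im|} := isClosed_le (continuous_norm.pow 2) cont_c
  have h2 : Om1 ⊆ {z : ℂ | ‖z‖ ^ 2 ≤ z.re + |z.im|} := fun z (hz : ‖z‖ ^ 2 < z.re + |z.im|) => hz.le
  exact closure_minimal h2 h1 hz

lemma frontier_Om1 {z : ℂ} (hz : z ∈ frontier Om1) : ‖z‖ ^ 2 = z.re + |z.im| := by
  rw [isOpen_Om1.frontier_eq] at hz
  refine le_antisymm (closure_Om1 hz.1) ?_
  by_contra hc
  exact hz.2 (not_le.mp hc)

lemma norm_le_Om1 {z : ℂ} (hz : z ∈ closure Om1) : ‖z‖ ≤ 3 / 2 := by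
  have h1 := closure_Om1 hz
  have h2 : ‖z‖ ^ 2 = z.re ^ 2 + z.im ^ 2 := by
    rw [← normSq_eq_norm_sq, normSq_apply]; ring
  have h3 : |z.im| ^ 2 = z.im ^ 2 := sq_abs _
  have h4 : (z.re + |z.im|) ^ 2 ≤ 2 * ‖z‖ ^ 2 := by
    rw [h2]; nlinarith [sq_nonneg (z.re - |z.im|)]
  have h5 : 0 ≤ ‖z‖ := norm_nonneg z
  have h6 : (‖z‖ ^ 2) ^ 2 ≤ 2 * ‖z‖ ^ 2 := by
    have : (‖z‖ ^ 2) ^ 2 ≤ (z.re + |z.im|) ^ 2 := by
      apply pow_le_pow_left₀ (by positivity) h1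
    linarith
  by_contra hc
  rw [not_le] at hc
  have h7 : 9 / 4 < ‖z‖ ^ 2 := by nlinarith
  nlinarith

lemma Om1_bdd : Bornology.IsBounded Om1 :=
  isBounded_closedBall.subset fun _ hz => mem_closedBall_zero_iff.mpr (norm_le_Om1 (subset_closure hz))

lemma one_notMem_Om1 : (1 : ℂ) ∉ Om1 := by
  intro h
  have : ‖(1 : ℂ)‖ ^ 2 < (1 : ℂ).re + |(1 : ℂ).im| := h
  simp at this

lemma sum_ge_one {z : ℂ} (hz : z ∈ closure Om1) (h1 : z ≠ 1) : 1 ≤ (W z).re + |(W z).im| := by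
  have h2 := sum_eq h1
  have h3 := closure_Om1 hz
  have hN : 0 < ‖1 - z‖ ^ 2 := by have := norm_pos_one_sub h1; positivity
  by_contra hc
  rw [not_le] at hc
  have : ((W z).re + |(W z).im| - 1) * ‖1 - z‖ ^ 2 < 0 :=
    mul_neg_of_neg_of_pos (by linarith) hN
  linarith

lemma sum_eq_one {z : ℂ} (hz : z ∈ frontier Om1) (h1 : z ≠ 1) : (W z).re + |(W z).im| = 1 := by
  have h2 := sum_eq h1
  rw [frontier_Om1 hz, sub_self, mul_zero] at h2
  have hN : ‖1 - z‖ ^ 2 ≠ 0 := by have := norm_pos_one_sub h1; positivity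
  rcases mul_eq_zero.mp h2 with h | h
  · linarith
  · exact absurd h hN

lemma prod_frontier {z : ℂ} (hz : z ∈ frontier Om1) : ‖z‖ * ‖1 - z‖ ≤ (3/2) * |z.im| := by
  have h1 := frontier_Om1 hz
  have h2 : ‖z‖ ^ 2 = z.re ^ 2 + z.im ^ 2 := by
    rw [← normSq_eq_norm_sq, normSq_apply]; ring
  have h3 : ‖1 - z‖ ^ 2 = (1 - z.re) ^ 2 + z.im ^ 2 := by
    rw [← normSq_eq_norm_sq, normSq_apply]; simp; ring
  have h4 : |z.im| ^ 2 = z.im ^ 2 := sq_abs _
  have h5 : (‖z‖ * ‖1 - z‖) ^ 2 = 2 * |z.im| ^ 2 := by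
    rw [mul_pow, h3, h1]
    have h6 : z.re ^ 2 + |z.im| ^ 2 = z.re + |z.im| := by rw [h4, ← h2, h1]
    rw [← h4]
    linear_combination (z.re + |z.im|) * h6 - h6
  have h7 := abs_nonneg z.im
  by_contra hc
  rw [not_le] at hc
  have h8 : 0 ≤ ‖z‖ * ‖1 - z‖ := by positivity
  nlinarith

section

variable {p q : Polynomial ℂ} {η : ℝ}

/-- constant -/
noncomputable def KF : ℝ := 9 * Real.exp 2 + 3 * C1

lemma C1_pos : 0 < C1 := by rw [C1]; positivity

lemma KF_pos : 0 < KF := by have := C1_pos; rw [KF]; positivity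

/-- splitting of the two sheets -/
lemma exists_P (p q : Polynomial ℂ) : ∃ R : Polynomial ℂ, ∀ z : ℂ, z ≠ 1 →
    (0 < (W z).im → (1 + z) * (p.eval z + q.eval z * uF (W z)) =
      ((1 + z) * p.eval z + R.eval z + (1 + z) * q.eval z * NF (W z)) +
        Hq ((1 + Polynomial.X) * q) (W z)) ∧
    ((W z).im < 0 → (1 + z) * (p.eval z + q.eval z * vF (W z)) =
      ((1 + z) * p.eval z + R.eval z + (1 + z) * q.eval z * NF (W z)) +
        Hq ((1 + Polynomial.X) * q) (W z)) := by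
  obtain ⟨R, hR⟩ := exists_R ((1 + Polynomial.X) * q)
  refine ⟨R, fun z hz => ⟨fun h => ?_, fun h => ?_⟩⟩
  · have h1 := hR (W z) h.ne'
    have h2 : zh (W z) = z := (z_eq hz).symm
    rw [h2, Polynomial.eval_mul, Polynomial.eval_add, Polynomial.eval_one, Polynomial.eval_X] at h1
    rw [uF_split h]
    linear_combination h1
  · have h1 := hR (W z) h.ne
    have h2 : zh (W z) = z := (z_eq hz).symm
    rw [h2, Polynomial.eval_mul, Polynomial.eval_add, Polynomial.eval_one, Polynomial.eval_X] at h1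
    rw [vF_split h]
    linear_combination h1

lemma theta_inv_le {z : ℂ} (h : (W z).re + |(W z).im| = 1) : ‖theta z‖⁻¹ ≤ Real.exp 2 := by
  rw [norm_theta, ← Real.exp_neg, neg_neg]
  exact Real.exp_le_exp.mpr (re_pow_le_two h)

/-- frontier estimate -/
lemma frontier_est (_hη : 0 ≤ η) (hη1 : η ≤ 1) {z f Pz Hz : ℂ} (hz : z ∈ frontier Om1) (h1 : z ≠ 1)
    (hf : ‖f - 1‖ * ‖1 - z‖ ^ 2 ≤ 3 * η) (hH : ‖Hz‖ * |(W z).im| ≤ η * C1)
    (hi : (W z).im ≠ 0)
    (he : (1 + z) * f = theta z * (Pz + Hz)) :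
    ‖z * (Pz * ((1 - z) / 2) ^ 2)‖ ≤ KF := by
  have hN := norm_pos_one_sub h1
  have hn : ‖z‖ ≤ 3/2 := norm_le_Om1 (frontier_subset_closure hz)
  have hth := theta_inv_le (sum_eq_one hz h1)
  have hth0 : 0 < ‖theta z‖ := norm_pos_iff.mpr (theta_ne_zero z)
  have h2 : ‖1 + z‖ ≤ 5/2 := by
    refine (norm_add_le _ _).trans ?_
    rw [norm_one]; linarith
  have h3 : ‖1 - z‖ ≤ 5/2 := by
    refine (norm_sub_le _ _).trans ?_
    rw [norm_one]; linarith
  have hf1 : ‖f‖ * ‖1 - z‖ ^ 2 ≤ ‖1 - z‖ ^ 2 + 3 := by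
    have e1 : ‖f‖ ≤ ‖f - 1‖ + 1 := by
      have := norm_add_le (f - 1) 1
      rwa [sub_add_cancel, norm_one] at this
    nlinarith [sq_nonneg ‖1 - z‖]
  have hP : ‖Pz‖ ≤ ‖1 + z‖ * ‖f‖ * Real.exp 2 + ‖Hz‖ := by
    have e1 : Pz = (1 + z) * f * (theta z)⁻¹ - Hz := by
      rw [he]
      field_simp [theta_ne_zero z]
      ring
    rw [e1]
    refine (norm_sub_le _ _).trans ?_
    rw [norm_mul, norm_mul, norm_inv]
    gcongr
  -- imaginary part
  have hyim : |(W z).im| * ‖1 - z‖ ^ 2 = 2 * |z.im| := by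
    have h5 : normSq (1 - z) ≠ 0 := by rw [Ne, normSq_eq_zero]; exact one_sub_ne h1
    rw [W_im, ← normSq_eq_norm_sq, abs_div, abs_mul, abs_of_nonneg (normSq_nonneg _),
      div_mul_cancel₀ _ h5]
    norm_num
  have hprod := prod_frontier hz
  have hw0 : 0 < |(W z).im| := abs_pos.mpr hi
  have hHz : ‖z‖ * ‖1 - z‖ ^ 2 * ‖Hz‖ ≤ 12 * C1 := by
    have e1 : ‖z‖ * ‖1 - z‖ ≤ (3/4) * (|(W z).im| * ‖1 - z‖ ^ 2) := by rw [hyim]; linarith
    have e2 : ‖z‖ * ‖1 - z‖ ^ 2 * ‖Hz‖ ≤ (3/4) * ‖1 - z‖ ^ 3 * (‖Hz‖ * |(W z).im|) := by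
      calc ‖z‖ * ‖1 - z‖ ^ 2 * ‖Hz‖ = (‖z‖ * ‖1 - z‖) * (‖1 - z‖ * ‖Hz‖) := by ring
        _ ≤ ((3/4) * (|(W z).im| * ‖1 - z‖ ^ 2)) * (‖1 - z‖ * ‖Hz‖) := by gcongr
        _ = _ := by ring
    have e3 : ‖1 - z‖ ^ 3 ≤ 16 := by
      calc ‖1 - z‖ ^ 3 ≤ (5/2) ^ 3 := by gcongr
        _ ≤ 16 := by norm_num
    have hC := C1_pos
    calc _ ≤ (3/4) * ‖1 - z‖ ^ 3 * (‖Hz‖ * |(W z).im|) := e2
      _ ≤ (3/4) * 16 * (η * C1) := by gcongr
      _ ≤ (3/4) * 16 * (1 * C1) := by gcongr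
      _ = 12 * C1 := by ring
  rw [norm_mul, norm_mul, norm_pow, norm_div, Complex.norm_ofNat]
  have hE : 0 < Real.exp 2 := Real.exp_pos 2
  calc ‖z‖ * (‖Pz‖ * (‖1 - z‖ / 2) ^ 2)
      ≤ ‖z‖ * ((‖1 + z‖ * ‖f‖ * Real.exp 2 + ‖Hz‖) * (‖1 - z‖ / 2) ^ 2) := by gcongr
    _ = (1/4) * (‖z‖ * ‖1 + z‖ * (‖f‖ * ‖1 - z‖ ^ 2) * Real.exp 2) +
        (1/4) * (‖z‖ * ‖1 - z‖ ^ 2 * ‖Hz‖) := by ring
    _ ≤ (1/4) * ((3/2) * (5/2) * ((5/2) ^ 2 + 3) * Real.exp 2) + (1/4) * (12 * C1) := by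
        gcongr
        exact hf1.trans (by gcongr)
    _ ≤ KF := by
        rw [KF]
        nlinarith

/-- The bound in the second region. -/
lemma bound_Om1 (hη : 0 ≤ η) (hη1 : η ≤ 1) (hA : ∀ z ∈ ball I (√2),
    ‖theta z * (p.eval z + q.eval z * uF (W z)) - 1‖ * (√2 - ‖z - I‖) ≤ η)
    (hB : ∀ z ∈ ball (-I) (√2),
    ‖theta z * (p.eval z + q.eval z * vF (W z)) - 1‖ * (√2 - ‖z - (-I)‖) ≤ η) :
    ∃ P : ℂ → ℂ, (∀ z : ℂ, z ≠ 1 → 0 < (W z).im →
      (1 + z) * (p.eval z + q.eval z * uF (W z)) = P z + Hq ((1 + Polynomial.X) * q) (W z)) ∧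
      ∀ z ∈ closure Om1, ‖z * (P z * ((1 - z) / 2) ^ 2)‖ ≤ KF := by
  obtain ⟨R, hR⟩ := exists_P p q
  refine ⟨fun z => (1 + z) * p.eval z + R.eval z + (1 + z) * q.eval z * NF (W z),
    fun z hz h => (hR z hz).1 h, fun z hz => ?_⟩
  refine Complex.norm_le_of_forall_mem_frontier_norm_le
    (f := fun z => z * (((1 + z) * p.eval z + R.eval z + (1 + z) * q.eval z * NF (W z)) *
      ((1 - z) / 2) ^ 2)) Om1_bdd ?_ ?_ hz
  · have hcl : ∀ z ∈ closure Om1, z ≠ 1 → DifferentiableAt ℂ (fun z => NF (W z)) z := by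
      intro z hz h1
      have := sum_ge_one hz h1
      exact (differentiableAt_NF (by linarith)).comp z (differentiableAt_W h1)
    have hd : ∀ z ∈ closure Om1, z ≠ 1 → DifferentiableAt ℂ (fun z => z * (((1 + z) * p.eval z +
        R.eval z + (1 + z) * q.eval z * NF (W z)) * ((1 - z) / 2) ^ 2)) z := by
      intro z hz h1
      have := hcl z hz h1
      fun_prop
    refine ⟨fun z hz => ?_, fun z hz => ?_⟩
    · have h1 : z ≠ 1 := by
        rintro rfl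
        exact one_notMem_Om1 hz
      exact (hd z (subset_closure hz) h1).differentiableWithinAt
    · by_cases h1 : z = 1
      · subst h1
        have e1 : ContinuousWithinAt (fun z => (z * (1 + z) * q.eval z * ((1 - z) / 2) ^ 2) *
            NF (W z)) (closure Om1) 1 :=
          cwa_one (Continuous.continuousAt (by fun_prop)) (by simp) fun z hz h1 =>
            norm_NF_le (sum_ge_one hz h1)
        have e2 : ContinuousWithinAt (fun z => z * (((1 + z) * p.eval z + R.eval z) *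
            ((1 - z) / 2) ^ 2)) (closure Om1) 1 :=
          (Continuous.continuousAt (by fun_prop)).continuousWithinAt
        refine (e2.add e1).congr (fun z _ => ?_) ?_
        · simp only [Pi.add_apply]; ring
        · simp only [Pi.add_apply]; ring
      · exact (hd z hz h1).continuousAt.continuousWithinAt
  · intro z hz
    by_cases h1 : z = 1
    · subst h1; simp; exact KF_pos.le
    by_cases h0 : z = 0
    · subst h0; simp; exact KF_pos.le
    have hs := sum_eq_one hz h1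
    have hi : (W z).im ≠ 0 := by
      intro h
      rw [h, abs_zero, add_zero] at hs
      have hW : W z = 1 := Complex.ext (by rw [hs, one_re]) (by rw [h, one_im])
      have := z_eq h1
      rw [hW, sub_self, zero_div] at this
      exact h0 this
    rcases lt_or_gt_of_ne hi with h | h
    · -- lower sheet
      have hb : (W z).re - (W z).im = 1 := by rw [abs_of_neg h] at hs; linarith
      have e1 := hB' hB h1 (by rw [hb]; norm_num)
      rw [hb, one_mul] at e1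
      have e2 := (hR z h1).2 h
      refine frontier_est hη hη1 hz h1 e1 (H_bound hη hA hB hi) hi ?_
      rw [← e2]; ring
    · have ha : (W z).re + (W z).im = 1 := by rw [abs_of_pos h] at hs; linarith
      have e1 := hA' hA h1 (by rw [ha]; norm_num)
      rw [ha, one_mul] at e1
      have e2 := (hR z h1).1 h
      refine frontier_est hη hη1 hz h1 e1 (H_bound hη hA hB hi) hi ?_
      rw [← e2]; ring

end

lemma tendsto_decay : Tendsto (fun x : ℝ => Real.exp (-(x ^ (2/3 : ℝ) / 2)) * (16 * KF * x ^ 2 + C1))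
    atTop (𝓝 0) := by
  have h1 : Tendsto (fun x : ℝ => x ^ (2/3 : ℝ) / 2) atTop atTop :=
    (tendsto_rpow_atTop (by norm_num)).atTop_div_const (by norm_num)
  have h2 : Tendsto (fun s : ℝ => s ^ 3 * Real.exp (-s)) atTop (𝓝 0) :=
    Real.tendsto_pow_mul_exp_neg_atTop_nhds_zero 3
  have h3 : Tendsto (fun s : ℝ => s ^ 0 * Real.exp (-s)) atTop (𝓝 0) :=
    Real.tendsto_pow_mul_exp_neg_atTop_nhds_zero 0
  have h4 := ((h2.const_mul (16 * KF * 8)).add (h3.const_mul C1)).comp h1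
  simp only [mul_zero, add_zero] at h4
  refine h4.congr' ?_
  filter_upwards [eventually_gt_atTop 0] with x hx
  simp only [Function.comp]
  have e1 : x ^ 2 = 8 * (x ^ (2/3 : ℝ) / 2) ^ 3 := by
    rw [div_pow, ← Real.rpow_natCast (x ^ (2/3 : ℝ)) 3, ← Real.rpow_mul hx.le]
    norm_num
    ring
  rw [e1]
  ring

/-- The constant pair is not in the closure: quantitative form. -/
theorem core : ∃ η : ℝ, 0 < η ∧ ∀ p q : Polynomial ℂ,
    ¬ ((∀ z ∈ ball I (√2),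
      ‖theta z * (p.eval z + q.eval z * uF (W z)) - 1‖ * (√2 - ‖z - I‖) ≤ η) ∧
      (∀ z ∈ ball (-I) (√2),
      ‖theta z * (p.eval z + q.eval z * vF (W z)) - 1‖ * (√2 - ‖z - (-I)‖) ≤ η)) := by
  -- choose the point
  have hx : Tendsto (fun R : ℝ => ‖((R : ℂ) + I)‖) atTop atTop := by
    refine tendsto_atTop_mono (fun R => ?_) tendsto_id
    have := abs_re_le_norm ((R : ℂ) + I)
    simp only [add_re, ofReal_re, I_re, add_zero] at this
    exact (le_abs_self R).trans this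
  have h1 := tendsto_decay.comp hx
  obtain ⟨R, hR1, hR3⟩ := ((h1.eventually_lt_const (show (0:ℝ) < 1/4 by norm_num)).and
    (eventually_ge_atTop 3)).exists
  simp only [Function.comp] at hR1
  set w : ℂ := (R : ℂ) + I with hw
  have hwre : w.re = R := by simp [hw]
  have hwim : w.im = 1 := by simp [hw]
  have hw1 : w + 1 ≠ 0 := by
    intro h
    have := congrArg Complex.re h
    rw [add_re, hwre, one_re, zero_re] at this
    linarith
  set z : ℂ := (w - 1) / (w + 1) with hz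
  have hWz : W z = w := W_inv hw1
  have hz1 : z ≠ 1 := inv_ne_one hw1
  have hN : ‖1 - z‖ = 2 / ‖w + 1‖ := by
    rw [hz, one_sub_inv hw1, norm_div, Complex.norm_ofNat]
  have hw1n : 0 < ‖w + 1‖ := norm_pos_iff.mpr hw1
  have hwn : 3 ≤ ‖w‖ := by
    have := abs_re_le_norm w
    rw [hwre] at this
    exact hR3.trans ((le_abs_self R).trans this)
  have hw1le : ‖w + 1‖ ≤ 2 * ‖w‖ := by
    refine (norm_add_le _ _).trans ?_
    rw [norm_one]; linarith
  have hzn : 1 / 2 ≤ ‖z‖ := by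
    rw [hz, norm_div, le_div_iff₀ hw1n]
    have e1 : ‖w + 1‖ ^ 2 ≤ 4 * ‖w - 1‖ ^ 2 := by
      rw [← normSq_eq_norm_sq, ← normSq_eq_norm_sq, normSq_apply, normSq_apply]
      simp only [add_re, sub_re, add_im, sub_im, one_re, one_im, hwre, hwim]
      nlinarith
    have e2 : 0 ≤ ‖w - 1‖ := norm_nonneg _
    nlinarith
  have hzadd : 1 ≤ ‖1 + z‖ := by
    have e1 : 1 + z = 2 * w / (w + 1) := by rw [hz]; field_simp; ring
    rw [e1, norm_div, norm_mul, Complex.norm_ofNat, le_div_iff₀ hw1n, one_mul]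
    exact hw1le
  have hmem : z ∈ Om1 := by
    have h2 := sum_eq hz1
    have hN2 : 0 < ‖1 - z‖ ^ 2 := by have := norm_pos_one_sub hz1; positivity
    have : 0 < ((W z).re + |(W z).im| - 1) * ‖1 - z‖ ^ 2 := by
      refine mul_pos ?_ hN2
      rw [hWz, hwre, hwim, abs_one]; linarith
    show ‖z‖ ^ 2 < z.re + |z.im|
    linarith
  set η : ℝ := min 1 (‖1 - z‖ ^ 2 / 6) with hη
  have hη0 : 0 < η := lt_min one_pos (by have := norm_pos_one_sub hz1; positivity)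
  have hη1 : η ≤ 1 := min_le_left _ _
  have hη2 : η ≤ ‖1 - z‖ ^ 2 / 6 := min_le_right _ _
  refine ⟨η, hη0, fun p q => ?_⟩
  rintro ⟨hA, hB⟩
  obtain ⟨P, hP1, hP2⟩ := bound_Om1 hη0.le hη1 hA hB
  have e1 := hP1 z hz1 (by rw [hWz, hwim]; exact one_pos)
  have e2 := hP2 z (subset_closure hmem)
  have e3 := hA' hA hz1 (by rw [hWz, hwre, hwim]; linarith)
  have e4 := H_bound hη0.le hA hB (w := w) (by rw [hwim]; exact one_ne_zero)
  rw [hwim, abs_one, mul_one] at e4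
  rw [hWz] at e1
  set f := theta z * (p.eval z + q.eval z * uF (W z)) with hf
  set Hz := Hq ((1 + Polynomial.X) * q) w with hHz
  have hN2 : 0 < ‖1 - z‖ ^ 2 := by have := norm_pos_one_sub hz1; positivity
  -- f is near one
  have hf1 : 1 / 2 ≤ ‖f‖ := by
    have g1 : ‖f - 1‖ * ‖1 - z‖ ^ 2 ≤ 3 * η := by
      refine le_trans ?_ e3
      gcongr
      rw [hWz, hwre, hwim]
      nlinarith
    have g2 : ‖f - 1‖ ≤ 1 / 2 := by
      have : ‖f - 1‖ * ‖1 - z‖ ^ 2 ≤ (1/2) * ‖1 - z‖ ^ 2 := by linarith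
      exact le_of_mul_le_mul_right this hN2
    have g3 : ‖(1 : ℂ)‖ ≤ ‖f‖ + ‖f - 1‖ := by
      have := norm_sub_le f (f - 1)
      rwa [sub_sub_cancel] at this
    rw [norm_one] at g3
    linarith
  -- P bound
  have hPb : ‖P z‖ ≤ 8 * KF * ‖w‖ ^ 2 * 1 := by
    have hN' : ‖(1 - z) / 2‖ = 2 / ‖w + 1‖ / 2 := by
      rw [norm_div, Complex.norm_ofNat, hN]
    rw [norm_mul z, norm_mul (P z), norm_pow, hN'] at e2
    have g1 : ‖P z‖ / ‖w + 1‖ ^ 2 ≤ 2 * KF := by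
      have : ‖z‖ * (‖P z‖ * (2 / ‖w + 1‖ / 2) ^ 2) = ‖z‖ * (‖P z‖ / ‖w + 1‖ ^ 2) := by
        field_simp
      rw [this] at e2
      have g2 : 0 ≤ ‖P z‖ / ‖w + 1‖ ^ 2 := by positivity
      nlinarith
    rw [div_le_iff₀ (by positivity)] at g1
    calc ‖P z‖ ≤ 2 * KF * ‖w + 1‖ ^ 2 := g1
      _ ≤ 2 * KF * (2 * ‖w‖) ^ 2 := by have := KF_pos; gcongr
      _ = _ := by ring
  have hth : ‖theta z‖ ≤ Real.exp (-(‖w‖ ^ (2/3 : ℝ) / 2)) := by
    rw [norm_theta, hWz]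
    refine Real.exp_le_exp.mpr (neg_le_neg (re_pow_ge ?_))
    rw [hwre, hwim, abs_one]; linarith
  have key : (1 + z) * f = theta z * (P z + Hz) := by
    rw [← e1, hf, hWz]; ring
  have k1 : 1 / 2 ≤ ‖(1 + z) * f‖ := by
    rw [norm_mul]
    nlinarith [norm_nonneg f]
  rw [key, norm_mul] at k1
  have hC := C1_pos
  have hK := KF_pos
  have k2 : ‖theta z‖ * ‖P z + Hz‖ ≤
      Real.exp (-(‖w‖ ^ (2/3 : ℝ) / 2)) * (16 * KF * ‖w‖ ^ 2 + C1) := by
    refine mul_le_mul hth ?_ (norm_nonneg _) (Real.exp_pos _).le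
    refine (norm_add_le _ _).trans (add_le_add ?_ ?_)
    · refine hPb.trans ?_
      nlinarith [mul_nonneg hK.le (sq_nonneg ‖w‖)]
    · refine e4.trans ?_
      nlinarith
  linarith

end MP9788a7
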