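import Mathlib

open MeasureTheory Set Metric
open scoped ENNReal Real

namespace MP9788a7

/-- A bounded domain `carrier` of the plane together with a conformal map `φ` of the unit disc
onto it (so `carrier` is simply connected). -/
structure Dom where
  carrier : Set ℂ
  φ : ℂ → ℂ
  holo : DifferentiableOn ℂ φ (ball 0 1)
  bij : BijOn φ (ball 0 1) carrier
  bdd : Bornology.IsBounded carrier

/-- Arc length on the level curve `φ({|ζ| = r})`, written in the parameter `t ∈ (0, 2π]` of the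
circle `|ζ| = r`. -/
noncomputable def Dom.arc (D : Dom) (r : ℝ) : Measure ℝ :=
  (volume.restrict (Ioc 0 (2 * π))).withDensity
    fun t => ‖(r : ℂ) * deriv D.φ (circleMap 0 r t)‖ₑ

/-- The Smirnov norm `sup_{0<r<1} (∫_{φ(|ζ|=r)} |f|^p |dz|)^{1/p}`, with values in `[0,∞]`. -/
noncomputable def Dom.smirnovNorm (D : Dom) (p : ℝ≥0∞) (f : ℂ → ℂ) : ℝ≥0∞ :=
  ⨆ r ∈ Ioo (0 : ℝ) 1, eLpNorm (fun t => f (D.φ (circleMap 0 r t))) p (D.arc r)

lemma Dom.mem_ball {r t : ℝ} (hr : r ∈ Ioo (0 : ℝ) 1) : circleMap 0 r t ∈ ball (0 : ℂ) 1 := by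
  rw [mem_ball_zero_iff, norm_circleMap_zero, abs_of_pos hr.1]
  exact hr.2

lemma Dom.continuous_φ (D : Dom) {r : ℝ} (hr : r ∈ Ioo (0 : ℝ) 1) :
    Continuous fun t => D.φ (circleMap 0 r t) := by
  refine D.holo.continuousOn.comp_continuous (continuous_circleMap 0 r) fun t => ?_
  exact Dom.mem_ball hr

lemma Dom.continuous_comp (D : Dom) {f : ℂ → ℂ} (hf : DifferentiableOn ℂ f D.carrier) {r : ℝ}
    (hr : r ∈ Ioo (0 : ℝ) 1) : Continuous fun t => f (D.φ (circleMap 0 r t)) :=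
  hf.continuousOn.comp_continuous (D.continuous_φ hr) fun _ => D.bij.mapsTo (Dom.mem_ball hr)

lemma Dom.smirnovNorm_zero (D : Dom) (p : ℝ≥0∞) : D.smirnovNorm p 0 = 0 := by
  simp [Dom.smirnovNorm, eLpNorm_zero']

lemma Dom.le_smirnovNorm (D : Dom) (p : ℝ≥0∞) (f : ℂ → ℂ) {r : ℝ} (hr : r ∈ Ioo (0 : ℝ) 1) :
    eLpNorm (fun t => f (D.φ (circleMap 0 r t))) p (D.arc r) ≤ D.smirnovNorm p f :=
  le_iSup₂_of_le r hr le_rfl

lemma Dom.smirnovNorm_le (D : Dom) (p : ℝ≥0∞) (f : ℂ → ℂ) {c : ℝ≥0∞}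
    (h : ∀ r ∈ Ioo (0 : ℝ) 1, eLpNorm (fun t => f (D.φ (circleMap 0 r t))) p (D.arc r) ≤ c) :
    D.smirnovNorm p f ≤ c :=
  iSup₂_le h

lemma Dom.smirnovNorm_add_le (D : Dom) {p : ℝ≥0∞} (hp : 1 ≤ p) {f g : ℂ → ℂ}
    (hf : DifferentiableOn ℂ f D.carrier) (hg : DifferentiableOn ℂ g D.carrier) :
    D.smirnovNorm p (f + g) ≤ D.smirnovNorm p f + D.smirnovNorm p g := by
  refine D.smirnovNorm_le p _ fun r hr => ?_
  have h1 := eLpNorm_add_le (μ := D.arc r) (D.continuous_comp hf hr).aestronglyMeasurable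
    (D.continuous_comp hg hr).aestronglyMeasurable hp
  exact h1.trans (add_le_add (D.le_smirnovNorm p f hr) (D.le_smirnovNorm p g hr))

lemma Dom.smirnovNorm_smul_le (D : Dom) (p : ℝ≥0∞) (c : ℂ) (f : ℂ → ℂ) :
    D.smirnovNorm p (c • f) ≤ ‖c‖ₑ * D.smirnovNorm p f := by
  refine D.smirnovNorm_le p _ fun r hr => ?_
  have h1 : eLpNorm (fun t => (c • f) (D.φ (circleMap 0 r t))) p (D.arc r) =
      ‖c‖ₑ * eLpNorm (fun t => f (D.φ (circleMap 0 r t))) p (D.arc r) :=
    eLpNorm_const_smul c (fun t => f (D.φ (circleMap 0 r t))) p (D.arc r)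
  rw [h1]
  exact mul_le_mul_right (D.le_smirnovNorm p f hr) _

lemma Dom.smirnovNorm_neg (D : Dom) (p : ℝ≥0∞) (f : ℂ → ℂ) :
    D.smirnovNorm p (-f) = D.smirnovNorm p f := by
  unfold Dom.smirnovNorm
  congr 1; funext r; congr 1; funext _
  exact eLpNorm_neg (fun t => f (D.φ (circleMap 0 r t))) p (D.arc r)

/-- The functions of the Smirnov space `E^p(D)`, extended by zero outside of `D`. -/
def smirnovSub (D : Dom) (p : ℝ≥0∞) [Fact (1 ≤ p)] : Submodule ℂ (ℂ → ℂ) where
  carrier := {f | DifferentiableOn ℂ f D.carrier ∧ (∀ z, z ∉ D.carrier → f z = 0) ∧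
    D.smirnovNorm p f < ∞}
  add_mem' := by
    rintro f g ⟨h1, h2, h3⟩ ⟨k1, k2, k3⟩
    refine ⟨h1.add k1, fun z hz => by rw [Pi.add_apply, h2 z hz, k2 z hz, add_zero], ?_⟩
    exact (D.smirnovNorm_add_le Fact.out h1 k1).trans_lt (ENNReal.add_lt_top.mpr ⟨h3, k3⟩)
  zero_mem' := ⟨differentiableOn_const 0, fun _ _ => rfl, by
    rw [D.smirnovNorm_zero]; exact ENNReal.zero_lt_top⟩
  smul_mem' := by
    rintro c f ⟨h1, h2, h3⟩
    refine ⟨h1.const_smul c, fun z hz => by rw [Pi.smul_apply, h2 z hz, smul_zero], ?_⟩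
    exact (D.smirnovNorm_smul_le p c f).trans_lt (ENNReal.mul_lt_top enorm_lt_top h3)

/-- The Smirnov space `E^p(D)`. -/
def Smirnov (D : Dom) (p : ℝ≥0∞) [Fact (1 ≤ p)] : Type := smirnovSub D p

variable {D : Dom} {p : ℝ≥0∞} [Fact (1 ≤ p)]

instance : AddCommGroup (Smirnov D p) := inferInstanceAs (AddCommGroup (smirnovSub D p))
instance : Module ℂ (Smirnov D p) := inferInstanceAs (Module ℂ (smirnovSub D p))

/-- The underlying function. -/
def Smirnov.fn (f : Smirnov D p) : ℂ → ℂ := (show smirnovSub D p from f).1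

lemma Smirnov.diff (f : Smirnov D p) : DifferentiableOn ℂ f.fn D.carrier :=
  (show smirnovSub D p from f).2.1

lemma Smirnov.off (f : Smirnov D p) {z : ℂ} (hz : z ∉ D.carrier) : f.fn z = 0 :=
  (show smirnovSub D p from f).2.2.1 z hz

lemma Smirnov.fin (f : Smirnov D p) : D.smirnovNorm p f.fn < ∞ :=
  (show smirnovSub D p from f).2.2.2

@[simp] lemma Smirnov.fn_add (f g : Smirnov D p) : (f + g).fn = f.fn + g.fn := rfl
@[simp] lemma Smirnov.fn_sub (f g : Smirnov D p) : (f - g).fn = f.fn - g.fn := rfl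
@[simp] lemma Smirnov.fn_neg (f : Smirnov D p) : (-f).fn = -f.fn := rfl
@[simp] lemma Smirnov.fn_zero : (0 : Smirnov D p).fn = 0 := rfl
@[simp] lemma Smirnov.fn_smul (c : ℂ) (f : Smirnov D p) : (c • f).fn = c • f.fn := rfl

lemma Smirnov.ext_fn {f g : Smirnov D p} (h : f.fn = g.fn) : f = g := Subtype.ext h

/-- The norm of `E^p(D)`. -/
noncomputable instance : SeminormedAddCommGroup (Smirnov D p) :=
  AddGroupSeminorm.toSeminormedAddCommGroup
    { toFun := fun f => (D.smirnovNorm p f.fn).toReal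
      map_zero' := by
        rw [Smirnov.fn_zero, D.smirnovNorm_zero]; rfl
      add_le' := by
        intro f g
        rw [← ENNReal.toReal_add f.fin.ne g.fin.ne]
        exact ENNReal.toReal_mono (ENNReal.add_ne_top.mpr ⟨f.fin.ne, g.fin.ne⟩)
          (D.smirnovNorm_add_le Fact.out f.diff g.diff)
      neg' := by
        intro f
        rw [Smirnov.fn_neg, D.smirnovNorm_neg] }

lemma Smirnov.norm_def (f : Smirnov D p) : ‖f‖ = (D.smirnovNorm p f.fn).toReal := rfl

noncomputable instance : NormedSpace ℂ (Smirnov D p) where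
  norm_smul_le := by
    intro c f
    rw [Smirnov.norm_def, Smirnov.norm_def, Smirnov.fn_smul, ← toReal_enorm, ← ENNReal.toReal_mul]
    exact ENNReal.toReal_mono (ENNReal.mul_lt_top enorm_lt_top f.fin).ne
      (D.smirnovNorm_smul_le p c f.fn)

/-- Multiplication of a function by a function bounded on `D`. -/
lemma Dom.smirnovNorm_mul_le (D : Dom) (p : ℝ≥0∞) {g f : ℂ → ℂ} {K : ℝ}
    (hg : ∀ z ∈ D.carrier, ‖g z‖ ≤ K) :
    D.smirnovNorm p (g * f) ≤ ENNReal.ofReal K * D.smirnovNorm p f := by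
  refine D.smirnovNorm_le p _ fun r hr => ?_
  have h1 : eLpNorm (fun t => (g * f) (D.φ (circleMap 0 r t))) p (D.arc r) ≤
      ENNReal.ofReal K * eLpNorm (fun t => f (D.φ (circleMap 0 r t))) p (D.arc r) := by
    refine eLpNorm_le_mul_eLpNorm_of_ae_le_mul (Filter.Eventually.of_forall fun t => ?_) p
    rw [Pi.mul_apply, norm_mul]
    exact mul_le_mul_of_nonneg_right (hg _ (D.bij.mapsTo (Dom.mem_ball hr))) (norm_nonneg _)
  exact h1.trans (mul_le_mul_right (D.le_smirnovNorm p f hr) _)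

lemma Dom.exists_bound (D : Dom) : ∃ K : ℝ, 0 ≤ K ∧ ∀ z ∈ D.carrier, ‖z‖ ≤ K := by
  obtain ⟨K, hK⟩ := D.bdd.exists_norm_le
  exact ⟨max K 0, le_max_right _ _, fun z hz => (hK z hz).trans (le_max_left _ _)⟩

/-- The operator of multiplication by the independent variable on `E^p(D)`. -/
noncomputable def mulZ (D : Dom) (p : ℝ≥0∞) [Fact (1 ≤ p)] : Smirnov D p →L[ℂ] Smirnov D p :=
  LinearMap.mkContinuousOfExistsBound
    { toFun := fun f => (⟨fun z => z * f.fn z, by
        obtain ⟨K, -, hb⟩ := D.exists_bound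
        refine ⟨differentiableOn_id.mul f.diff, fun z hz => ?_, ?_⟩
        · show z * f.fn z = 0
          rw [f.off hz, mul_zero]
        exact (D.smirnovNorm_mul_le p hb).trans_lt (ENNReal.mul_lt_top ENNReal.ofReal_lt_top
          f.fin)⟩ : smirnovSub D p)
      map_add' := by
        intro f g
        apply Smirnov.ext_fn
        funext z
        exact mul_add z (f.fn z) (g.fn z)
      map_smul' := by
        intro c f
        apply Smirnov.ext_fn
        funext z
        exact mul_left_comm z c (f.fn z) }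
    (by
      obtain ⟨K, hK, hb⟩ := D.exists_bound
      refine ⟨K, fun f => ?_⟩
      have h1 : D.smirnovNorm p (fun z => z * f.fn z) ≤ ENNReal.ofReal K * D.smirnovNorm p f.fn :=
        D.smirnovNorm_mul_le p hb
      have h2 := ENNReal.toReal_mono (ENNReal.mul_lt_top ENNReal.ofReal_lt_top f.fin).ne h1
      rw [ENNReal.toReal_mul, ENNReal.toReal_ofReal hK] at h2
      exact h2)

@[simp] lemma mulZ_fn (f : Smirnov D p) (z : ℂ) : (mulZ D p f).fn z = z * f.fn z := rfl

variable {A B C : Dom}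

/-- The space `E^p(R₀) = E^p(A) ⊕ E^p(B)`. -/
def EP (A B : Dom) (p : ℝ≥0∞) [Fact (1 ≤ p)] : Type := Smirnov A p × Smirnov B p

noncomputable instance : SeminormedAddCommGroup (EP A B p) :=
  inferInstanceAs (SeminormedAddCommGroup (Smirnov A p × Smirnov B p))

noncomputable instance : NormedSpace ℂ (EP A B p) :=
  inferInstanceAs (NormedSpace ℂ (Smirnov A p × Smirnov B p))

/-- The component on the sheet over `A`. -/
def EP.fst : EP A B p → Smirnov A p := Prod.fst

/-- The component on the sheet over `B`. -/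
def EP.snd : EP A B p → Smirnov B p := Prod.snd

/-- The operator `M_{R₀}`, `(f, g) ↦ (z f, z g)`. -/
noncomputable def opM (A B : Dom) (p : ℝ≥0∞) [Fact (1 ≤ p)] : EP A B p →L[ℂ] EP A B p :=
  (mulZ A p).prodMap (mulZ B p)

section abstract

variable {X : Type} [SeminormedAddCommGroup X] [NormedSpace ℂ X]

/-- `E` is a closed subspace invariant under `T`. -/
structure IsLat (T : X →L[ℂ] X) (E : Submodule ℂ X) : Prop where
  closed : IsClosed (E : Set X)
  invariant : ∀ f ∈ E, T f ∈ E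

/-- The kernel of the adjoint of `(T - lam)|_E`: the bounded functionals on `E` vanishing on
`(T - lam) E` (for `E` invariant under `T`). -/
def kerAdj (T : X →L[ℂ] X) (E : Submodule ℂ X) (lam : ℂ) : Submodule ℂ (E →L[ℂ] ℂ) where
  carrier := {ψ | ∀ f g : E, (g : X) = T f → ψ g = lam * ψ f}
  add_mem' := by
    intro a b ha hb f g h
    rw [add_apply, add_apply, ha f g h, hb f g h]
    ring
  zero_mem' := by
    intro f g _
    simp
  smul_mem' := by
    intro c a ha f g h
    rw [smul_apply, smul_apply, ha f g h, smul_eq_mul,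
      smul_eq_mul]
    ring

/-- The rank function `r_E(lam)`. -/
noncomputable def rankFn (T : X →L[ℂ] X) (E : Submodule ℂ X) (lam : ℂ) : ℕ :=
  Module.finrank ℂ (kerAdj T E lam)

end abstract

/-- Trace of `E` on the sheet over `A`. -/
def traceA (E : Submodule ℂ (EP A B p)) : Set (Smirnov A p) :=
  closure {g | ∃ f ∈ E, g = f.fst}

/-- Trace of `E` on the sheet over `B`. -/
def traceB (E : Submodule ℂ (EP A B p)) : Set (Smirnov B p) :=
  closure {g | ∃ f ∈ E, g = f.snd}

/-- Trace of `E` on the two copies of `C` (used for `C = A ∩ B`). -/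
def traceC (C : Dom) (E : Submodule ℂ (EP A B p)) : Set (EP C C p) :=
  closure {g | ∃ f ∈ E, EqOn g.fst.fn f.fst.fn C.carrier ∧ EqOn g.snd.fn f.snd.fn C.carrier}

/-- The standard subspace `St(E)`. -/
def standard (C : Dom) (E : Submodule ℂ (EP A B p)) : Set (EP A B p) :=
  {f | f.fst ∈ traceA E ∧ f.snd ∈ traceB E ∧
    ∃ g ∈ traceC C E, EqOn g.fst.fn f.fst.fn C.carrier ∧ EqOn g.snd.fn f.snd.fn C.carrier}

end MP9788a7
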