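import Pool.Agent.Lib_MP_9788a7_an.Defs

open MeasureTheory Set Metric
open scoped ENNReal Real

namespace MP9788a7

/-- The disc of centre `c` and radius `R`. -/
noncomputable def disc (c : ℂ) (R : ℝ) (hR : 0 < R) : Dom where
  carrier := ball c R
  φ := fun ζ => c + R * ζ
  holo := by fun_prop
  bij := by
    have hR' : (R : ℂ) ≠ 0 := by exact_mod_cast hR.ne'
    refine ⟨fun ζ hζ => ?_, fun a _ b _ h => ?_, fun z hz => ⟨(z - c) / R, ?_, ?_⟩⟩
    · rw [mem_ball_zero_iff] at hζ
      rw [mem_ball_iff_norm, add_sub_cancel_left, norm_mul, Complex.norm_real, Real.norm_eq_abs,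
        abs_of_pos hR]
      nlinarith
    · simpa [hR'] using h
    · rw [mem_ball_iff_norm] at hz
      rw [mem_ball_zero_iff, norm_div, Complex.norm_real, Real.norm_eq_abs, abs_of_pos hR,
        div_lt_one hR]
      exact hz
    · simp only
      field_simp
      ring
  bdd := isBounded_ball

lemma disc_φ (c : ℂ) (R : ℝ) (hR : 0 < R) (ζ : ℂ) : (disc c R hR).φ ζ = c + R * ζ := rfl

lemma disc_φ_circle (c : ℂ) (R : ℝ) (hR : 0 < R) (r t : ℝ) :
    (disc c R hR).φ (circleMap 0 r t) = circleMap c (R * r) t := by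
  rw [disc_φ, circleMap, circleMap]
  push_cast
  ring

lemma disc_deriv (c : ℂ) (R : ℝ) (hR : 0 < R) (ζ : ℂ) : deriv (disc c R hR).φ ζ = R := by
  have : (disc c R hR).φ = fun ζ => c + R * ζ := rfl
  rw [this]
  simp

lemma disc_arc (c : ℂ) (R : ℝ) (hR : 0 < R) {r : ℝ} (hr : 0 < r) :
    (disc c R hR).arc r = ENNReal.ofReal (R * r) • volume.restrict (Ioc 0 (2 * π)) := by
  rw [Dom.arc]
  simp only [disc_deriv]
  rw [withDensity_const]
  congr 1
  rw [← Complex.ofReal_mul, ← ofReal_norm, Complex.norm_real, Real.norm_eq_abs,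
    abs_of_pos (mul_pos hr hR), mul_comm]

/-- Pointwise bound on a disc. -/
theorem disc_bound (c : ℂ) (R : ℝ) (hR : 0 < R) (p : ℝ≥0∞) [Fact (1 ≤ p)] :
    ∃ K : ℝ, 0 < K ∧ ∀ (f : Smirnov (disc c R hR) p) (z : ℂ), z ∈ ball c R →
      ‖f.fn z‖ * (R - ‖z - c‖) ≤ K * ‖f‖ := by
  set s : ℝ := 1 / (1 : ℝ≥0∞).toReal - 1 / p.toReal with hs
  have hp : 1 ≤ p := Fact.out
  have hs0 : 0 ≤ s := by
    rw [hs, ENNReal.toReal_one, div_one, sub_nonneg]
    by_cases hpt : p = ∞
    · simp [hpt]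
    · have : 1 ≤ p.toReal := by
        rw [← ENNReal.toReal_one]; exact ENNReal.toReal_mono hpt hp
      rw [div_le_one (by linarith)]
      exact this
  set U : ℝ≥0∞ := (ENNReal.ofReal (R * (2 * π))) ^ s with hU
  have hUt : U ≠ ∞ := ENNReal.rpow_ne_top_of_nonneg hs0 ENNReal.ofReal_ne_top
  refine ⟨U.toReal + 1, by positivity, fun f z hz => ?_⟩
  rw [mem_ball_iff_norm] at hz
  set ρ : ℝ := (R + ‖z - c‖) / 2 with hρ
  have hzn : 0 ≤ ‖z - c‖ := norm_nonneg _
  have hρR : ρ < R := by rw [hρ]; linarith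
  have hρz : ‖z - c‖ < ρ := by rw [hρ]; linarith
  have hρ0 : 0 < ρ := by rw [hρ]; linarith
  set r : ℝ := ρ / R with hr
  have hr0 : 0 < r := div_pos hρ0 hR
  have hr1 : r < 1 := by rw [hr, div_lt_one hR]; exact hρR
  have hRr : R * r = ρ := by rw [hr]; field_simp
  have hfd : DifferentiableOn ℂ f.fn (ball c R) := f.diff
  have hfc : DiffContOnCl ℂ f.fn (ball c ρ) :=
    hfd.diffContOnCl_ball (closedBall_subset_ball hρR)
  have hcau := hfc.two_pi_i_inv_smul_circleIntegral_sub_inv_smul (mem_ball_iff_norm.mpr hρz)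
  -- L1 bound
  have hcont : Continuous fun t => f.fn (circleMap c ρ t) := by
    have := (disc c R hR).continuous_comp f.diff ⟨hr0, hr1⟩
    simpa only [disc_φ_circle, hRr] using this
  have hL1 : ∫ t in Ioc 0 (2 * π), ρ * ‖f.fn (circleMap c ρ t)‖ ≤ U.toReal * ‖f‖ := by
    have e1 : eLpNorm (fun t => f.fn ((disc c R hR).φ (circleMap 0 r t))) 1 ((disc c R hR).arc r) ≤
        eLpNorm (fun t => f.fn ((disc c R hR).φ (circleMap 0 r t))) p ((disc c R hR).arc r) *
        ((disc c R hR).arc r) Set.univ ^ s :=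
      eLpNorm_le_eLpNorm_mul_rpow_measure_univ hp
        ((disc c R hR).continuous_comp f.diff ⟨hr0, hr1⟩).aestronglyMeasurable
    have e2 : ((disc c R hR).arc r) Set.univ ≤ ENNReal.ofReal (R * (2 * π)) := by
      rw [disc_arc c R hR hr0, Measure.smul_apply, Measure.restrict_apply MeasurableSet.univ,
        univ_inter, Real.volume_Ioc, smul_eq_mul, ← ENNReal.ofReal_mul (by positivity)]
      refine ENNReal.ofReal_le_ofReal ?_
      rw [sub_zero]
      have : R * r * (2 * π) ≤ R * 1 * (2 * π) := by gcongr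
      simpa using this
    have e3 : eLpNorm (fun t => f.fn ((disc c R hR).φ (circleMap 0 r t))) 1
        ((disc c R hR).arc r) ≤ (disc c R hR).smirnovNorm p f.fn * U :=
      e1.trans (mul_le_mul' (Dom.le_smirnovNorm _ _ _ ⟨hr0, hr1⟩) (ENNReal.rpow_le_rpow e2 hs0))
    rw [eLpNorm_one_eq_lintegral_enorm, disc_arc c R hR hr0, lintegral_smul_measure] at e3
    simp only [disc_φ_circle, hRr] at e3
    rw [integral_const_mul, integral_norm_eq_lintegral_enorm hcont.aestronglyMeasurable]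
    have e4 := ENNReal.toReal_mono (ENNReal.mul_lt_top f.fin hUt.lt_top).ne e3
    rw [smul_eq_mul, ENNReal.toReal_mul, ENNReal.toReal_mul, ENNReal.toReal_ofReal hρ0.le] at e4
    rw [Smirnov.norm_def, mul_comm U.toReal]
    exact e4
  have hbd : ‖f.fn z‖ ≤ (2 * π)⁻¹ * ((ρ - ‖z - c‖)⁻¹ * (U.toReal * ‖f‖)) := by
    rw [← hcau, norm_smul]
    have e5 : ‖(2 * (π : ℂ) * Complex.I)⁻¹‖ = (2 * π)⁻¹ := by
      rw [norm_inv, norm_mul, norm_mul, Complex.norm_I, mul_one, Complex.norm_real,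
        Real.norm_eq_abs, abs_of_pos Real.pi_pos]
      simp
    rw [e5]
    refine mul_le_mul_of_nonneg_left ?_ (by positivity)
    rw [circleIntegral, intervalIntegral.integral_of_le (by positivity)]
    refine (norm_integral_le_integral_norm _).trans ?_
    refine le_trans ?_ (mul_le_mul_of_nonneg_left hL1 (inv_nonneg.mpr (by linarith)))
    rw [← integral_const_mul]
    refine setIntegral_mono_on ?_ ?_ measurableSet_Ioc fun t _ => ?_
    · refine (Continuous.integrableOn_Icc ?_).mono_set Ioc_subset_Icc_self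
      have hd : Continuous fun t => deriv (circleMap c ρ) t := by
        simp only [deriv_circleMap]
        exact (continuous_circleMap 0 ρ).mul continuous_const
      refine (hd.smul (Continuous.smul (Continuous.inv₀
        ((continuous_circleMap c ρ).sub continuous_const) fun t => ?_) hcont)).norm
      intro h0
      have h1 : circleMap c ρ t = z := sub_eq_zero.mp h0
      have h2 : ‖circleMap c ρ t - c‖ = ρ := by
        rw [circleMap_sub_center, norm_circleMap_zero, abs_of_pos hρ0]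
      rw [h1] at h2
      linarith
    · exact (Continuous.integrableOn_Icc (by fun_prop)).mono_set Ioc_subset_Icc_self
    · rw [norm_smul, norm_smul, deriv_circleMap, norm_mul, norm_circleMap_zero, Complex.norm_I,
        mul_one, abs_of_pos hρ0, norm_inv]
      have h3 : ρ - ‖z - c‖ ≤ ‖circleMap c ρ t - z‖ := by
        have h2 : ‖circleMap c ρ t - c‖ = ρ := by
          rw [circleMap_sub_center, norm_circleMap_zero, abs_of_pos hρ0]
        have h4 : circleMap c ρ t - c = (circleMap c ρ t - z) + (z - c) := by ring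
        have h5 := norm_add_le (circleMap c ρ t - z) (z - c)
        rw [← h4, h2] at h5
        linarith
      have h6 : ‖circleMap c ρ t - z‖⁻¹ ≤ (ρ - ‖z - c‖)⁻¹ :=
        inv_anti₀ (by linarith) h3
      calc ρ * (‖circleMap c ρ t - z‖⁻¹ * ‖f.fn (circleMap c ρ t)‖)
          ≤ ρ * ((ρ - ‖z - c‖)⁻¹ * ‖f.fn (circleMap c ρ t)‖) := by gcongr
        _ = (ρ - ‖z - c‖)⁻¹ * (ρ * ‖f.fn (circleMap c ρ t)‖) := by ring
  have h7 : ρ - ‖z - c‖ = (R - ‖z - c‖) / 2 := by rw [hρ]; ring
  rw [h7] at hbd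
  have h8 : 0 < R - ‖z - c‖ := by linarith
  calc ‖f.fn z‖ * (R - ‖z - c‖)
      ≤ ((2 * π)⁻¹ * (((R - ‖z - c‖) / 2)⁻¹ * (U.toReal * ‖f‖))) * (R - ‖z - c‖) :=
        mul_le_mul_of_nonneg_right hbd h8.le
    _ = π⁻¹ * (U.toReal * ‖f‖) := by
        field_simp
    _ ≤ 1 * (U.toReal * ‖f‖) := by
        refine mul_le_mul_of_nonneg_right ?_ (by positivity)
        exact inv_le_one_of_one_le₀ (by linarith [Real.pi_gt_three])
    _ ≤ (U.toReal + 1) * ‖f‖ := by nlinarith [norm_nonneg f]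

end MP9788a7
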