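import Mathlib

open MeasureTheory Set Complex
open scoped Real

namespace MP9788a7

lemma integrable_quad (c : ℂ) : Integrable fun τ : ℝ => cexp (-(1/4) * (τ : ℂ)^2 + c * τ) := by
  have := integrable_cexp_quadratic (b := 1/4) (by norm_num) c 0
  simpa using this

/-- Half of the Faddeeva function. -/
noncomputable def uF (w : ℂ) : ℂ :=
  (1 / (2 * √π : ℝ) : ℂ) * ∫ τ in Ioi (0 : ℝ), cexp (-(1/4) * (τ : ℂ)^2 + (I * w) * τ)

/-- The companion function. -/
noncomputable def vF (w : ℂ) : ℂ := - uF (-w)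

lemma norm_quad (c : ℂ) (τ : ℝ) : ‖cexp (-(1/4) * (τ : ℂ)^2 + c * τ)‖ =
    Real.exp (-(1/4) * τ^2 + c.re * τ) := by
  rw [norm_exp]
  congr 1
  have : (-(1/4) * (τ : ℂ)^2 + c * τ) = ((-(1/4) * τ^2 : ℝ) : ℂ) + c * (τ : ℂ) := by push_cast; ring
  rw [this, add_re, ofReal_re, re_mul_ofReal]

lemma differentiable_uF : Differentiable ℂ uF := by
  intro w
  refine DifferentiableAt.const_mul ?_ _
  have hb : Integrable (fun τ : ℝ => Real.exp (-(1/4) * τ^2 + (‖w‖ + 2) * τ))
      (volume.restrict (Ioi 0)) := by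
    have := (integrable_quad ((‖w‖ + 2 : ℝ) : ℂ)).norm
    simp only [norm_quad, ofReal_re] at this
    exact this.integrableOn
  have key := hasDerivAt_integral_of_dominated_loc_of_deriv_le (𝕜 := ℂ)
    (μ := volume.restrict (Ioi (0:ℝ))) (s := Metric.ball w 1)
    (F := fun w τ => cexp (-(1/4) * (τ : ℂ)^2 + (I * w) * τ))
    (F' := fun w τ => cexp (-(1/4) * (τ : ℂ)^2 + (I * w) * τ) * (I * τ)) (x₀ := w)
    (bound := fun τ => Real.exp (-(1/4) * τ^2 + (‖w‖ + 2) * τ))
    (Metric.ball_mem_nhds w one_pos)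
    (Filter.Eventually.of_forall fun x => (integrable_quad _).integrableOn.aestronglyMeasurable)
    (integrable_quad _).integrableOn
    (by
      refine Continuous.aestronglyMeasurable ?_
      fun_prop)
    (by
      refine (ae_restrict_iff' measurableSet_Ioi).mpr (Filter.Eventually.of_forall fun τ hτ x hx => ?_)
      have hτ0 : (0 : ℝ) < τ := hτ
      rw [norm_mul, norm_quad, norm_mul, norm_I, one_mul, norm_real, Real.norm_eq_abs,
        abs_of_pos hτ0]
      have h1 : (I * x).re ≤ ‖w‖ + 1 := by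
        have h2 : (I * x).re ≤ ‖I * x‖ := re_le_norm _
        rw [norm_mul, norm_I, one_mul] at h2
        have h3 : ‖x‖ ≤ ‖w‖ + 1 := by
          have h4 : ‖x - w‖ < 1 := by rwa [mem_ball_iff_norm] at hx
          have h5 := norm_add_le (x - w) w
          rw [sub_add_cancel] at h5
          linarith
        linarith
      have h6 : τ ≤ Real.exp τ := (Real.add_one_le_exp τ).trans' (by linarith)
      calc Real.exp (-(1/4) * τ^2 + (I * x).re * τ) * τ
          ≤ Real.exp (-(1/4) * τ^2 + (‖w‖ + 1) * τ) * Real.exp τ := by gcongr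
        _ = Real.exp (-(1/4) * τ^2 + (‖w‖ + 2) * τ) := by
          rw [← Real.exp_add]; congr 1; ring)
    hb
    (Filter.Eventually.of_forall fun τ x _ => by
      have h1 : HasDerivAt (fun w : ℂ => -(1/4) * (τ : ℂ)^2 + (I * w) * τ) (I * τ) x := by
        have := ((hasDerivAt_id x).const_mul I).mul_const (τ : ℂ)
        simpa using this.const_add (-(1/4) * (τ : ℂ)^2)
      exact h1.cexp)
  exact key.2.differentiableAt

lemma norm_uF_le {w : ℂ} (hw : 0 ≤ w.im) : ‖uF w‖ ≤ 1 / 2 := by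
  rw [uF, norm_mul]
  have h1 : ‖∫ τ in Ioi (0 : ℝ), cexp (-(1/4) * (τ : ℂ)^2 + (I * w) * τ)‖ ≤
      ∫ τ in Ioi (0 : ℝ), Real.exp (-(1/4) * τ^2) := by
    refine norm_integral_le_of_norm_le ?_ ?_
    · have := (integrable_exp_neg_mul_sq (show (0:ℝ) < 1/4 by norm_num))
      exact this.integrableOn
    · refine (ae_restrict_iff' measurableSet_Ioi).mpr (Filter.Eventually.of_forall fun τ hτ => ?_)
      have hτ0 : (0 : ℝ) < τ := hτ
      rw [norm_quad]
      refine Real.exp_le_exp.mpr ?_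
      have : (I * w).re = - w.im := by simp
      rw [this]
      nlinarith
  rw [integral_gaussian_Ioi] at h1
  have h2 : √(π / (1/4)) = 2 * √π := by
    rw [show π / (1/4) = 2^2 * π by ring, Real.sqrt_mul (by norm_num), Real.sqrt_sq (by norm_num)]
  rw [h2] at h1
  have h3 : 0 < √π := Real.sqrt_pos.mpr Real.pi_pos
  have h4 : ‖(1 / (2 * √π : ℝ) : ℂ)‖ = 1 / (2 * √π) := by
    rw [norm_div, norm_one, norm_real, Real.norm_eq_abs, abs_of_pos (by positivity)]
  rw [h4]
  calc 1 / (2 * √π) * _ ≤ 1 / (2 * √π) * (2 * √π / 2) := by gcongr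
    _ = 1 / 2 := by field_simp

lemma uF_add (w : ℂ) : uF w - vF w = cexp (-w^2) := by
  have h0 : uF w - vF w = (1 / (2 * √π : ℝ) : ℂ) *
      ∫ τ : ℝ, cexp (-(1/4) * (τ : ℂ)^2 + (I * w) * τ) := by
    rw [vF, sub_neg_eq_add, uF, uF, ← mul_add]
    congr 1
    have h1 : ∫ τ in Ioi (0 : ℝ), cexp (-(1/4) * (τ : ℂ)^2 + (I * -w) * τ) =
        ∫ τ in (Ioi (0 : ℝ))ᶜ, cexp (-(1/4) * (τ : ℂ)^2 + (I * w) * τ) := by
      rw [compl_Ioi, ← neg_zero, ← integral_comp_neg_Ioi]
      rw [neg_zero]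
      congr 1
      funext τ
      congr 1
      push_cast
      ring
    rw [h1]
    exact integral_add_compl measurableSet_Ioi (integrable_quad _)
  rw [h0]
  have h2 := fourierIntegral_gaussian (b := 1/4) (by norm_num) w
  have h3 : (fun x : ℝ => cexp (I * w * x) * cexp (-(1/4) * x^2)) =
      fun τ : ℝ => cexp (-(1/4) * (τ : ℂ)^2 + (I * w) * τ) := by
    funext x
    rw [← Complex.exp_add]; congr 1; ring
  rw [h3] at h2
  rw [h2]
  have h4 : ((π : ℂ) / (1/4)) ^ (1/2 : ℂ) = ((2 * √π : ℝ) : ℂ) := by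
    have : ((π : ℂ) / (1/4)) = ((4 * π : ℝ) : ℂ) := by push_cast; ring
    rw [this, show (1/2 : ℂ) = ((1/2 : ℝ) : ℂ) by push_cast; rfl,
      ← ofReal_cpow (by positivity), ← Real.sqrt_eq_rpow,
      show (4 * π : ℝ) = 2^2 * π by ring, Real.sqrt_mul (by norm_num), Real.sqrt_sq (by norm_num)]
  rw [h4, ← mul_assoc]
  have h5 : ((2 * √π : ℝ) : ℂ) ≠ 0 := by
    have : 0 < √π := Real.sqrt_pos.mpr Real.pi_pos
    exact_mod_cast (by positivity : (2 * √π : ℝ) ≠ 0)
  rw [one_div_mul_cancel h5, one_mul]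
  congr 1
  ring

/-- Cauchy transform over the positive half line. -/
noncomputable def U0 (w : ℂ) : ℂ :=
  (2 * π * I)⁻¹ * ∫ y in Ioi (0 : ℝ), cexp (-(y : ℂ)^2) / ((y : ℂ) - w)

/-- Cauchy transform over the negative half line. -/
noncomputable def NF (w : ℂ) : ℂ :=
  -((2 * π * I)⁻¹ * ∫ y in Ioi (0 : ℝ), cexp (-(y : ℂ)^2) / ((y : ℂ) + w))

lemma integrable_gauss_div {w : ℂ} (hw : 0 < w.im) :
    Integrable fun y : ℝ => cexp (-(y : ℂ)^2) / ((y : ℂ) - w) := by
  have h1 : Integrable fun y : ℝ => w.im⁻¹ * Real.exp (-1 * y^2) :=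
    (integrable_exp_neg_mul_sq one_pos).const_mul _
  refine h1.mono' ?_ (Filter.Eventually.of_forall fun y => ?_)
  · refine Continuous.aestronglyMeasurable (Continuous.div (by fun_prop) (by fun_prop) fun y => ?_)
    intro h
    have := congrArg Complex.im h
    simp at this
    linarith
  · rw [norm_div, norm_exp, div_eq_inv_mul]
    have h2 : w.im ≤ ‖(y : ℂ) - w‖ := by
      have := abs_im_le_norm ((y : ℂ) - w)
      simp only [sub_im, ofReal_im, zero_sub, abs_neg] at this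
      exact (le_abs_self _).trans this
    have h3 : (-(y : ℂ)^2).re = -1 * y^2 := by
      rw [← ofReal_pow, ← ofReal_neg, ofReal_re]; ring
    rw [h3]
    have h4 : ‖(y : ℂ) - w‖⁻¹ ≤ w.im⁻¹ := inv_anti₀ hw h2
    gcongr

lemma uF_cauchy {w : ℂ} (hw : 0 < w.im) :
    uF w = (2 * π * I)⁻¹ * ∫ y : ℝ, cexp (-(y : ℂ)^2) / ((y : ℂ) - w) := by
  have h1 : ∀ y : ℝ, cexp (-(y : ℂ)^2) / ((y : ℂ) - w) =
      I * ∫ τ in Ioi (0 : ℝ), cexp (-(y : ℂ)^2) * cexp ((I * (w - y)) * τ) := by
    intro y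
    have hre : (I * (w - y)).re < 0 := by simp; exact hw
    rw [integral_const_mul, integral_exp_mul_complex_Ioi hre]
    have h2 : (I * (w - y)) ≠ 0 := by
      intro h; rw [h] at hre; simp at hre
    have h3 : (w - y) ≠ 0 := fun h => h2 (by rw [h, mul_zero])
    have h4 : ((y : ℂ) - w) ≠ 0 := fun h => h3 (by linear_combination -h)
    simp only [ofReal_zero, mul_zero, Complex.exp_zero]
    field_simp
    ring
  simp only [h1]
  rw [integral_const_mul, integral_integral_swap]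
  · have h5 : ∀ τ : ℝ, ∫ y : ℝ, cexp (-(y : ℂ)^2) * cexp ((I * (w - y)) * τ) =
        (√π : ℂ) * cexp (-(1/4) * (τ : ℂ)^2 + (I * w) * τ) := by
      intro τ
      have h6 := fourierIntegral_gaussian (b := 1) (by norm_num) (-(τ : ℂ))
      have h7 : ((π : ℂ) / 1) ^ (1/2 : ℂ) = (√π : ℂ) := by
        rw [div_one, show (1/2 : ℂ) = ((1/2 : ℝ) : ℂ) by push_cast; rfl,
          ← ofReal_cpow Real.pi_pos.le, ← Real.sqrt_eq_rpow]
      rw [h7] at h6
      have h8 : ∀ y : ℝ, cexp (-(y : ℂ)^2) * cexp ((I * (w - y)) * τ) =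
          cexp ((I * w) * τ) * (cexp (I * (-(τ : ℂ)) * y) * cexp (-1 * y^2)) := by
        intro y
        rw [← Complex.exp_add, ← Complex.exp_add, ← Complex.exp_add]
        congr 1; ring
      simp only [h8]
      rw [integral_const_mul, h6, Complex.exp_add]
      have h9 : cexp (-(-(τ : ℂ))^2 / (4 * 1)) = cexp (-(1/4) * (τ : ℂ)^2) := by
        congr 1; ring
      rw [h9]; ring
    simp only [h5]
    rw [integral_const_mul, uF]
    have hpi : (√π : ℂ) * (√π : ℂ) = π := by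
      rw [← ofReal_mul, Real.mul_self_sqrt Real.pi_pos.le]
    have h3 : (√π : ℂ) ≠ 0 := by
      exact_mod_cast (Real.sqrt_pos.mpr Real.pi_pos).ne'
    have h4 : (π : ℂ) ≠ 0 := by exact_mod_cast Real.pi_pos.ne'
    push_cast
    rw [← hpi]
    field_simp
  · have g1 : Integrable (fun y : ℝ => cexp (-(y : ℂ)^2)) volume := by
      have := integrable_cexp_quadratic (b := 1) (by norm_num) 0 0
      simpa using this
    have g2 : Integrable (fun τ : ℝ => cexp (-(w.im : ℂ) * τ)) (volume.restrict (Ioi 0)) :=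
      integrableOn_exp_mul_complex_Ioi (a := -(w.im : ℂ)) (by simpa using hw) 0
    refine (g1.mul_prod g2).mono ?_ (Filter.Eventually.of_forall fun q => ?_)
    · refine Continuous.aestronglyMeasurable ?_
      fun_prop
    · simp only [Function.uncurry, norm_mul, norm_exp]
      have h7 : ((I * (w - (q.1 : ℂ))) * (q.2 : ℂ)).re = (-(w.im : ℂ) * (q.2 : ℂ)).re := by simp
      rw [h7]

lemma uF_split {w : ℂ} (hw : 0 < w.im) : uF w = U0 w + NF w := by
  rw [uF_cauchy hw, U0, NF, ← sub_eq_add_neg, ← mul_sub]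
  congr 1
  have h1 := integral_add_compl (s := Ioi (0:ℝ)) measurableSet_Ioi (integrable_gauss_div hw)
  rw [← h1, sub_eq_add_neg]
  congr 1
  rw [compl_Ioi, ← neg_zero, ← integral_comp_neg_Ioi, neg_zero, ← integral_neg]
  congr 1
  funext y
  push_cast
  rw [neg_sq, ← div_neg]
  congr 1
  ring

lemma vF_split {w : ℂ} (hw : w.im < 0) : vF w = U0 w + NF w := by
  have h1 : 0 < (-w).im := by simpa using hw
  rw [vF, uF_split h1, U0, NF, U0, NF]
  simp only [sub_neg_eq_add, ← sub_eq_add_neg]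
  ring

end MP9788a7
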