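import Pool.Agent.Lib_MP_9788a7_an.Small

open MeasureTheory Set Metric Filter Topology Complex
open scoped ENNReal Real

namespace MP9788a7

/-- square root of the half plane coordinate -/
noncomputable def sr (ζ : ℂ) : ℂ := (W ζ) ^ (((1/2 : ℝ) : ℂ))

lemma W_re_pos {ζ : ℂ} (hζ : ζ ∈ ball (0 : ℂ) 1) : ζ ≠ 1 ∧ 0 < (W ζ).re := by
  rw [mem_ball_zero_iff] at hζ
  have h1 : ζ ≠ 1 := by rintro rfl; simp at hζ
  refine ⟨h1, ?_⟩
  rw [W_re]
  refine div_pos ?_ (normSq_pos.mpr (one_sub_ne h1))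
  rw [normSq_eq_norm_sq]
  nlinarith [norm_nonneg ζ]

lemma mem_ball_of_W {ζ : ℂ} (h1 : ζ ≠ 1) (h : 0 < (W ζ).re) : ζ ∈ ball (0 : ℂ) 1 := by
  rw [mem_ball_zero_iff]
  rw [W_re, div_pos_iff] at h
  have h2 : 0 < normSq (1 - ζ) := normSq_pos.mpr (one_sub_ne h1)
  rcases h with h | h
  · rw [normSq_eq_norm_sq] at h
    nlinarith [norm_nonneg ζ]
  · linarith [h.2]

lemma sr_sq (ζ : ℂ) : sr ζ ^ 2 = W ζ := by
  rw [sr, ← cpow_nat_mul]
  norm_num

lemma sr_re_pos {ζ : ℂ} (hζ : ζ ∈ ball (0 : ℂ) 1) : 0 < (sr ζ).re := by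
  have h1 := (W_re_pos hζ).2
  have h0 : W ζ ≠ 0 := by intro h; rw [h] at h1; simp at h1
  rw [sr, cpow_re]
  refine mul_pos (Real.rpow_pos_of_pos (norm_pos_iff.mpr h0) _) (Real.cos_pos_of_mem_Ioo ⟨?_, ?_⟩)
  · have := abs_nonneg (arg (W ζ))
    linarith [Real.pi_pos]
  · have := abs_arg_le_pi_div_two_iff.mpr h1.le
    linarith [Real.pi_pos]

lemma sr_sector {ζ : ℂ} (hζ : ζ ∈ ball (0 : ℂ) 1) :
    0 < (sr ζ).re + (sr ζ).im ∧ 0 < (sr ζ).re - (sr ζ).im := by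
  have h1 := (W_re_pos hζ).2
  have h2 := sr_re_pos hζ
  rw [← sr_sq, sq, mul_re] at h1
  constructor <;> nlinarith

lemma sr_add_ne {ζ : ℂ} (hζ : ζ ∈ ball (0 : ℂ) 1) : sr ζ + 1 ≠ 0 := by
  intro h
  have := congrArg Complex.re h
  simp at this
  linarith [sr_re_pos hζ]

/-- conformal map of the disc onto the lens -/
noncomputable def lensφ (ζ : ℂ) : ℂ := (sr ζ - 1) / (sr ζ + 1)

lemma W_lensφ {ζ : ℂ} (hζ : ζ ∈ ball (0 : ℂ) 1) : W (lensφ ζ) = sr ζ := W_inv (sr_add_ne hζ)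

lemma hasDerivAt_W {z : ℂ} (hz : z ≠ 1) : HasDerivAt W (2 / (1 - z) ^ 2) z := by
  have h0 := one_sub_ne hz
  have h1 : HasDerivAt (fun z : ℂ => 1 + z) 1 z := by simpa using (hasDerivAt_id z).const_add 1
  have h2 : HasDerivAt (fun z : ℂ => 1 - z) (-1) z := by simpa using (hasDerivAt_id z).const_sub 1
  show HasDerivAt (fun z => (1 + z) / (1 - z)) _ z
  refine (h1.fun_div h2 h0).congr_deriv ?_
  ring

lemma hasDerivAt_lens {ζ : ℂ} (hζ : ζ ∈ ball (0 : ℂ) 1) :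
    HasDerivAt lensφ (2 / (sr ζ * (sr ζ + 1) ^ 2 * (1 - ζ) ^ 2)) ζ := by
  obtain ⟨hz1, hW⟩ := W_re_pos hζ
  have h0 := one_sub_ne hz1
  have hs := sr_add_ne hζ
  have hs0 : sr ζ ≠ 0 := by
    intro h; have := sr_re_pos hζ; rw [h] at this; simp at this
  have h1 : HasDerivAt sr (((1/2 : ℝ) : ℂ) * (W ζ) ^ ((((1/2 : ℝ) : ℂ)) - 1) * (2 / (1 - ζ) ^ 2)) ζ :=
    (hasDerivAt_W hz1).cpow_const (Or.inl hW)
  have h2 : (W ζ) ^ ((((1/2 : ℝ) : ℂ)) - 1) = (sr ζ)⁻¹ := by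
    have hW0 : W ζ ≠ 0 := by intro h; rw [h] at hW; simp at hW
    have e1 : (W ζ) ^ ((((1/2 : ℝ) : ℂ)) - 1) * sr ζ = 1 := by
      rw [sr, ← cpow_add _ _ hW0]
      have : (((1/2 : ℝ) : ℂ)) - 1 + (((1/2 : ℝ) : ℂ)) = 0 := by push_cast; ring
      rw [this, cpow_zero]
    exact eq_inv_of_mul_eq_one_left e1
  rw [h2] at h1
  show HasDerivAt (fun ζ => (sr ζ - 1) / (sr ζ + 1)) _ ζ
  refine ((h1.sub_const 1).fun_div (h1.add_const 1) hs).congr_deriv ?_
  push_cast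
  field_simp
  ring

/-- The lens `A ∩ B`. -/
noncomputable def lens : Dom where
  carrier := ball I (√2) ∩ ball (-I) (√2)
  φ := lensφ
  holo := fun _ hζ => (hasDerivAt_lens hζ).differentiableAt.differentiableWithinAt
  bij := by
    refine ⟨fun ζ hζ => ?_, fun a ha b hb h => ?_, fun z hz => ?_⟩
    · have h1 : lensφ ζ ≠ 1 := inv_ne_one (sr_add_ne hζ)
      have h2 := sr_sector hζ
      refine ⟨(mem_A_iff h1).mpr ?_, (mem_B_iff h1).mpr ?_⟩
      · rw [W_lensφ hζ]; exact h2.1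
      · rw [W_lensφ hζ]; exact h2.2
    · have h1 : sr a = sr b := by rw [← W_lensφ ha, ← W_lensφ hb, h]
      have h2 : W a = W b := by rw [← sr_sq, ← sr_sq, h1]
      rw [z_eq (W_re_pos ha).1, z_eq (W_re_pos hb).1, h2]
    · have hz1 := ne_one_A hz.1
      have hA := (mem_A_iff hz1).mp hz.1
      have hB := (mem_B_iff hz1).mp hz.2
      have hre : 0 < (W z).re := by linarith
      have hv : 0 < ((W z) ^ 2).re := by
        rw [sq, mul_re]; nlinarith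
      have hv1 : (W z) ^ 2 + 1 ≠ 0 := by
        intro h
        have := congrArg Complex.re h
        rw [add_re, one_re, zero_re] at this
        linarith
      have hW : W (((W z) ^ 2 - 1) / ((W z) ^ 2 + 1)) = (W z) ^ 2 := W_inv hv1
      have hmem : ((W z) ^ 2 - 1) / ((W z) ^ 2 + 1) ∈ ball (0 : ℂ) 1 :=
        mem_ball_of_W (inv_ne_one hv1) (by rw [hW]; exact hv)
      refine ⟨_, hmem, ?_⟩
      have hs : sr (((W z) ^ 2 - 1) / ((W z) ^ 2 + 1)) = W z := by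
        have h1 := sr_sq (((W z) ^ 2 - 1) / ((W z) ^ 2 + 1))
        have h2 := sr_re_pos hmem
        rw [hW] at h1
        rcases sq_eq_sq_iff_eq_or_eq_neg.mp h1 with h3 | h3
        · exact h3
        · exfalso
          rw [h3, neg_re] at h2
          linarith
      show (sr _ - 1) / (sr _ + 1) = z
      rw [hs]
      exact (z_eq hz1).symm
  bdd := isBounded_ball.subset inter_subset_left

lemma int_sin_half : IntervalIntegrable (fun t : ℝ => |Real.sin t| ^ (-(1/2) : ℝ)) volume 0 π := by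
  have h1 : IntervalIntegrable (fun t : ℝ => t ^ (-(1/2) : ℝ)) volume 0 π :=
    intervalIntegral.intervalIntegrable_rpow' (by norm_num)
  have h2 : IntervalIntegrable (fun t : ℝ => (π - t) ^ (-(1/2) : ℝ)) volume 0 π := by
    have := h1.comp_sub_left π
    simpa using this.symm
  have h3 : IntervalIntegrable (fun t : ℝ => (2/π) ^ (-(1/2) : ℝ) *
      (t ^ (-(1/2) : ℝ) + (π - t) ^ (-(1/2) : ℝ))) volume 0 π := (h1.add h2).const_mul _
  refine h3.mono_fun' ?_ ?_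
  · refine Measurable.aestronglyMeasurable ?_
    fun_prop
  · rw [uIoc_of_le Real.pi_pos.le]
    refine (ae_restrict_iff' measurableSet_Ioc).mpr (Eventually.of_forall fun t ht => ?_)
    simp only
    have hpi := Real.pi_pos
    have hs0 : 0 ≤ Real.sin t := Real.sin_nonneg_of_nonneg_of_le_pi ht.1.le ht.2
    rw [Real.norm_of_nonneg (by positivity), abs_of_nonneg hs0]
    have hA : 0 ≤ t ^ (-(1/2) : ℝ) := Real.rpow_nonneg ht.1.le _
    have hB : 0 ≤ (π - t) ^ (-(1/2) : ℝ) := Real.rpow_nonneg (by linarith [ht.2]) _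
    have hC : 0 ≤ (2/π) ^ (-(1/2) : ℝ) := by positivity
    rcases le_total t (π/2) with h | h
    · have h4 : 2 / π * t ≤ Real.sin t := Real.mul_le_sin ht.1.le h
      have h5 : 0 < 2 / π * t := by have := ht.1; positivity
      calc Real.sin t ^ (-(1/2) : ℝ) ≤ (2 / π * t) ^ (-(1/2) : ℝ) :=
            Real.rpow_le_rpow_of_nonpos h5 h4 (by norm_num)
        _ = (2/π) ^ (-(1/2) : ℝ) * t ^ (-(1/2) : ℝ) := Real.mul_rpow (by positivity) ht.1.le
        _ ≤ _ := by gcongr; linarith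
    · rcases eq_or_lt_of_le ht.2 with he | hl
      · rw [he, Real.sin_pi, Real.zero_rpow (by norm_num)]
        rw [he] at hA hB
        positivity
      · have h4 : 2 / π * (π - t) ≤ Real.sin t := by
          rw [← Real.sin_pi_sub]
          exact Real.mul_le_sin (by linarith) (by linarith)
        have h5 : 0 < 2 / π * (π - t) := by
          have : 0 < π - t := by linarith
          positivity
        calc Real.sin t ^ (-(1/2) : ℝ) ≤ (2 / π * (π - t)) ^ (-(1/2) : ℝ) :=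
              Real.rpow_le_rpow_of_nonpos h5 h4 (by norm_num)
          _ = (2/π) ^ (-(1/2) : ℝ) * (π - t) ^ (-(1/2) : ℝ) :=
              Real.mul_rpow (by positivity) (by linarith)
          _ ≤ _ := by gcongr; linarith

lemma int_sin : IntegrableOn (fun t : ℝ => |Real.sin t| ^ (-(1/2) : ℝ)) (Ioc 0 (2 * π)) := by
  have h1 := int_sin_half
  have h2 : IntervalIntegrable (fun t : ℝ => |Real.sin t| ^ (-(1/2) : ℝ)) volume π (2 * π) := by
    have h3 := h1.comp_sub_right π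
    rw [zero_add, ← two_mul] at h3
    refine h3.congr fun t _ => ?_
    rw [Real.sin_sub_pi, abs_neg]
  have h3 := h1.trans h2
  rwa [intervalIntegrable_iff_integrableOn_Ioc_of_le (by linarith [Real.pi_pos])] at h3

lemma circle_prod (t : ℝ) : ‖circleMap 0 1 t - 1‖ * ‖circleMap 0 1 t - (-1)‖ = 2 * |Real.sin t| := by
  have h1 : (‖circleMap 0 1 t - 1‖ * ‖circleMap 0 1 t - (-1)‖) ^ 2 = (2 * |Real.sin t|) ^ 2 := by
    rw [mul_pow, mul_pow, sq_abs, ← normSq_eq_norm_sq, ← normSq_eq_norm_sq, circleMap,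
      ofReal_one, one_mul, zero_add, exp_mul_I, ← ofReal_cos, ← ofReal_sin]
    simp only [normSq_apply, sub_re, sub_im, add_re, add_im, ofReal_re, ofReal_im, mul_re, mul_im,
      I_re, I_im, one_re, one_im, neg_re, neg_im]
    have := Real.sin_sq_add_cos_sq t
    have h2 : Real.cos t ^ 2 = 1 - Real.sin t ^ 2 := by linarith
    ring_nf
    rw [show Real.cos t ^ 4 = (Real.cos t ^ 2) ^ 2 by ring, h2]
    ring
  exact (pow_left_inj₀ (by positivity) (by positivity) two_ne_zero).mp h1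

theorem small_lens (p : ℝ≥0∞) [Fact (1 ≤ p)] (hp : p ≠ ∞) (G : ℕ → ℂ → ℂ)
    (hG : ∀ n, ∀ z ∈ lens.carrier, ‖G n z‖ ≤ beta n ‖W z‖) :
    Tendsto (fun n => lens.smirnovNorm p (G n)) atTop (𝓝 0) := by
  refine small_norm lens p hp (fun t => ENNReal.ofReal (2 * |Real.sin t| ^ (-(1/2) : ℝ))) ?_ ?_
    (fun t => 1 + 4 / ‖circleMap 0 1 t - 1‖) ?_ ?_ G hG
  · exact (int_sin.const_mul 2).lintegral_lt_top.ne
  · filter_upwards [ae_ne 1, ae_ne (-1)] with t ht1 ht2 r hr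
    set ζ : ℂ := circleMap 0 r t with hζ
    have hζb : ζ ∈ ball (0 : ℂ) 1 := Dom.mem_ball hr
    obtain ⟨hz1, hW⟩ := W_re_pos hζb
    have hd : deriv lens.φ ζ = 2 / (sr ζ * (sr ζ + 1) ^ 2 * (1 - ζ) ^ 2) :=
      (hasDerivAt_lens hζb).deriv
    rw [hd, ← ofReal_norm]
    refine ENNReal.ofReal_le_ofReal ?_
    have hm : 0 < ‖1 - ζ‖ := norm_pos_one_sub hz1
    have hz2 : 0 < ‖1 + ζ‖ := by
      rw [norm_pos_iff]
      intro h
      rw [mem_ball_zero_iff] at hζb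
      have : ζ = -1 := by linear_combination h
      rw [this] at hζb; simp at hζb
    have hsn : ‖sr ζ‖ ^ 2 = ‖1 + ζ‖ / ‖1 - ζ‖ := by
      rw [← norm_pow, sr_sq, W, norm_div]
    have hs0 : 0 < ‖sr ζ‖ := by
      rw [norm_pos_iff]; intro h
      have := sr_re_pos hζb; rw [h] at this; simp at this
    have h1 : 2 / ‖1 - ζ‖ ≤ ‖sr ζ + 1‖ ^ 2 := by
      have e1 : ‖sr ζ + 1‖ ^ 2 = ‖sr ζ‖ ^ 2 + 1 + 2 * (sr ζ).re := by
        rw [← normSq_eq_norm_sq, ← normSq_eq_norm_sq]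
        simp only [normSq_apply, add_re, add_im, one_re, one_im]
        ring
      rw [e1, hsn]
      have e2 : 2 ≤ ‖1 + ζ‖ + ‖1 - ζ‖ := by
        have := norm_add_le (1 + ζ) (1 - ζ)
        rw [show 1 + ζ + (1 - ζ) = 2 by ring] at this
        simpa using this
      have e3 : 2 / ‖1 - ζ‖ ≤ (‖1 + ζ‖ + ‖1 - ζ‖) / ‖1 - ζ‖ := by gcongr
      rw [add_div, div_self hm.ne'] at e3
      linarith [sr_re_pos hζb]
    have h2 : ‖(r : ℂ) * (2 / (sr ζ * (sr ζ + 1) ^ 2 * (1 - ζ) ^ 2))‖ ≤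
        1 / (‖sr ζ‖ * ‖1 - ζ‖) := by
      rw [norm_mul, norm_div, norm_mul, norm_mul, norm_pow, norm_pow, Complex.norm_real,
        Real.norm_eq_abs, abs_of_pos hr.1, Complex.norm_ofNat]
      have e1 : ‖sr ζ‖ * (2 / ‖1 - ζ‖) * ‖1 - ζ‖ ^ 2 ≤ ‖sr ζ‖ * ‖sr ζ + 1‖ ^ 2 * ‖1 - ζ‖ ^ 2 := by
        gcongr
      have e2 : ‖sr ζ‖ * (2 / ‖1 - ζ‖) * ‖1 - ζ‖ ^ 2 = 2 * (‖sr ζ‖ * ‖1 - ζ‖) := by
        field_simp
      rw [e2] at e1
      calc r * (2 / (‖sr ζ‖ * ‖sr ζ + 1‖ ^ 2 * ‖1 - ζ‖ ^ 2))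
          ≤ 1 * (2 / (2 * (‖sr ζ‖ * ‖1 - ζ‖))) := by
            gcongr
            exact hr.2.le
        _ = _ := by field_simp
    refine h2.trans ?_
    -- compare with sine
    have h3 : ‖sr ζ‖ * ‖1 - ζ‖ = Real.sqrt (‖1 + ζ‖ * ‖1 - ζ‖) := by
      have e1 : ‖1 + ζ‖ * ‖1 - ζ‖ = (‖sr ζ‖ * ‖1 - ζ‖) ^ 2 := by
        rw [mul_pow, hsn]; field_simp
      rw [e1, Real.sqrt_sq (by positivity)]
    rw [h3]
    have h4 := radial (ζ := 1) (by simp) hr t
    have h5 := radial (ζ := -1) (by simp) hr t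
    rw [← hζ] at h4 h5
    have h6 : ‖ζ - 1‖ = ‖1 - ζ‖ := norm_sub_rev _ _
    have h7 : ‖ζ - (-1)‖ = ‖1 + ζ‖ := by rw [sub_neg_eq_add, add_comm]
    rw [h6] at h4
    rw [h7] at h5
    have h8 := circle_prod t
    have hp1 : 0 < ‖circleMap 0 1 t - 1‖ := norm_pos_iff.mpr (sub_ne_zero.mpr ht1)
    have hp2 : 0 < ‖circleMap 0 1 t - (-1)‖ := norm_pos_iff.mpr (sub_ne_zero.mpr ht2)
    have hsin : 0 < |Real.sin t| := by
      have := mul_pos hp1 hp2
      rw [h8] at this; linarith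
    have h9 : |Real.sin t| / 4 ≤ ‖1 + ζ‖ * ‖1 - ζ‖ := by
      have : ‖circleMap 0 1 t - 1‖ * ‖circleMap 0 1 t - (-1)‖ ≤
          (2 * ‖1 - ζ‖) * (2 * ‖1 + ζ‖) := mul_le_mul h4 h5 hp2.le (by positivity)
      rw [h8] at this
      linarith
    have h10 : Real.sqrt |Real.sin t| / 2 ≤ Real.sqrt (‖1 + ζ‖ * ‖1 - ζ‖) := by
      have e1 : Real.sqrt |Real.sin t| / 2 = Real.sqrt (|Real.sin t| / 4) := by
        rw [show |Real.sin t| / 4 = |Real.sin t| / 2 ^ 2 by norm_num,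
          Real.sqrt_div' _ (by norm_num), Real.sqrt_sq (by norm_num)]
      rw [e1]
      exact Real.sqrt_le_sqrt h9
    have h11 : 0 < Real.sqrt |Real.sin t| := Real.sqrt_pos.mpr hsin
    calc 1 / Real.sqrt (‖1 + ζ‖ * ‖1 - ζ‖) ≤ 1 / (Real.sqrt |Real.sin t| / 2) := by
          gcongr
      _ = 2 * |Real.sin t| ^ (-(1/2) : ℝ) := by
          rw [Real.rpow_neg hsin.le, ← Real.sqrt_eq_rpow]
          field_simp
  · exact measurable_const.add (measurable_const.div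
      ((continuous_circleMap 0 1).sub continuous_const).norm.measurable)
  · filter_upwards [ae_ne 1] with t ht r hr
    set ζ : ℂ := circleMap 0 r t with hζ
    have hζb : ζ ∈ ball (0 : ℂ) 1 := Dom.mem_ball hr
    obtain ⟨hz1, hW⟩ := W_re_pos hζb
    have hm : 0 < ‖1 - ζ‖ := norm_pos_one_sub hz1
    have h0 : W (lens.φ ζ) = sr ζ := W_lensφ hζb
    rw [h0]
    have hsn : ‖sr ζ‖ ^ 2 = ‖1 + ζ‖ / ‖1 - ζ‖ := by
      rw [← norm_pow, sr_sq, W, norm_div]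
    have h4 := radial (ζ := 1) (by simp) hr t
    rw [← hζ, norm_sub_rev ζ 1] at h4
    have hp1 : 0 < ‖circleMap 0 1 t - 1‖ := norm_pos_iff.mpr (sub_ne_zero.mpr ht)
    have h5 : ‖1 + ζ‖ ≤ 2 := by
      rw [mem_ball_zero_iff] at hζb
      refine (norm_add_le _ _).trans ?_
      rw [norm_one]; linarith
    have h6 : ‖1 + ζ‖ / ‖1 - ζ‖ ≤ 4 / ‖circleMap 0 1 t - 1‖ := by
      rw [div_le_div_iff₀ hm hp1]
      nlinarith [norm_nonneg (1 + ζ)]
    nlinarith [sq_nonneg (‖sr ζ‖ - 1)]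

end MP9788a7
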