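import Pool.Agent.Lib_MP_9788a7_an.Core2
import Pool.Agent.Lib_MP_9788a7_an.Lens

open MeasureTheory Set Metric Filter Topology Complex
open scoped ENNReal Real

namespace MP9788a7

/-- Bounded analytic functions give elements of the Smirnov space. -/
structure Good (D : Dom) (F : ℂ → ℂ) : Prop where
  diff : DifferentiableOn ℂ F D.carrier
  bound : ∃ K : ℝ, ∀ z ∈ D.carrier, ‖F z‖ ≤ K

/-- small functions have small norm -/
def SmallProp (D : Dom) (p : ℝ≥0∞) : Prop :=
  ∀ G : ℕ → ℂ → ℂ, (∀ n, ∀ z ∈ D.carrier, ‖G n z‖ ≤ beta n ‖W z‖) →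
    Tendsto (fun n => D.smirnovNorm p (G n)) atTop (𝓝 0)

lemma SmallProp.one_fin {D : Dom} {p : ℝ≥0∞} (h : SmallProp D p) :
    D.smirnovNorm p (fun _ => 1) < ∞ := by
  have h1 := h (fun n _ => 1 / ((n : ℂ) + 1)) (fun n z _ => by
    have e1 : ‖(1 : ℂ) / ((n : ℂ) + 1)‖ = 1 / ((n : ℝ) + 1) := by
      rw [norm_div, norm_one]
      congr 1
      have : ((n : ℂ) + 1) = (((n : ℝ) + 1 : ℝ) : ℂ) := by push_cast; ring
      rw [this, Complex.norm_real, Real.norm_eq_abs, abs_of_pos (by positivity)]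
    rw [e1, beta]
    have h2 : 0 ≤ min 1 ((1 + 2 * ‖W z‖) / ((n : ℝ) + 1)) := by positivity
    linarith)
  obtain ⟨n, hn⟩ := (h1.eventually (gt_mem_nhds (show (0 : ℝ≥0∞) < 1 from one_pos))).exists
  have h3 := D.smirnovNorm_smul_le p ((n : ℂ) + 1) (fun _ => 1 / ((n : ℂ) + 1))
  have h4 : ((n : ℂ) + 1) • (fun _ : ℂ => 1 / ((n : ℂ) + 1)) = fun _ => 1 := by
    funext z
    have : ((n : ℂ) + 1) ≠ 0 := by exact_mod_cast Nat.succ_ne_zero n
    rw [Pi.smul_apply, smul_eq_mul, mul_one_div, div_self this]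
  rw [h4] at h3
  exact h3.trans_lt (ENNReal.mul_lt_top enorm_lt_top (hn.trans ENNReal.one_lt_top))

section mk

variable {D : Dom} {p : ℝ≥0∞} [Fact (1 ≤ p)]

omit [Fact (1 ≤ p)] in
lemma smirnovNorm_congr {F G : ℂ → ℂ} (h : EqOn F G D.carrier) :
    D.smirnovNorm p F = D.smirnovNorm p G := by
  unfold Dom.smirnovNorm
  refine iSup_congr fun r => iSup_congr fun hr => ?_
  congr 1
  funext t
  exact h (D.bij.mapsTo (Dom.mem_ball hr))

open Classical in
/-- the element of the Smirnov space given by a bounded analytic function -/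
noncomputable def mkS (h1 : SmallProp D p) (F : ℂ → ℂ) (hF : Good D F) : Smirnov D p :=
  (⟨D.carrier.indicator F, by
    refine ⟨hF.diff.congr fun z hz => indicator_of_mem hz F, fun z hz =>
      indicator_of_notMem hz F, ?_⟩
    rw [smirnovNorm_congr (D := D) (p := p) (G := F) fun z hz => indicator_of_mem hz F]
    obtain ⟨K, hK⟩ := hF.bound
    have h2 : F = F * (fun _ => 1) := by funext z; simp
    rw [h2]
    exact (D.smirnovNorm_mul_le p hK).trans_lt (ENNReal.mul_lt_top ENNReal.ofReal_lt_top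
      h1.one_fin)⟩ : smirnovSub D p)

lemma mkS_fn (h1 : SmallProp D p) (F : ℂ → ℂ) (hF : Good D F) :
    (mkS h1 F hF).fn = D.carrier.indicator F := rfl

lemma mkS_fn_mem (h1 : SmallProp D p) (F : ℂ → ℂ) (hF : Good D F) {z : ℂ} (hz : z ∈ D.carrier) :
    (mkS h1 F hF).fn z = F z := by rw [mkS_fn, indicator_of_mem hz]

lemma ext_on {f g : Smirnov D p} (h : EqOn f.fn g.fn D.carrier) : f = g := by
  apply Smirnov.ext_fn
  funext z
  by_cases hz : z ∈ D.carrier
  · exact h hz
  · rw [f.off hz, g.off hz]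

lemma tendsto_of_small (h1 : SmallProp D p) (f : Smirnov D p) (g : ℕ → Smirnov D p)
    (h : ∀ n, ∀ z ∈ D.carrier, ‖(g n).fn z - f.fn z‖ ≤ beta n ‖W z‖) :
    Tendsto g atTop (𝓝 f) := by
  rw [tendsto_iff_norm_sub_tendsto_zero]
  have h2 := h1 (fun n => (g n - f).fn) (fun n z hz => by
    rw [Smirnov.fn_sub, Pi.sub_apply]; exact h n z hz)
  have h3 := (ENNReal.tendsto_toReal ENNReal.zero_ne_top).comp h2
  exact h3

end mk

lemma good_one (D : Dom) : Good D (fun _ => 1) :=
  ⟨differentiableOn_const 1, 1, fun _ _ => by rw [norm_one]⟩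

lemma good_poly (D : Dom) (P : Polynomial ℂ) : Good D (fun z => P.eval z) := by
  refine ⟨P.differentiable.differentiableOn, ?_⟩
  obtain ⟨K, -, hK⟩ := D.exists_bound
  have h1 : IsCompact (closedBall (0 : ℂ) K) := isCompact_closedBall _ _
  obtain ⟨M, hM⟩ := h1.exists_bound_of_continuousOn (P.continuous.continuousOn)
  exact ⟨M, fun z hz => hM z (mem_closedBall_zero_iff.mpr (hK z hz))⟩

lemma Good.mul {D : Dom} {F G : ℂ → ℂ} (hF : Good D F) (hG : Good D G) :
    Good D (fun z => F z * G z) := by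
  obtain ⟨K, hK⟩ := hF.bound
  obtain ⟨M, hM⟩ := hG.bound
  refine ⟨hF.diff.mul hG.diff, K * M, fun z hz => ?_⟩
  rw [norm_mul]
  exact mul_le_mul (hK z hz) (hM z hz) (norm_nonneg _) ((norm_nonneg _).trans (hK z hz))

lemma Good.add {D : Dom} {F G : ℂ → ℂ} (hF : Good D F) (hG : Good D G) :
    Good D (fun z => F z + G z) := by
  obtain ⟨K, hK⟩ := hF.bound
  obtain ⟨M, hM⟩ := hG.bound
  refine ⟨hF.diff.add hG.diff, K + M, fun z hz => ?_⟩
  exact (norm_add_le _ _).trans (add_le_add (hK z hz) (hM z hz))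

/-- the first disc -/
noncomputable def dA : Dom := disc I (√2) (by positivity)
/-- the second disc -/
noncomputable def dB : Dom := disc (-I) (√2) (by positivity)

lemma dA_carrier : dA.carrier = ball I (√2) := rfl
lemma dB_carrier : dB.carrier = ball (-I) (√2) := rfl
lemma lens_carrier : lens.carrier = ball I (√2) ∩ ball (-I) (√2) := rfl

lemma norm_one_sub_I : ‖(1 : ℂ) - I‖ = √2 := by
  rw [norm_def, normSq_apply]; norm_num

lemma norm_one_sub_neg_I : ‖(1 : ℂ) - -I‖ = √2 := by
  rw [norm_def, normSq_apply]; norm_num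

lemma small_A (p : ℝ≥0∞) [Fact (1 ≤ p)] (hp : p ≠ ∞) : SmallProp dA p := fun G hG =>
  small_disc I norm_one_sub_I (by rw [norm_I]) p hp G hG

lemma small_B (p : ℝ≥0∞) [Fact (1 ≤ p)] (hp : p ≠ ∞) : SmallProp dB p := fun G hG =>
  small_disc (-I) norm_one_sub_neg_I (by rw [norm_neg, norm_I]) p hp G hG

lemma small_C (p : ℝ≥0∞) [Fact (1 ≤ p)] (hp : p ≠ ∞) : SmallProp lens p := fun G hG =>
  small_lens p hp G hG

lemma good_theta_A : Good dA theta := by
  refine ⟨fun z hz => (differentiableAt_theta (ne_one_A hz) (sum_pos_A hz)).differentiableWithinAt,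
    1, fun z hz => norm_theta_le (sum_pos_A hz).le⟩

lemma good_theta_B : Good dB theta := by
  refine ⟨fun z hz => (differentiableAt_theta (ne_one_B hz) (sum_pos_B hz)).differentiableWithinAt,
    1, fun z hz => norm_theta_le (sum_pos_B hz).le⟩

lemma good_theta_C : Good lens theta := by
  refine ⟨good_theta_A.diff.mono inter_subset_left, 1, fun z hz => norm_theta_le
    (sum_pos_A hz.1).le⟩

lemma norm_exp_sq_le {w : ℂ} (h : 0 ≤ w.re ^ 2 - w.im ^ 2) : ‖cexp (-w ^ 2)‖ ≤ 1 := by
  rw [norm_exp]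
  refine Real.exp_le_one_iff.mpr ?_
  rw [neg_re, sq, mul_re]
  nlinarith

lemma good_u : Good dA (fun z => uF (W z)) := by
  refine ⟨fun z hz => ((differentiable_uF _).comp z
    (differentiableAt_W (ne_one_A hz))).differentiableWithinAt, 3/2, fun z hz => ?_⟩
  rcases le_total 0 (W z).im with h | h
  · exact (norm_uF_le h).trans (by norm_num)
  · have h1 : 0 < (W z).re + (W z).im := (mem_A_iff (ne_one_A hz)).mp hz
    have h2 := uF_add (W z)
    have h3 : ‖vF (W z)‖ ≤ 1 / 2 := by
      rw [vF, norm_neg]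
      exact norm_uF_le (by rw [neg_im]; linarith)
    have h4 : ‖cexp (-(W z) ^ 2)‖ ≤ 1 := norm_exp_sq_le (by nlinarith)
    have h5 : uF (W z) = vF (W z) + cexp (-(W z) ^ 2) := by rw [← h2]; ring
    rw [h5]
    refine (norm_add_le _ _).trans ?_
    linarith

lemma good_v : Good dB (fun z => vF (W z)) := by
  refine ⟨fun z hz => ?_, 3/2, fun z hz => ?_⟩
  · have h1 : DifferentiableAt ℂ vF (W z) := by
      have : vF = fun w => - uF (-w) := rfl
      rw [this]
      exact ((differentiable_uF _).comp (W z) differentiableAt_id.neg).neg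
    exact (h1.comp z (differentiableAt_W (ne_one_B hz))).differentiableWithinAt
  rcases le_total (W z).im 0 with h | h
  · rw [vF, norm_neg]
    exact (norm_uF_le (by rw [neg_im]; linarith)).trans (by norm_num)
  · have h1 : 0 < (W z).re - (W z).im := (mem_B_iff (ne_one_B hz)).mp hz
    have h2 := uF_add (W z)
    have h3 : ‖uF (W z)‖ ≤ 1 / 2 := norm_uF_le h
    have h4 : ‖cexp (-(W z) ^ 2)‖ ≤ 1 := norm_exp_sq_le (by nlinarith)
    have h5 : vF (W z) = uF (W z) - cexp (-(W z) ^ 2) := by rw [← h2]; ring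
    rw [h5]
    refine (norm_sub_le _ _).trans ?_
    linarith

abbrev PP := Polynomial ℂ × Polynomial ℂ

lemma good_LA (x : PP) : Good dA (fun z => theta z * (x.1.eval z + x.2.eval z * uF (W z))) :=
  good_theta_A.mul ((good_poly dA x.1).add ((good_poly dA x.2).mul good_u))

lemma good_LB (x : PP) : Good dB (fun z => theta z * (x.1.eval z + x.2.eval z * vF (W z))) :=
  good_theta_B.mul ((good_poly dB x.1).add ((good_poly dB x.2).mul good_v))

section main

variable (p : ℝ≥0∞) [Fact (1 ≤ p)] (hp : p ≠ ∞)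

/-- first component -/
noncomputable def LA : PP →ₗ[ℂ] Smirnov dA p where
  toFun := fun x => mkS (small_A p hp) _ (good_LA x)
  map_add' := by
    intro x y
    apply ext_on
    intro z hz
    rw [Smirnov.fn_add, Pi.add_apply, mkS_fn_mem _ _ _ hz, mkS_fn_mem _ _ _ hz,
      mkS_fn_mem _ _ _ hz, Prod.fst_add, Prod.snd_add, Polynomial.eval_add, Polynomial.eval_add]
    ring
  map_smul' := by
    intro c x
    apply ext_on
    intro z hz
    rw [RingHom.id_apply, Smirnov.fn_smul, Pi.smul_apply, mkS_fn_mem _ _ _ hz,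
      mkS_fn_mem _ _ _ hz, Prod.smul_fst, Prod.smul_snd, Polynomial.eval_smul,
      Polynomial.eval_smul, smul_eq_mul, smul_eq_mul, smul_eq_mul]
    ring

/-- second component -/
noncomputable def LB : PP →ₗ[ℂ] Smirnov dB p where
  toFun := fun x => mkS (small_B p hp) _ (good_LB x)
  map_add' := by
    intro x y
    apply ext_on
    intro z hz
    rw [Smirnov.fn_add, Pi.add_apply, mkS_fn_mem _ _ _ hz, mkS_fn_mem _ _ _ hz,
      mkS_fn_mem _ _ _ hz, Prod.fst_add, Prod.snd_add, Polynomial.eval_add, Polynomial.eval_add]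
    ring
  map_smul' := by
    intro c x
    apply ext_on
    intro z hz
    rw [RingHom.id_apply, Smirnov.fn_smul, Pi.smul_apply, mkS_fn_mem _ _ _ hz,
      mkS_fn_mem _ _ _ hz, Prod.smul_fst, Prod.smul_snd, Polynomial.eval_smul,
      Polynomial.eval_smul, smul_eq_mul, smul_eq_mul, smul_eq_mul]
    ring

/-- both components -/
noncomputable def L : PP →ₗ[ℂ] EP dA dB p where
  toFun := fun x => (LA p hp x, LB p hp x)
  map_add' := fun x y => Prod.ext (map_add (LA p hp) x y) (map_add (LB p hp) x y)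
  map_smul' := fun c x => Prod.ext (map_smul (LA p hp) c x) (map_smul (LB p hp) c x)

lemma LA_fn (x : PP) {z : ℂ} (hz : z ∈ ball I (√2)) :
    (L p hp x).fst.fn z = theta z * (x.1.eval z + x.2.eval z * uF (W z)) :=
  mkS_fn_mem (small_A p hp) _ (good_LA x) hz

lemma LB_fn (x : PP) {z : ℂ} (hz : z ∈ ball (-I) (√2)) :
    (L p hp x).snd.fn z = theta z * (x.1.eval z + x.2.eval z * vF (W z)) :=
  mkS_fn_mem (small_B p hp) _ (good_LB x) hz

lemma opM_L (x : PP) : opM dA dB p (L p hp x) =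
    L p hp (Polynomial.X * x.1, Polynomial.X * x.2) := by
  refine Prod.ext ?_ ?_
  · apply ext_on
    intro z hz
    show z * (L p hp x).fst.fn z = (L p hp (Polynomial.X * x.1, Polynomial.X * x.2)).fst.fn z
    rw [LA_fn p hp _ hz, LA_fn p hp _ hz, Polynomial.eval_mul, Polynomial.eval_mul,
      Polynomial.eval_X]
    ring
  · apply ext_on
    intro z hz
    show z * (L p hp x).snd.fn z = (L p hp (Polynomial.X * x.1, Polynomial.X * x.2)).snd.fn z
    rw [LB_fn p hp _ hz, LB_fn p hp _ hz, Polynomial.eval_mul, Polynomial.eval_mul,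
      Polynomial.eval_X]
    ring

/-- the invariant subspace -/
noncomputable def EE : Submodule ℂ (EP dA dB p) :=
  (LinearMap.range (L p hp)).topologicalClosure

lemma mem_EE {f : EP dA dB p} :
    f ∈ EE p hp ↔ f ∈ closure (LinearMap.range (L p hp) : Set (EP dA dB p)) :=
  Iff.rfl

lemma L_mem (x : PP) : L p hp x ∈ EE p hp :=
  (mem_EE p hp).mpr (subset_closure ⟨x, rfl⟩)

lemma EE_lat : IsLat (opM dA dB p) (EE p hp) := by
  refine ⟨Submodule.isClosed_topologicalClosure _, ?_⟩
  intro f hf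
  rw [mem_EE] at hf ⊢
  refine map_mem_closure (opM dA dB p).continuous hf ?_
  rintro _ ⟨x, rfl⟩
  exact ⟨_, (opM_L p hp x).symm⟩

/-- evaluation functional on the first component -/
noncomputable def evA (lam : ℂ) (hl : lam ∈ ball I (√2)) : Smirnov dA p →L[ℂ] ℂ :=
  LinearMap.mkContinuousOfExistsBound
    { toFun := fun f => f.fn lam
      map_add' := fun _ _ => rfl
      map_smul' := fun _ _ => rfl }
    (by
      obtain ⟨K, hK, hb⟩ := disc_bound I (√2) (by positivity) p
      have hd : 0 < √2 - ‖lam - I‖ := by rw [mem_ball_iff_norm] at hl; linarith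
      refine ⟨K / (√2 - ‖lam - I‖), fun f => ?_⟩
      rw [div_mul_eq_mul_div, le_div_iff₀ hd]
      exact hb f lam hl)

/-- evaluation functional on the second component -/
noncomputable def evB (lam : ℂ) (hl : lam ∈ ball (-I) (√2)) : Smirnov dB p →L[ℂ] ℂ :=
  LinearMap.mkContinuousOfExistsBound
    { toFun := fun f => f.fn lam
      map_add' := fun _ _ => rfl
      map_smul' := fun _ _ => rfl }
    (by
      obtain ⟨K, hK, hb⟩ := disc_bound (-I) (√2) (by positivity) p
      have hd : 0 < √2 - ‖lam - (-I)‖ := by rw [mem_ball_iff_norm] at hl; linarith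
      refine ⟨K / (√2 - ‖lam - (-I)‖), fun f => ?_⟩
      rw [div_mul_eq_mul_div, le_div_iff₀ hd]
      exact hb f lam hl)

lemma evA_apply (lam : ℂ) (hl : lam ∈ ball I (√2)) (f : Smirnov dA p) :
    evA p lam hl f = f.fn lam := rfl

lemma evB_apply (lam : ℂ) (hl : lam ∈ ball (-I) (√2)) (f : Smirnov dB p) :
    evB p lam hl f = f.fn lam := rfl

/-- the two generators -/
noncomputable def g1 : EE p hp := ⟨L p hp (1, 0), L_mem p hp _⟩
/-- the two generators -/
noncomputable def g2 : EE p hp := ⟨L p hp (0, 1), L_mem p hp _⟩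

/-- element of the range, as an element of `EE` -/
noncomputable def LE (x : PP) : EE p hp := ⟨L p hp x, L_mem p hp x⟩

lemma LE_add (x y : PP) : LE p hp (x + y) = LE p hp x + LE p hp y :=
  Subtype.ext (map_add (L p hp) x y)

lemma LE_smul (c : ℂ) (x : PP) : LE p hp (c • x) = c • LE p hp x :=
  Subtype.ext (map_smul (L p hp) c x)

lemma kerAdj_X {lam : ℂ} {ψ : EE p hp →L[ℂ] ℂ} (hψ : ψ ∈ kerAdj (opM dA dB p) (EE p hp) lam) (x : PP) :
    ψ (LE p hp (Polynomial.X * x.1, Polynomial.X * x.2)) = lam * ψ (LE p hp x) := by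
  refine hψ (LE p hp x) _ ?_
  exact (opM_L p hp x).symm

lemma kerAdj_left {lam : ℂ} {ψ : EE p hp →L[ℂ] ℂ} (hψ : ψ ∈ kerAdj (opM dA dB p) (EE p hp) lam)
    (P : Polynomial ℂ) : ψ (LE p hp (P, 0)) = P.eval lam * ψ (LE p hp (1, 0)) := by
  induction P using Polynomial.induction_on with
  | C a =>
    have : ((Polynomial.C a, 0) : PP) = a • (1, 0) := by
      ext1
      · rw [Prod.smul_fst, Polynomial.smul_eq_C_mul, mul_one]
      · rw [Prod.smul_snd, smul_zero]
    rw [this, LE_smul, map_smul, Polynomial.eval_C, smul_eq_mul]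
  | add P Q hP hQ =>
    have : ((P + Q, 0) : PP) = (P, 0) + (Q, 0) := by
      rw [Prod.mk_add_mk, add_zero]
    rw [this, LE_add, map_add, hP, hQ, Polynomial.eval_add]
    ring
  | monomial n a ih =>
    have h1 := kerAdj_X p hp hψ (Polynomial.C a * Polynomial.X ^ n, 0)
    have h2 : ((Polynomial.C a * Polynomial.X ^ (n + 1), 0) : PP) =
        (Polynomial.X * (Polynomial.C a * Polynomial.X ^ n), Polynomial.X * 0) := by
      ext1
      · simp only; ring
      · simp
    rw [h2]
    simp only at h1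
    rw [h1, ih]
    simp only [Polynomial.eval_mul, Polynomial.eval_pow, Polynomial.eval_X, Polynomial.eval_C]
    ring

lemma kerAdj_right {lam : ℂ} {ψ : EE p hp →L[ℂ] ℂ} (hψ : ψ ∈ kerAdj (opM dA dB p) (EE p hp) lam)
    (P : Polynomial ℂ) : ψ (LE p hp (0, P)) = P.eval lam * ψ (LE p hp (0, 1)) := by
  induction P using Polynomial.induction_on with
  | C a =>
    have : ((0, Polynomial.C a) : PP) = a • (0, 1) := by
      ext1
      · rw [Prod.smul_fst, smul_zero]
      · rw [Prod.smul_snd, Polynomial.smul_eq_C_mul, mul_one]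
    rw [this, LE_smul, map_smul, Polynomial.eval_C, smul_eq_mul]
  | add P Q hP hQ =>
    have : ((0, P + Q) : PP) = (0, P) + (0, Q) := by
      rw [Prod.mk_add_mk, add_zero]
    rw [this, LE_add, map_add, hP, hQ, Polynomial.eval_add]
    ring
  | monomial n a ih =>
    have h1 := kerAdj_X p hp hψ (0, Polynomial.C a * Polynomial.X ^ n)
    have h2 : ((0, Polynomial.C a * Polynomial.X ^ (n + 1)) : PP) =
        (Polynomial.X * 0, Polynomial.X * (Polynomial.C a * Polynomial.X ^ n)) := by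
      ext1
      · simp
      · simp only; ring
    rw [h2]
    simp only at h1
    rw [h1, ih]
    simp only [Polynomial.eval_mul, Polynomial.eval_pow, Polynomial.eval_X, Polynomial.eval_C]
    ring

lemma kerAdj_L {lam : ℂ} {ψ : EE p hp →L[ℂ] ℂ} (hψ : ψ ∈ kerAdj (opM dA dB p) (EE p hp) lam) (x : PP) :
    ψ (LE p hp x) = x.1.eval lam * ψ (LE p hp (1, 0)) + x.2.eval lam * ψ (LE p hp (0, 1)) := by
  have : x = (x.1, 0) + (0, x.2) := by
    rw [Prod.mk_add_mk, add_zero, zero_add]
  conv_lhs => rw [this, LE_add, map_add, kerAdj_left p hp hψ, kerAdj_right p hp hψ]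

/-- values at the generators -/
noncomputable def TT (lam : ℂ) : kerAdj (opM dA dB p) (EE p hp) lam →ₗ[ℂ] ℂ × ℂ where
  toFun := fun ψ => (ψ.1 (LE p hp (1, 0)), ψ.1 (LE p hp (0, 1)))
  map_add' := fun _ _ => rfl
  map_smul' := fun _ _ => rfl

lemma TT_inj (lam : ℂ) : Function.Injective (TT p hp lam) := by
  rintro ⟨ψ, hψ⟩ ⟨ψ', hψ'⟩ h
  have h1 : ψ (LE p hp (1, 0)) = ψ' (LE p hp (1, 0)) := congrArg Prod.fst h
  have h2 : ψ (LE p hp (0, 1)) = ψ' (LE p hp (0, 1)) := congrArg Prod.snd h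
  apply Subtype.ext
  show ψ = ψ'
  ext f
  have hf : f ∈ closure (Set.range (LE p hp)) := by
    rw [closure_subtype]
    have e1 : ((↑) : EE p hp → _) '' Set.range (LE p hp) =
        (LinearMap.range (L p hp) : Set (EP dA dB p)) := by
      ext g
      constructor
      · rintro ⟨_, ⟨x, rfl⟩, rfl⟩
        exact ⟨x, rfl⟩
      · rintro ⟨x, rfl⟩
        exact ⟨_, ⟨x, rfl⟩, rfl⟩
    rw [e1]
    exact f.2
  have h3 : Set.range (LE p hp) ⊆ {f | ψ f = ψ' f} := by
    rintro _ ⟨x, rfl⟩
    show ψ (LE p hp x) = ψ' (LE p hp x)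
    rw [kerAdj_L p hp hψ, kerAdj_L p hp hψ', h1, h2]
  exact closure_minimal h3 (isClosed_eq ψ.continuous ψ'.continuous) hf

lemma TT_surj {lam : ℂ} (hA : lam ∈ ball I (√2)) (hB : lam ∈ ball (-I) (√2)) :
    Function.Surjective (TT p hp lam) := by
  rintro ⟨a, b⟩
  have hth := theta_ne_zero lam
  set S := cexp (-(W lam) ^ 2) with hS
  have hS0 : S ≠ 0 := exp_ne_zero _
  have huv : uF (W lam) - vF (W lam) = S := uF_add (W lam)
  set u := uF (W lam) with hu
  set v := vF (W lam) with hv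
  set x := (b - a * v) / (theta lam * S) with hx
  set y := (a * u - b) / (theta lam * S) with hy
  let ψA : (EP dA dB p) →L[ℂ] ℂ :=
    (evA p lam hA).comp (ContinuousLinearMap.fst ℂ (Smirnov dA p) (Smirnov dB p))
  let ψB : (EP dA dB p) →L[ℂ] ℂ :=
    (evB p lam hB).comp (ContinuousLinearMap.snd ℂ (Smirnov dA p) (Smirnov dB p))
  let ψ0 : (EP dA dB p) →L[ℂ] ℂ := x • ψA + y • ψB
  have hψ0 : ∀ f, ψ0 f = x * f.fst.fn lam + y * f.snd.fn lam := fun f => rfl
  let ψ : EE p hp →L[ℂ] ℂ := ψ0.comp (EE p hp).subtypeL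
  have hψ : ∀ f : EE p hp, ψ f = x * f.1.fst.fn lam + y * f.1.snd.fn lam := fun f => rfl
  have hmem : ψ ∈ kerAdj (opM dA dB p) (EE p hp) lam := by
    intro f g hg
    rw [hψ, hψ, hg]
    have e1 : (opM dA dB p f).fst.fn lam = lam * f.1.fst.fn lam := rfl
    have e2 : (opM dA dB p f).snd.fn lam = lam * f.1.snd.fn lam := rfl
    rw [e1, e2]
    ring
  refine ⟨⟨ψ, hmem⟩, Prod.ext ?_ ?_⟩
  · show ψ (LE p hp (1, 0)) = a
    rw [hψ]
    have e1 : (LE p hp (1, 0)).1.fst.fn lam = theta lam := by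
      rw [show (LE p hp (1, 0)).1 = L p hp (1, 0) from rfl, LA_fn p hp _ hA]
      simp
    have e2 : (LE p hp (1, 0)).1.snd.fn lam = theta lam := by
      rw [show (LE p hp (1, 0)).1 = L p hp (1, 0) from rfl, LB_fn p hp _ hB]
      simp
    rw [e1, e2, hx, hy]
    field_simp
    linear_combination a * huv
  · show ψ (LE p hp (0, 1)) = b
    rw [hψ]
    have e1 : (LE p hp (0, 1)).1.fst.fn lam = theta lam * u := by
      rw [show (LE p hp (0, 1)).1 = L p hp (0, 1) from rfl, LA_fn p hp _ hA]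
      simp [hu]
    have e2 : (LE p hp (0, 1)).1.snd.fn lam = theta lam * v := by
      rw [show (LE p hp (0, 1)).1 = L p hp (0, 1) from rfl, LB_fn p hp _ hB]
      simp [hv]
    rw [e1, e2, hx, hy]
    field_simp
    linear_combination b * huv

lemma rank_two {lam : ℂ} (hA : lam ∈ ball I (√2)) (hB : lam ∈ ball (-I) (√2)) :
    rankFn (opM dA dB p) (EE p hp) lam = 2 := by
  have h1 := (LinearEquiv.ofBijective (TT p hp lam) ⟨TT_inj p hp lam, TT_surj p hp hA hB⟩).finrank_eq
  rw [rankFn, h1, Module.finrank_prod, Module.finrank_self]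

/-- the pair of constant functions -/
noncomputable def oneAB : EP dA dB p :=
  (mkS (small_A p hp) _ (good_one dA), mkS (small_B p hp) _ (good_one dB))

lemma one_traceA : (oneAB p hp).fst ∈ traceA (EE p hp) := by
  choose P hP using approxA
  have h1 : Tendsto (fun n => (L p hp (P n, 0)).fst) atTop (𝓝 (oneAB p hp).fst) := by
    refine tendsto_of_small (small_A p hp) _ _ fun n z hz => ?_
    have e1 : (oneAB p hp).fst.fn z = 1 := mkS_fn_mem (small_A p hp) _ (good_one dA) hz
    rw [LA_fn p hp _ hz, e1, Polynomial.eval_zero, zero_mul, add_zero]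
    exact hP n z hz
  exact mem_closure_of_tendsto h1 (Eventually.of_forall fun n => ⟨_, L_mem p hp _, rfl⟩)

lemma one_traceB : (oneAB p hp).snd ∈ traceB (EE p hp) := by
  choose P hP using approxB
  have h1 : Tendsto (fun n => (L p hp (P n, 0)).snd) atTop (𝓝 (oneAB p hp).snd) := by
    refine tendsto_of_small (small_B p hp) _ _ fun n z hz => ?_
    have e1 : (oneAB p hp).snd.fn z = 1 := mkS_fn_mem (small_B p hp) _ (good_one dB) hz
    rw [LB_fn p hp _ hz, e1, Polynomial.eval_zero, zero_mul, add_zero]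
    exact hP n z hz
  exact mem_closure_of_tendsto h1 (Eventually.of_forall fun n => ⟨_, L_mem p hp _, rfl⟩)

/-- the constant function on the lens -/
noncomputable def oneC : Smirnov lens p := mkS (small_C p hp) _ (good_one lens)

lemma one_traceC : (oneC p hp, oneC p hp) ∈ traceC lens (EE p hp) := by
  choose P hP using approxA
  have hg : ∀ n, Good lens (fun z => theta z * (P n).eval z) := fun n =>
    good_theta_C.mul (good_poly lens (P n))
  have h1 : Tendsto (fun n => mkS (small_C p hp) _ (hg n)) atTop (𝓝 (oneC p hp)) := by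
    refine tendsto_of_small (small_C p hp) _ _ fun n z hz => ?_
    have e1 : (oneC p hp).fn z = 1 := mkS_fn_mem (small_C p hp) _ (good_one lens) hz
    rw [mkS_fn_mem _ _ _ hz, e1]
    exact hP n z hz.1
  have h2 : Tendsto (fun n => (mkS (small_C p hp) _ (hg n), mkS (small_C p hp) _ (hg n))) atTop
      (𝓝 (oneC p hp, oneC p hp)) := h1.prodMk_nhds h1
  refine mem_closure_of_tendsto h2 (Eventually.of_forall fun n => ?_)
  refine ⟨L p hp (P n, 0), L_mem p hp _, fun z hz => ?_, fun z hz => ?_⟩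
  · show (mkS (small_C p hp) _ (hg n)).fn z = (L p hp (P n, 0)).fst.fn z
    rw [mkS_fn_mem _ _ _ hz, LA_fn p hp _ hz.1, Polynomial.eval_zero, zero_mul, add_zero]
  · show (mkS (small_C p hp) _ (hg n)).fn z = (L p hp (P n, 0)).snd.fn z
    rw [mkS_fn_mem _ _ _ hz, LB_fn p hp _ hz.2, Polynomial.eval_zero, zero_mul, add_zero]

lemma one_standard : oneAB p hp ∈ standard lens (EE p hp) := by
  refine ⟨one_traceA p hp, one_traceB p hp, _, one_traceC p hp, fun z hz => ?_, fun z hz => ?_⟩
  · have e1 : (oneAB p hp).fst.fn z = 1 := mkS_fn_mem (small_A p hp) _ (good_one dA) hz.1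
    have e2 : (oneC p hp).fn z = 1 := mkS_fn_mem (small_C p hp) _ (good_one lens) hz
    rw [e1]; exact e2
  · have e1 : (oneAB p hp).snd.fn z = 1 := mkS_fn_mem (small_B p hp) _ (good_one dB) hz.2
    have e2 : (oneC p hp).fn z = 1 := mkS_fn_mem (small_C p hp) _ (good_one lens) hz
    rw [e1]; exact e2

lemma one_notMem : oneAB p hp ∉ EE p hp := by
  intro h
  rw [mem_EE, Metric.mem_closure_iff] at h
  obtain ⟨η, hη, hcore⟩ := core
  obtain ⟨KA, hKA, hbA⟩ := disc_bound I (√2) (by positivity) p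
  obtain ⟨KB, hKB, hbB⟩ := disc_bound (-I) (√2) (by positivity) p
  obtain ⟨_, ⟨x, rfl⟩, hx⟩ := h (η / (KA + KB)) (by positivity)
  rw [dist_comm, dist_eq_norm] at hx
  have hx' : (KA + KB) * ‖L p hp x - oneAB p hp‖ ≤ η := by
    rw [lt_div_iff₀ (by positivity)] at hx
    linarith
  refine hcore x.1 x.2 ⟨fun z hz => ?_, fun z hz => ?_⟩
  · have h1 : ‖(L p hp x - oneAB p hp).fst.fn z‖ * (√2 - ‖z - I‖) ≤
        KA * ‖(L p hp x - oneAB p hp).fst‖ := hbA (L p hp x - oneAB p hp).fst z hz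
    have e1 : (oneAB p hp).fst.fn z = 1 := mkS_fn_mem (small_A p hp) _ (good_one dA) hz
    have e2 : (L p hp x - oneAB p hp).fst.fn z =
        theta z * (x.1.eval z + x.2.eval z * uF (W z)) - 1 := by
      have e3 : (L p hp x - oneAB p hp).fst.fn z =
        (L p hp x).fst.fn z - (oneAB p hp).fst.fn z := rfl
      rw [e3, LA_fn p hp _ hz, e1]
    rw [e2] at h1
    refine h1.trans (le_trans ?_ hx')
    have h2 : ‖(L p hp x - oneAB p hp).fst‖ ≤ ‖L p hp x - oneAB p hp‖ := norm_fst_le _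
    exact mul_le_mul (by linarith) h2 (norm_nonneg _) (by positivity)
  · have h1 : ‖(L p hp x - oneAB p hp).snd.fn z‖ * (√2 - ‖z - (-I)‖) ≤
        KB * ‖(L p hp x - oneAB p hp).snd‖ := hbB (L p hp x - oneAB p hp).snd z hz
    have e1 : (oneAB p hp).snd.fn z = 1 := mkS_fn_mem (small_B p hp) _ (good_one dB) hz
    have e2 : (L p hp x - oneAB p hp).snd.fn z =
        theta z * (x.1.eval z + x.2.eval z * vF (W z)) - 1 := by
      have e3 : (L p hp x - oneAB p hp).snd.fn z =
        (L p hp x).snd.fn z - (oneAB p hp).snd.fn z := rfl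
      rw [e3, LB_fn p hp _ hz, e1]
    rw [e2] at h1
    refine h1.trans (le_trans ?_ hx')
    have h2 : ‖(L p hp x - oneAB p hp).snd‖ ≤ ‖L p hp x - oneAB p hp‖ := norm_snd_le _
    exact mul_le_mul (by linarith) h2 (norm_nonneg _) (by positivity)

end main

lemma frontier_inter : frontier (ball I (√2)) ∩ frontier (ball (-I) (√2)) = ({1, -1} : Set ℂ) := by
  have h2 : √2 ≠ 0 := by positivity
  rw [frontier_ball _ h2, frontier_ball _ h2]
  have key : ∀ w : ℂ, ‖w‖ = √2 ↔ normSq w = 2 := by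
    intro w
    rw [normSq_eq_norm_sq]
    constructor
    · intro h; rw [h]; exact Real.sq_sqrt (by norm_num)
    · intro h; rw [← h, Real.sqrt_sq (norm_nonneg _)]
  ext z
  simp only [mem_inter_iff, mem_sphere_iff_norm, mem_insert_iff, mem_singleton_iff]
  rw [key, key]
  constructor
  · rintro ⟨h3, h4⟩
    simp only [normSq_apply, sub_re, sub_im, I_re, I_im, neg_re, neg_im] at h3 h4
    have him : z.im = 0 := by linarith
    rw [him] at h3
    have hre : (z.re - 1) * (z.re + 1) = 0 := by linarith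
    rcases mul_eq_zero.mp hre with h | h
    · left; exact Complex.ext (by rw [one_re]; linarith) (by rw [one_im]; exact him)
    · right
      exact Complex.ext (by rw [neg_re, one_re]; linarith) (by rw [neg_im, one_im, neg_zero]; exact him)
  · rintro (rfl | rfl) <;> constructor <;> simp [normSq_apply] <;> norm_num

end MP9788a7
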