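import Pool.Agent.Lib_MP_9788a7_an.Disc
import Pool.Agent.Lib_MP_9788a7_an.Approx

open MeasureTheory Set Metric Filter Topology
open scoped ENNReal Real

namespace MP9788a7

lemma beta_mono (n : ℕ) {x y : ℝ} (h : x ≤ y) : beta n x ≤ beta n y := by
  unfold beta
  gcongr

lemma beta_nonneg (n : ℕ) {x : ℝ} (h : 0 ≤ x) : 0 ≤ beta n x := by
  unfold beta; positivity

lemma beta_le (n : ℕ) (x : ℝ) : beta n x ≤ 3 := by
  unfold beta
  have h1 : min 1 ((1 + 2 * x) / ((n : ℝ) + 1)) ≤ 1 := min_le_left _ _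
  have h2 : 1 / ((n : ℝ) + 1) ≤ 1 := by
    rw [div_le_one (by positivity)]
    have : (0 : ℝ) ≤ n := Nat.cast_nonneg n
    linarith
  linarith

lemma measurable_beta (n : ℕ) : Measurable (beta n) := by
  unfold beta
  fun_prop

lemma tendsto_beta (x : ℝ) : Tendsto (fun n => beta n x) atTop (𝓝 0) := by
  unfold beta
  have h1 : Tendsto (fun n : ℕ => 1 / ((n : ℝ) + 1)) atTop (𝓝 0) :=
    tendsto_one_div_add_atTop_nhds_zero_nat
  have h2 : Tendsto (fun n : ℕ => (1 + 2 * x) / ((n : ℝ) + 1)) atTop (𝓝 0) := by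
    have := h1.const_mul (1 + 2 * x)
    rw [mul_zero] at this
    exact this.congr fun n => mul_one_div _ _
  have h3 : Tendsto (fun n : ℕ => min 1 ((1 + 2 * x) / ((n : ℝ) + 1))) atTop (𝓝 (min 1 0)) :=
    tendsto_const_nhds.min h2
  have h4 := h1.add (h3.const_mul 2)
  simpa using h4

theorem small_norm (D : Dom) (p : ℝ≥0∞) [Fact (1 ≤ p)] (hp : p ≠ ∞) (Wt : ℝ → ℝ≥0∞)
    (hfin : ∫⁻ t in Ioc 0 (2 * π), Wt t ≠ ∞)
    (hWt : ∀ᵐ t : ℝ, ∀ r ∈ Ioo (0 : ℝ) 1,
      ‖(r : ℂ) * deriv D.φ (circleMap 0 r t)‖ₑ ≤ Wt t)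
    (h : ℝ → ℝ) (hm : Measurable h)
    (hh : ∀ᵐ t : ℝ, ∀ r ∈ Ioo (0 : ℝ) 1, ‖W (D.φ (circleMap 0 r t))‖ ≤ h t)
    (G : ℕ → ℂ → ℂ) (hG : ∀ n, ∀ z ∈ D.carrier, ‖G n z‖ ≤ beta n ‖W z‖) :
    Tendsto (fun n => D.smirnovNorm p (G n)) atTop (𝓝 0) := by
  have hp1 : 1 ≤ p := Fact.out
  have hp0 : p ≠ 0 := (one_pos.trans_le hp1).ne'
  have hpr : 0 < p.toReal := ENNReal.toReal_pos hp0 hp
  set ν : Measure ℝ := (volume.restrict (Ioc 0 (2 * π))).withDensity Wt with hν
  have hνf : IsFiniteMeasure ν := isFiniteMeasure_withDensity hfin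
  have hle : ∀ n, D.smirnovNorm p (G n) ≤ eLpNorm (fun t => beta n (h t)) p ν := by
    intro n
    refine D.smirnovNorm_le p _ fun r hr => ?_
    have h1 : D.arc r ≤ ν := by
      refine withDensity_mono (ae_restrict_of_ae ?_)
      filter_upwards [hWt] with t ht
      exact ht r hr
    have h2 : ∀ᵐ t ∂(D.arc r), ‖G n (D.φ (circleMap 0 r t))‖ ≤ beta n (h t) := by
      refine (withDensity_absolutelyContinuous _ _).ae_le (ae_restrict_of_ae ?_)
      filter_upwards [hh] with t ht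
      exact (hG n _ (D.bij.mapsTo (Dom.mem_ball hr))).trans (beta_mono n (ht r hr))
    exact (eLpNorm_mono_ae_real h2).trans (eLpNorm_mono_measure _ h1)
  have hlim : Tendsto (fun n => eLpNorm (fun t => beta n (h t)) p ν) atTop (𝓝 0) := by
    simp only [eLpNorm_eq_lintegral_rpow_enorm_toReal hp0 hp]
    have h1 : Tendsto (fun n => ∫⁻ t, ‖beta n (h t)‖ₑ ^ p.toReal ∂ν) atTop
        (𝓝 (∫⁻ _, 0 ∂ν)) := by
      have hh0 : ∀ᵐ t ∂ν, 0 ≤ h t := by
        refine (withDensity_absolutelyContinuous _ _).ae_le (ae_restrict_of_ae ?_)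
        filter_upwards [hh] with t ht
        exact (norm_nonneg _).trans (ht (1/2) ⟨by norm_num, by norm_num⟩)
      refine tendsto_lintegral_of_dominated_convergence (fun _ => (ENNReal.ofReal 3) ^ p.toReal)
        ?_ ?_ ?_ ?_
      · intro n
        exact ((measurable_beta n).comp hm).enorm.pow_const _
      · intro n
        filter_upwards [hh0] with t ht
        refine ENNReal.rpow_le_rpow ?_ hpr.le
        rw [← ofReal_norm, Real.norm_eq_abs, abs_of_nonneg (beta_nonneg n ht)]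
        exact ENNReal.ofReal_le_ofReal (beta_le n _)
      · rw [lintegral_const]
        exact ENNReal.mul_ne_top (ENNReal.rpow_ne_top_of_nonneg hpr.le ENNReal.ofReal_ne_top)
          (measure_ne_top ν _)
      · filter_upwards with t
        have h2 : Tendsto (fun n => ‖beta n (h t)‖ₑ) atTop (𝓝 0) := by
          have := (tendsto_beta (h t)).enorm
          simpa using this
        have h3 := (ENNReal.continuous_rpow_const (y := p.toReal)).tendsto 0
        rw [ENNReal.zero_rpow_of_pos hpr] at h3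
        exact h3.comp h2
    rw [lintegral_zero] at h1
    have h3 := (ENNReal.continuous_rpow_const (y := 1 / p.toReal)).tendsto 0
    rw [ENNReal.zero_rpow_of_pos (by positivity)] at h3
    exact h3.comp h1
  exact tendsto_of_tendsto_of_tendsto_of_le_of_le tendsto_const_nhds hlim
    (fun _ => bot_le) hle

/-- radial comparison -/
lemma radial {ζ : ℂ} (hζ : ‖ζ‖ = 1) {r : ℝ} (hr : r ∈ Ioo (0 : ℝ) 1) (t : ℝ) :
    ‖circleMap 0 1 t - ζ‖ ≤ 2 * ‖circleMap 0 r t - ζ‖ := by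
  have h1 : ‖circleMap 0 1 t - circleMap 0 r t‖ = 1 - r := by
    have : circleMap 0 1 t - circleMap 0 r t = ((1 - r : ℝ) : ℂ) * circleMap 0 1 t := by
      rw [circleMap, circleMap]; push_cast; ring
    rw [this, norm_mul, norm_circleMap_zero, Complex.norm_real, Real.norm_eq_abs, abs_one, mul_one,
      abs_of_pos (by linarith [hr.2])]
  have h2 : 1 - r ≤ ‖circleMap 0 r t - ζ‖ := by
    have h3 : ‖circleMap 0 r t‖ = r := by rw [norm_circleMap_zero, abs_of_pos hr.1]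
    have h4 := norm_sub_norm_le ζ (circleMap 0 r t)
    rw [hζ, h3, norm_sub_rev] at h4
    exact h4
  calc ‖circleMap 0 1 t - ζ‖ = ‖(circleMap 0 1 t - circleMap 0 r t) + (circleMap 0 r t - ζ)‖ := by
        congr 1; ring
    _ ≤ ‖circleMap 0 1 t - circleMap 0 r t‖ + ‖circleMap 0 r t - ζ‖ := norm_add_le _ _
    _ ≤ 2 * ‖circleMap 0 r t - ζ‖ := by rw [h1]; linarith

lemma ae_ne (ζ : ℂ) : ∀ᵐ t : ℝ, circleMap 0 1 t ≠ ζ := by
  have h1 : (circleMap 0 1 ⁻¹' {ζ}).Countable :=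
    (countable_singleton ζ).preimage_circleMap 0 one_ne_zero
  exact h1.ae_notMem volume

theorem small_disc (c : ℂ) (hc : ‖1 - c‖ = √2) (hc1 : ‖c‖ ≤ 1) (p : ℝ≥0∞) [Fact (1 ≤ p)]
    (hp : p ≠ ∞) (G : ℕ → ℂ → ℂ)
    (hG : ∀ n, ∀ z ∈ ball c (√2), ‖G n z‖ ≤ beta n ‖W z‖) :
    Tendsto (fun n => (disc c (√2) (by positivity)).smirnovNorm p (G n)) atTop (𝓝 0) := by
  have h2 : 0 < √2 := by positivity
  have h2' : √2 ≤ 2 := sqrt_two_bounds.2
  set ζ : ℂ := (1 - c) / (√2 : ℝ) with hζ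
  have hζ1 : ‖ζ‖ = 1 := by
    rw [hζ, norm_div, hc, Complex.norm_real, Real.norm_eq_abs, abs_of_pos h2, div_self h2.ne']
  refine small_norm (disc c (√2) (by positivity)) p hp (fun _ => ENNReal.ofReal 2) ?_ ?_
    (fun t => 8 / ‖circleMap 0 1 t - ζ‖) ?_ ?_ G hG
  · rw [lintegral_const]
    exact ENNReal.mul_ne_top ENNReal.ofReal_ne_top (measure_ne_top _ _)
  · filter_upwards with t r hr
    rw [disc_deriv, ← ofReal_norm, norm_mul, Complex.norm_real, Complex.norm_real,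
      Real.norm_eq_abs, Real.norm_eq_abs, abs_of_pos hr.1, abs_of_pos h2]
    refine ENNReal.ofReal_le_ofReal ?_
    nlinarith [hr.1, hr.2]
  · exact measurable_const.div
      ((continuous_circleMap 0 1).sub continuous_const).norm.measurable
  · filter_upwards [ae_ne ζ] with t ht r hr
    rw [disc_φ]
    set z : ℂ := c + (√2 : ℝ) * circleMap 0 r t with hz
    have h3 : 1 - z = (√2 : ℝ) * (ζ - circleMap 0 r t) := by
      rw [hz, hζ]
      have : ((√2 : ℝ) : ℂ) ≠ 0 := by exact_mod_cast h2.ne'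
      field_simp
      ring
    have h4 : 0 < ‖circleMap 0 1 t - ζ‖ := norm_pos_iff.mpr (sub_ne_zero.mpr ht)
    have h5 := radial hζ1 hr t
    have h6 : ‖1 + z‖ ≤ 4 := by
      have e1 : ‖circleMap 0 r t‖ = r := by rw [norm_circleMap_zero, abs_of_pos hr.1]
      have e2 : ‖z‖ ≤ 3 := by
        rw [hz]
        refine (norm_add_le _ _).trans ?_
        rw [norm_mul, e1, Complex.norm_real, Real.norm_eq_abs, abs_of_pos h2]
        nlinarith [hr.1, hr.2]
      refine (norm_add_le _ _).trans ?_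
      rw [norm_one]; linarith
    rw [W, norm_div, h3, norm_mul, Complex.norm_real, Real.norm_eq_abs, abs_of_pos h2,
      norm_sub_rev]
    have h7 : 0 < ‖circleMap 0 r t - ζ‖ := by linarith
    rw [div_le_div_iff₀ (by positivity) h4]
    have h8 : 1 ≤ √2 := sqrt_two_bounds.1
    calc ‖1 + z‖ * ‖circleMap 0 1 t - ζ‖ ≤ 4 * (2 * ‖circleMap 0 r t - ζ‖) := by gcongr
      _ = 8 * (1 * ‖circleMap 0 r t - ζ‖) := by ring
      _ ≤ 8 * (√2 * ‖circleMap 0 r t - ζ‖) := by gcongr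

end MP9788a7
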